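import Mathlib

/-!
First and second derivatives of polynomials along vectors, and expansions of forms of degree two,
three and four on a line.
-/

namespace Pool.Agent.Work.PDC

open MvPolynomial

section Defs

variable {k : Type*} [CommRing k] {σ : Type*} [Fintype σ] {R : Type*} [CommRing R] [Algebra k R]

/-- first derivative of `G` at `x` in the direction `v` -/
noncomputable def dd (G : MvPolynomial σ k) (x v : σ → R) : R := ∑ i, aeval x (pderiv i G) * v i

/-- second derivative of `G` at `x` in the directions `u`, `v` -/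
noncomputable def hh (G : MvPolynomial σ k) (x u v : σ → R) : R := ∑ i, dd (pderiv i G) x u * v i

theorem dd_add_right (G : MvPolynomial σ k) (x u v : σ → R) :
    dd G x (u + v) = dd G x u + dd G x v := by
  simp only [dd, Pi.add_apply, mul_add, Finset.sum_add_distrib]

theorem dd_smul_right (G : MvPolynomial σ k) (x v : σ → R) (c : R) :
    dd G x (c • v) = c * dd G x v := by
  simp only [dd, Pi.smul_apply, smul_eq_mul, Finset.mul_sum]
  exact Finset.sum_congr rfl fun i _ => by ring

/-- the first derivative as a linear form -/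
noncomputable def ddL (G : MvPolynomial σ k) (x : σ → R) : (σ → R) →ₗ[R] R where
  toFun := dd G x
  map_add' := dd_add_right G x
  map_smul' := fun c v => dd_smul_right G x v c

@[simp] theorem ddL_apply (G : MvPolynomial σ k) (x v : σ → R) : ddL G x v = dd G x v := rfl

theorem dd_zero_right (G : MvPolynomial σ k) (x : σ → R) : dd G x 0 = 0 := (ddL G x).map_zero

theorem dd_neg_right (G : MvPolynomial σ k) (x v : σ → R) : dd G x (-v) = - dd G x v :=
  (ddL G x).map_neg v

theorem dd_sub_right (G : MvPolynomial σ k) (x u v : σ → R) :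
    dd G x (u - v) = dd G x u - dd G x v := (ddL G x).map_sub u v

theorem dd_sum_right (G : MvPolynomial σ k) (x : σ → R) {ι : Type*} (s : Finset ι) (v : ι → σ → R) :
    dd G x (∑ i ∈ s, v i) = ∑ i ∈ s, dd G x (v i) := map_sum (ddL G x) v s

theorem dd_add (G H : MvPolynomial σ k) (x v : σ → R) :
    dd (G + H) x v = dd G x v + dd H x v := by
  simp only [dd, map_add, add_mul, Finset.sum_add_distrib]

theorem dd_zero (x v : σ → R) : dd (0 : MvPolynomial σ k) x v = 0 := by
  simp [dd]

theorem dd_mul (p q : MvPolynomial σ k) (x v : σ → R) :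
    dd (p * q) x v = aeval x p * dd q x v + aeval x q * dd p x v := by
  simp only [dd, pderiv_mul, map_add, map_mul, Finset.mul_sum, ← Finset.sum_add_distrib]
  exact Finset.sum_congr rfl fun i _ => by ring

theorem dd_C (c : k) (x v : σ → R) : dd (C c : MvPolynomial σ k) x v = 0 := by
  simp [dd]

theorem dd_X (j : σ) (x v : σ → R) : dd (X j : MvPolynomial σ k) x v = v j := by
  classical
  unfold dd
  rw [Finset.sum_eq_single j]
  · rw [pderiv_X_self]; simp
  · intro i _ hij
    rw [pderiv_X_of_ne (Ne.symm hij)]; simp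
  · simp

theorem hh_add_right (G : MvPolynomial σ k) (x u v w : σ → R) :
    hh G x u (v + w) = hh G x u v + hh G x u w := by
  simp only [hh, Pi.add_apply, mul_add, Finset.sum_add_distrib]

theorem hh_smul_right (G : MvPolynomial σ k) (x u v : σ → R) (c : R) :
    hh G x u (c • v) = c * hh G x u v := by
  simp only [hh, Pi.smul_apply, smul_eq_mul, Finset.mul_sum]
  exact Finset.sum_congr rfl fun i _ => by ring

theorem hh_add_left (G : MvPolynomial σ k) (x u v w : σ → R) :
    hh G x (u + v) w = hh G x u w + hh G x v w := by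
  simp only [hh, dd_add_right, add_mul, Finset.sum_add_distrib]

theorem hh_smul_left (G : MvPolynomial σ k) (x u v : σ → R) (c : R) :
    hh G x (c • u) v = c * hh G x u v := by
  simp only [hh, dd_smul_right, Finset.mul_sum]
  exact Finset.sum_congr rfl fun i _ => by ring

omit [Fintype σ] in
theorem pderiv_comm' (i j : σ) (p : MvPolynomial σ k) :
    pderiv i (pderiv j p) = pderiv j (pderiv i p) := by
  classical
  induction p using MvPolynomial.induction_on' with
  | monomial u a =>
    rw [pderiv_monomial, pderiv_monomial, pderiv_monomial, pderiv_monomial]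
    by_cases hij : i = j
    · subst hij; rfl
    · congr 1
      · rw [tsub_right_comm]
      · simp only [Finsupp.tsub_apply, Finsupp.single_apply, if_neg hij, if_neg (Ne.symm hij),
          tsub_zero]
        ring
  | add p q hp hq => simp only [map_add, hp, hq]

theorem hh_comm (G : MvPolynomial σ k) (x u v : σ → R) : hh G x u v = hh G x v u := by
  simp only [hh, dd, Finset.sum_mul]
  rw [Finset.sum_comm]
  refine Finset.sum_congr rfl fun i _ => Finset.sum_congr rfl fun j _ => ?_
  rw [pderiv_comm']
  ring

/-- the second derivative as a bilinear form -/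
noncomputable def hhB (G : MvPolynomial σ k) (x : σ → R) : LinearMap.BilinForm R (σ → R) :=
  LinearMap.mk₂ R (hh G x) (fun u v w => hh_add_left G x u v w)
    (fun c u v => hh_smul_left G x u v c) (fun u v w => hh_add_right G x u v w)
    (fun c u v => hh_smul_right G x u v c)

@[simp] theorem hhB_apply (G : MvPolynomial σ k) (x u v : σ → R) : hhB G x u v = hh G x u v := rfl

theorem hh_add (G H : MvPolynomial σ k) (x u v : σ → R) :
    hh (G + H) x u v = hh G x u v + hh H x u v := by
  simp only [hh, map_add, dd_add, add_mul, Finset.sum_add_distrib]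

theorem hh_zero (x u v : σ → R) : hh (0 : MvPolynomial σ k) x u v = 0 := by
  simp [hh, dd]

theorem hh_C (c : k) (x u v : σ → R) : hh (C c : MvPolynomial σ k) x u v = 0 := by
  simp [hh, dd]

theorem hh_X (j : σ) (x u v : σ → R) : hh (X j : MvPolynomial σ k) x u v = 0 := by
  classical
  unfold hh
  refine Finset.sum_eq_zero fun i _ => ?_
  rw [pderiv_X]
  by_cases hij : i = j
  · subst hij
    rw [Pi.single_eq_same, ← C_1, dd_C, zero_mul]
  · rw [Pi.single_eq_of_ne (fun h => hij h.symm), dd_zero, zero_mul]

theorem hh_mul (p q : MvPolynomial σ k) (x u v : σ → R) :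
    hh (p * q) x u v = aeval x p * hh q x u v + dd p x u * dd q x v + dd p x v * dd q x u +
      aeval x q * hh p x u v := by
  have h : ∀ i, dd (pderiv i (p * q)) x u * v i =
      aeval x p * (dd (pderiv i q) x u * v i) + dd p x u * (aeval x (pderiv i q) * v i) +
      (aeval x (pderiv i p) * v i) * dd q x u + aeval x q * (dd (pderiv i p) x u * v i) := by
    intro i
    rw [pderiv_mul, dd_add, dd_mul, dd_mul]
    ring
  unfold hh
  simp only [h, Finset.sum_add_distrib, ← Finset.mul_sum, ← Finset.sum_mul]
  simp only [dd]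

theorem map_dd {S : Type*} [CommRing S] [Algebra k S] (φ : R →ₐ[k] S) (G : MvPolynomial σ k)
    (x v : σ → R) : φ (dd G x v) = dd G (fun i => φ (x i)) (fun i => φ (v i)) := by
  simp only [dd, map_sum, map_mul]
  refine Finset.sum_congr rfl fun i _ => ?_
  congr 1
  rw [← AlgHom.comp_apply, MvPolynomial.comp_aeval]

theorem map_hh {S : Type*} [CommRing S] [Algebra k S] (φ : R →ₐ[k] S) (G : MvPolynomial σ k)
    (x u v : σ → R) : φ (hh G x u v) =
      hh G (fun i => φ (x i)) (fun i => φ (u i)) (fun i => φ (v i)) := by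
  simp only [hh, map_sum, map_mul, map_dd]

omit [Fintype σ] in
theorem map_aeval' {S : Type*} [CommRing S] [Algebra k S] (φ : R →ₐ[k] S) (G : MvPolynomial σ k)
    (x : σ → R) : φ (aeval x G) = aeval (fun i => φ (x i)) G := by
  rw [← AlgHom.comp_apply, MvPolynomial.comp_aeval]

theorem dd_pderiv (G : MvPolynomial σ k) (x v : σ → R) :
    dd G x v = ∑ i, aeval x (pderiv i G) * v i := rfl

end Defs

section Ind

variable {k : Type*} [Field k] {σ : Type*}

/-- induction for forms: products of `n` variables span the forms of degree `n` -/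
theorem hom_ind {P : MvPolynomial σ k → Prop} (n : ℕ) (h0 : P 0) (hadd : ∀ p q, P p → P q → P (p + q))
    (hC : ∀ c p, P p → P (C c * p)) (hX : ∀ t : Fin n → σ, P (∏ i, X (t i)))
    (G : MvPolynomial σ k) (hG : G.IsHomogeneous n) : P G := by
  classical
  have hmon : ∀ α : σ →₀ ℕ, α.degree = n → P (monomial α 1) := by
    intro α hα
    have hcard : α.toMultiset.card = n := by
      rw [Finsupp.card_toMultiset, ← hα]; rfl
    obtain ⟨t, ht⟩ : ∃ t : Fin n → σ, α.toMultiset = Finset.univ.val.map t := by
      induction' hs : α.toMultiset using Quotient.inductionOn with l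
      rw [hs] at hcard
      have hl : l.length = n := hcard
      subst hl
      refine ⟨l.get, ?_⟩
      have h1 : (Finset.univ : Finset (Fin l.length)).val = (List.finRange l.length : Multiset _) := rfl
      rw [h1, Multiset.map_coe]
      simp
    have h2 : (monomial α (1 : k) : MvPolynomial σ k) = ∏ i, X (t i) := by
      have h3 : (monomial α (1 : k) : MvPolynomial σ k) = (α.toMultiset.map X).prod := by
        rw [Finsupp.toMultiset_map, Finsupp.prod_toMultiset, monomial_eq, C_1, one_mul]
        rw [Finsupp.prod_mapDomain_index (by simp) (by intro a b c; rw [pow_add])]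
      rw [h3, ht, Multiset.map_map]
      rfl
    rw [h2]
    exact hX t
  rw [G.as_sum]
  refine Finset.sum_induction _ P hadd h0 ?_
  intro α hα
  have h1 : (monomial α (coeff α G) : MvPolynomial σ k) = C (coeff α G) * monomial α 1 := by
    rw [C_mul_monomial, mul_one]
  rw [h1]
  apply hC
  apply hmon
  have := hG (mem_support_iff.mp hα)
  rw [← this, Finsupp.degree_eq_weight_one]
  rfl

end Ind

section Exp

variable {k : Type*} [Field k] {σ : Type*} [Fintype σ] {R : Type*} [CommRing R] [Algebra k R]

theorem dd_Cmul (c : k) (G : MvPolynomial σ k) (x v : σ → R) :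
    dd (C c * G) x v = algebraMap k R c * dd G x v := by
  rw [dd_mul, dd_C, aeval_C]; ring

theorem hh_Cmul (c : k) (G : MvPolynomial σ k) (x u v : σ → R) :
    hh (C c * G) x u v = algebraMap k R c * hh G x u v := by
  rw [hh_mul, dd_C, dd_C, hh_C, aeval_C]; ring

theorem tay2 {G : MvPolynomial σ k} (hG : G.IsHomogeneous 2) (x y : σ → R) (a b : R) :
    aeval (a • x + b • y) G = a ^ 2 * aeval x G + a * b * dd G x y + b ^ 2 * aeval y G := by
  refine hom_ind (P := fun G => aeval (a • x + b • y) G =
    a ^ 2 * aeval x G + a * b * dd G x y + b ^ 2 * aeval y G) 2 ?_ ?_ ?_ ?_ G hG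
  · simp [dd_zero]
  · intro p q hp hq
    rw [map_add, map_add, map_add, dd_add, hp, hq]; ring
  · intro c p hp
    rw [map_mul, map_mul, map_mul, dd_Cmul, hp]
    simp only [aeval_C]; ring
  · intro t
    simp only [Fin.prod_univ_two, map_mul, aeval_X, dd_mul, dd_X, Pi.add_apply, Pi.smul_apply,
      smul_eq_mul]
    ring

theorem dd2_comm {G : MvPolynomial σ k} (hG : G.IsHomogeneous 2) (x y : σ → R) :
    dd G x y = dd G y x := by
  have h1 := tay2 hG x y 1 1
  have h2 := tay2 hG y x 1 1
  have h3 : (1 : R) • x + (1 : R) • y = (1 : R) • y + (1 : R) • x := add_comm _ _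
  rw [h3, h2] at h1
  linear_combination -h1

theorem dd2_self {G : MvPolynomial σ k} (hG : G.IsHomogeneous 2) (x : σ → R) :
    dd G x x = 2 * aeval x G := by
  refine hom_ind (P := fun G => dd G x x = 2 * aeval x G) 2 ?_ ?_ ?_ ?_ G hG
  · simp [dd_zero]
  · intro p q hp hq
    rw [map_add, dd_add, hp, hq]; ring
  · intro c p hp
    rw [map_mul, dd_Cmul, hp]
    simp only [aeval_C]; ring
  · intro t
    simp only [Fin.prod_univ_two, map_mul, aeval_X, dd_mul, dd_X]
    ring

theorem tay3 {G : MvPolynomial σ k} (hG : G.IsHomogeneous 3) (x y : σ → R) (a b : R) :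
    aeval (a • x + b • y) G = a ^ 3 * aeval x G + a ^ 2 * b * dd G x y + a * b ^ 2 * dd G y x +
      b ^ 3 * aeval y G := by
  refine hom_ind (P := fun G => aeval (a • x + b • y) G =
    a ^ 3 * aeval x G + a ^ 2 * b * dd G x y + a * b ^ 2 * dd G y x +
      b ^ 3 * aeval y G) 3 ?_ ?_ ?_ ?_ G hG
  · simp [dd_zero]
  · intro p q hp hq
    rw [map_add, map_add, map_add, dd_add, dd_add, hp, hq]; ring
  · intro c p hp
    rw [map_mul, map_mul, map_mul, dd_Cmul, dd_Cmul, hp]
    simp only [aeval_C]; ring
  · intro t
    simp only [Fin.prod_univ_three, map_mul, aeval_X, dd_mul, dd_X, Pi.add_apply, Pi.smul_apply,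
      smul_eq_mul]
    ring

theorem tay4 {G : MvPolynomial σ k} (hG : G.IsHomogeneous 4) (x y : σ → R) (a b : R) :
    2 * aeval (a • x + b • y) G = 2 * a ^ 4 * aeval x G + 2 * a ^ 3 * b * dd G x y +
      a ^ 2 * b ^ 2 * hh G x y y + 2 * a * b ^ 3 * dd G y x + 2 * b ^ 4 * aeval y G := by
  refine hom_ind (P := fun G => 2 * aeval (a • x + b • y) G =
    2 * a ^ 4 * aeval x G + 2 * a ^ 3 * b * dd G x y +
      a ^ 2 * b ^ 2 * hh G x y y + 2 * a * b ^ 3 * dd G y x + 2 * b ^ 4 * aeval y G)
    4 ?_ ?_ ?_ ?_ G hG
  · simp [dd_zero, hh_zero]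
  · intro p q hp hq
    rw [map_add, map_add, map_add, dd_add, dd_add, hh_add, mul_add, hp, hq]; ring
  · intro c p hp
    rw [map_mul, map_mul, map_mul, dd_Cmul, dd_Cmul, hh_Cmul]
    simp only [aeval_C]
    linear_combination (algebraMap k R c) * hp
  · intro t
    simp only [Fin.prod_univ_four, map_mul, aeval_X, dd_mul, dd_X, hh_mul, hh_X, Pi.add_apply,
      Pi.smul_apply, smul_eq_mul]
    ring

/-- Euler's identity in degree `n` -/
theorem dd_self_gen {n : ℕ} {G : MvPolynomial σ k} (hG : G.IsHomogeneous n) (x : σ → R) :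
    dd G x x = n * aeval x G := by
  have h := hG.sum_X_mul_pderiv
  have h1 := congrArg (aeval x) h
  rw [map_sum] at h1
  simp only [map_mul, aeval_X, nsmul_eq_mul, map_natCast] at h1
  unfold dd
  rw [← h1]
  exact Finset.sum_congr rfl fun i _ => mul_comm _ _

omit [Fintype σ] in
theorem aeval_smul_gen {n : ℕ} {G : MvPolynomial σ k} (hG : G.IsHomogeneous n) (x : σ → R) (a : R) :
    aeval (a • x) G = a ^ n * aeval x G := by
  refine hom_ind (P := fun G => aeval (a • x) G = a ^ n * aeval x G) n ?_ ?_ ?_ ?_ G hG
  · simp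
  · intro p q hp hq
    rw [map_add, map_add, hp, hq]; ring
  · intro c p hp
    rw [map_mul, map_mul, hp]
    simp only [aeval_C]; ring
  · intro t
    simp only [map_prod, aeval_X, Pi.smul_apply, smul_eq_mul, Finset.prod_mul_distrib,
      Finset.prod_const, Finset.card_univ, Fintype.card_fin]

end Exp

end Pool.Agent.Work.PDC
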