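import Mathlib
import Pool.Agent.Work.MP_b62148_ag.CI.Tay

/-!
Polynomials along a line, their coefficients and coefficientwise derivations.
-/

namespace Pool.Agent.Work.PDC

open MvPolynomial

section Basic

variable {k : Type*} [CommRing k] {σ : Type*} {R : Type*} [CommRing R] [Algebra k R]

/-- the generic point of the line through `x` in the direction `y` -/
noncomputable def line (x y : σ → R) : σ → Polynomial R :=
  fun i => Polynomial.C (x i) + Polynomial.X * Polynomial.C (y i)

theorem eval_line (x y : σ → R) (G : MvPolynomial σ k) (s : R) :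
    Polynomial.eval s (aeval (line x y) G) = aeval (fun i => x i + s * y i) G := by
  have h := map_aeval' ((Polynomial.aeval s : Polynomial R →ₐ[R] R).restrictScalars k) G (line x y)
  rw [AlgHom.restrictScalars_apply, Polynomial.coe_aeval_eq_eval] at h
  rw [h]
  congr 1
  congr 1
  funext i
  rw [AlgHom.restrictScalars_apply, Polynomial.coe_aeval_eq_eval]
  simp only [line, Polynomial.eval_add, Polynomial.eval_mul, Polynomial.eval_C, Polynomial.eval_X]

theorem coeff_zero_line (x y : σ → R) (G : MvPolynomial σ k) :
    (aeval (line x y) G).coeff 0 = aeval x G := by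
  rw [Polynomial.coeff_zero_eq_eval_zero, eval_line]
  simp

theorem coeff_one_line [Fintype σ] (x y : σ → R) (G : MvPolynomial σ k) :
    (aeval (line x y) G).coeff 1 = dd G x y := by
  induction G using MvPolynomial.induction_on with
  | C a =>
    rw [dd_C, aeval_C]
    have : (algebraMap k (Polynomial R)) a = Polynomial.C (algebraMap k R a) := rfl
    rw [this, Polynomial.coeff_C]
    simp
  | add p q hp hq => rw [map_add, Polynomial.coeff_add, hp, hq, dd_add]
  | mul_X p j hp =>
    rw [map_mul, aeval_X, Polynomial.mul_coeff_one, hp, coeff_zero_line, dd_mul, dd_X, aeval_X]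
    have h0 : (line x y j).coeff 0 = x j := by simp [line]
    have h1 : (line x y j).coeff 1 = y j := by simp [line, Polynomial.coeff_C]
    rw [h0, h1]
    ring

end Basic

section Field

variable {k : Type*} [Field k] {σ : Type*} {R : Type*} [CommRing R] [Algebra k R]

theorem natDegree_line_le (x y : σ → R) (i : σ) : (line x y i).natDegree ≤ 1 := by
  unfold line
  refine (Polynomial.natDegree_add_le _ _).trans (max_le ?_ ?_)
  · rw [Polynomial.natDegree_C]; omega
  · refine (Polynomial.natDegree_mul_le).trans ?_
    rw [Polynomial.natDegree_C]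
    have := Polynomial.natDegree_X_le (R := R)
    omega

theorem hom_line {n : ℕ} {G : MvPolynomial σ k} (hG : G.IsHomogeneous n) (x y : σ → R) :
    (aeval (line x y) G).natDegree ≤ n ∧ (aeval (line x y) G).coeff n = aeval y G := by
  refine hom_ind (P := fun G => (aeval (line x y) G).natDegree ≤ n ∧
    (aeval (line x y) G).coeff n = aeval y G) n ?_ ?_ ?_ ?_ G hG
  · simp
  · rintro p q ⟨hp1, hp2⟩ ⟨hq1, hq2⟩
    refine ⟨?_, ?_⟩
    · rw [map_add]
      exact (Polynomial.natDegree_add_le _ _).trans (max_le hp1 hq1)
    · rw [map_add, map_add, Polynomial.coeff_add, hp2, hq2]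
  · rintro c p ⟨hp1, hp2⟩
    have hc : (aeval (line x y) (C c : MvPolynomial σ k)) = Polynomial.C (algebraMap k R c) := by
      rw [aeval_C]; rfl
    refine ⟨?_, ?_⟩
    · rw [map_mul, hc]
      refine (Polynomial.natDegree_mul_le).trans ?_
      rw [Polynomial.natDegree_C]
      omega
    · rw [map_mul, map_mul, hc, Polynomial.coeff_C_mul, hp2, aeval_C]
  · intro t
    simp only [map_prod, aeval_X]
    have hle : ∀ i ∈ (Finset.univ : Finset (Fin n)), (line x y (t i)).natDegree ≤ 1 :=
      fun i _ => natDegree_line_le x y (t i)
    refine ⟨?_, ?_⟩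
    · refine (Polynomial.natDegree_prod_le _ _).trans ?_
      refine (Finset.sum_le_sum hle).trans ?_
      simp
    · have := Polynomial.coeff_prod_of_natDegree_le (Finset.univ : Finset (Fin n))
        (fun i => line x y (t i)) 1 (fun i _ => natDegree_line_le x y (t i))
      rw [Finset.card_univ, Fintype.card_fin, mul_one] at this
      rw [this]
      refine Finset.prod_congr rfl fun i _ => ?_
      simp [line, Polynomial.coeff_C]

end Field

section Pl

variable {k : Type*} [Field k] {σ : Type*} [Fintype σ] {R : Type*} [CommRing R] [Algebra k R]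

/-- the first derivative in the direction `w` along a line -/
noncomputable def pl (G : MvPolynomial σ k) (x y w : σ → R) : Polynomial R :=
  dd G (line x y) (fun i => Polynomial.C (w i))

theorem pl_add (G : MvPolynomial σ k) (x y v w : σ → R) :
    pl G x y (v + w) = pl G x y v + pl G x y w := by
  unfold pl
  rw [← dd_add_right]
  congr 1
  funext i
  simp

theorem pl_smul (G : MvPolynomial σ k) (x y w : σ → R) (c : R) :
    pl G x y (c • w) = Polynomial.C c * pl G x y w := by
  unfold pl
  rw [← dd_smul_right]
  congr 1
  funext i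
  simp

/-- a coefficient of the derivative along a line as a linear form -/
noncomputable def plc (G : MvPolynomial σ k) (x y : σ → R) (j : ℕ) : (σ → R) →ₗ[R] R where
  toFun := fun w => (pl G x y w).coeff j
  map_add' := fun v w => by rw [pl_add, Polynomial.coeff_add]
  map_smul' := fun c w => by rw [pl_smul, Polynomial.coeff_C_mul]; rfl

theorem plc_apply (G : MvPolynomial σ k) (x y : σ → R) (j : ℕ) (w : σ → R) :
    plc G x y j w = (pl G x y w).coeff j := rfl

theorem plc_zero (G : MvPolynomial σ k) (x y w : σ → R) : plc G x y 0 w = dd G x w := by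
  rw [plc_apply]
  unfold pl dd
  rw [Polynomial.finsetSum_coeff]
  refine Finset.sum_congr rfl fun i _ => ?_
  rw [Polynomial.mul_coeff_zero, coeff_zero_line, Polynomial.coeff_C_zero]

theorem plc_one (G : MvPolynomial σ k) (x y w : σ → R) : plc G x y 1 w = hh G x y w := by
  rw [plc_apply]
  unfold pl hh dd
  rw [Polynomial.finsetSum_coeff]
  refine Finset.sum_congr rfl fun i _ => ?_
  rw [Polynomial.coeff_mul_C, coeff_one_line, dd]

theorem pl_hom {n : ℕ} {G : MvPolynomial σ k} (hG : G.IsHomogeneous (n + 1)) (x y w : σ → R) :
    (pl G x y w).natDegree ≤ n := by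
  unfold pl dd
  refine Polynomial.natDegree_sum_le_of_forall_le _ _ fun i _ => ?_
  refine (Polynomial.natDegree_mul_le).trans ?_
  have := (hom_line (by simpa using hG.pderiv (i := i) : (pderiv i G).IsHomogeneous n) x y).1
  rw [Polynomial.natDegree_C]
  omega

theorem plc_top {n : ℕ} {G : MvPolynomial σ k} (hG : G.IsHomogeneous (n + 1)) (x y w : σ → R) :
    plc G x y n w = dd G y w := by
  rw [plc_apply]
  unfold pl dd
  rw [Polynomial.finsetSum_coeff]
  refine Finset.sum_congr rfl fun i _ => ?_
  rw [Polynomial.coeff_mul_C]
  rw [(hom_line (by simpa using hG.pderiv (i := i) : (pderiv i G).IsHomogeneous n) x y).2]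

theorem eval_pl {n : ℕ} {G : MvPolynomial σ k} (hG : G.IsHomogeneous (n + 1)) (x y w : σ → R)
    (s : R) : dd G (fun i => x i + s * y i) w = ∑ t ∈ Finset.range (n + 1), s ^ t * plc G x y t w := by
  have h1 : dd G (fun i => x i + s * y i) w = Polynomial.eval s (pl G x y w) := by
    unfold pl dd
    rw [Polynomial.eval_finsetSum]
    refine Finset.sum_congr rfl fun i _ => ?_
    rw [Polynomial.eval_mul, eval_line, Polynomial.eval_C]
  rw [h1, Polynomial.eval_eq_sum_range' (Nat.lt_succ_of_le (pl_hom hG x y w))]
  exact Finset.sum_congr rfl fun t _ => mul_comm _ _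

end Pl

section Der

variable {k : Type*} [Field k] {σ : Type*} [Fintype σ] {E : Type*} [Field E] [Algebra k E]

/-- the coefficientwise derivation -/
noncomputable def pcD (D : Derivation k E E) : Derivation k (Polynomial E) (Polynomial E) :=
  PolynomialModule.equivPolynomialSelf.compDer D.mapCoeffs

theorem coeff_pcD (D : Derivation k E E) (p : Polynomial E) (i : ℕ) :
    (pcD D p).coeff i = D (p.coeff i) := rfl

theorem pcD_C (D : Derivation k E E) (x : E) : pcD D (Polynomial.C x) = Polynomial.C (D x) := by
  ext i
  rw [coeff_pcD, Polynomial.coeff_C, Polynomial.coeff_C]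
  split_ifs <;> simp

theorem pcD_X (D : Derivation k E E) : pcD D (Polynomial.X : Polynomial E) = 0 := by
  ext i
  rw [coeff_pcD, Polynomial.coeff_X, Polynomial.coeff_zero]
  split_ifs <;> simp

theorem der_aeval {B : Type*} [CommRing B] [Algebra k B] (D : Derivation k B B) (y : σ → B)
    (p : MvPolynomial σ k) : D (aeval y p) = dd p y (fun i => D (y i)) := by
  induction p using MvPolynomial.induction_on with
  | C a => rw [dd_C]; simp
  | add p q hp hq => rw [map_add, map_add, hp, hq, dd_add]
  | mul_X p j hp =>
    rw [map_mul, Derivation.leibniz, hp, dd_mul, dd_X, aeval_X, smul_eq_mul, smul_eq_mul]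

omit [Fintype σ] in
theorem pcD_line (D : Derivation k E E) (x y : σ → E) (i : σ) :
    pcD D (line x y i) = line (fun i => D (x i)) (fun i => D (y i)) i := by
  unfold line
  rw [map_add, Derivation.leibniz, pcD_C, pcD_C, pcD_X]
  simp

/-- the coefficients of a form along a line, derived -/
theorem der_coeff (D : Derivation k E E) (G : MvPolynomial σ k) (x y : σ → E) (j : ℕ) :
    D ((aeval (line x y) G).coeff (j + 1)) =
      plc G x y (j + 1) (fun i => D (x i)) + plc G x y j (fun i => D (y i)) := by
  rw [← coeff_pcD, der_aeval]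
  have h1 : (fun i => pcD D (line x y i)) =
      (fun i => Polynomial.C (D (x i)) : σ → Polynomial E) +
        (Polynomial.X : Polynomial E) • (fun i => Polynomial.C (D (y i)) : σ → Polynomial E) := by
    funext i
    rw [pcD_line]
    rfl
  rw [h1, dd_add_right, dd_smul_right, Polynomial.coeff_add, Polynomial.coeff_X_mul]
  rfl

end Der

end Pool.Agent.Work.PDC
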