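import Mathlib
import Pool.Agent.Work.MP_b62148_ag.Generic
import Pool.Agent.Work.MP_b62148_ag.CI.LineP

/-!
The generic point of the component of a complete intersection through a given smooth point, with
enough derivations.
-/

namespace Pool.Agent.Work.PDC

open MvPolynomial

universe u w

section Prime

variable {k : Type u} [Field k] [CharZero k] {σ : Type w} [Fintype σ]
variable (q : Ideal (MvPolynomial σ k)) [hq : q.IsPrime]

/-- function field -/
abbrev Fq := FractionRing (MvPolynomial σ k ⧸ q)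

/-- its algebraic closure -/
abbrev EEq := AlgebraicClosure (Fq q)

/-- the generic point -/
noncomputable def etaq (i : σ) : EEq q :=
  algebraMap (MvPolynomial σ k ⧸ q) (EEq q) (Ideal.Quotient.mk _ (X i))

instance instCharZeroFq : CharZero (Fq q) :=
  charZero_of_injective_algebraMap (algebraMap k (Fq q)).injective

instance instCharZeroEEq : CharZero (EEq q) :=
  charZero_of_injective_algebraMap (algebraMap k (EEq q)).injective

omit [CharZero k] [Fintype σ] in
theorem aeval_etaq (p : MvPolynomial σ k) :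
    aeval (etaq q) p = algebraMap (MvPolynomial σ k ⧸ q) (EEq q) (Ideal.Quotient.mk _ p) := by
  have h : (aeval (etaq q) : MvPolynomial σ k →ₐ[k] EEq q) =
      ((IsScalarTower.toAlgHom k (MvPolynomial σ k ⧸ q) (EEq q)).comp
        (Ideal.Quotient.mkₐ k q)) := by
    apply MvPolynomial.algHom_ext
    intro i
    simp [etaq]
  rw [h]
  rfl

omit [CharZero k] [Fintype σ] in
theorem aeval_etaq_eq_zero_iff (p : MvPolynomial σ k) : aeval (etaq q) p = 0 ↔ p ∈ q := by
  rw [aeval_etaq]
  have hinj : Function.Injective (algebraMap (MvPolynomial σ k ⧸ q) (EEq q)) := by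
    rw [IsScalarTower.algebraMap_eq (MvPolynomial σ k ⧸ q) (Fq q) (EEq q)]
    exact (algebraMap (Fq q) (EEq q)).injective.comp
      (IsFractionRing.injective (MvPolynomial σ k ⧸ q) (Fq q))
  rw [map_eq_zero_iff _ hinj, Ideal.Quotient.eq_zero_iff_mem]

theorem exists_der_prime (ξ : σ → EEq q) (hξ : ∀ p ∈ q, dd p (etaq q) ξ = 0) :
    ∃ D : Derivation k (EEq q) (EEq q), ∀ i, D (etaq q i) = ξ i := by
  classical
  have i1 : Algebra.FormallyEtale (MvPolynomial σ k ⧸ q) (Fq q) :=
    Algebra.FormallyEtale.of_isLocalization (nonZeroDivisors (MvPolynomial σ k ⧸ q))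
  have i2 : Algebra.FormallyEtale (Fq q) (EEq q) := Algebra.FormallyEtale.of_isSeparable _ _
  have i3 : Algebra.FormallyEtale (MvPolynomial σ k ⧸ q) (EEq q) :=
    Algebra.FormallyEtale.comp (MvPolynomial σ k ⧸ q) (Fq q) (EEq q)
  let L : MvPolynomial σ k → EEq q := fun p => dd p (etaq q) ξ
  have Ladd : ∀ p r, L (p + r) = L p + L r := fun p r => dd_add p r _ _
  have Lmul : ∀ p r, L (p * r) = aeval (etaq q) p * L r + aeval (etaq q) r * L p :=
    fun p r => dd_mul p r _ _
  have Lneg : ∀ p, L (-p) = - L p := by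
    intro p
    have h1 := Ladd p (-p)
    rw [add_neg_cancel] at h1
    have h2 : L 0 = 0 := dd_zero _ _
    rw [h2] at h1
    linear_combination -h1
  have Lwd : ∀ p r, Ideal.Quotient.mk q p = Ideal.Quotient.mk q r → L p = L r := by
    intro p r h
    have h1 : L (p - r) = 0 := hξ _ (Ideal.Quotient.eq.mp h)
    rw [sub_eq_add_neg, Ladd, Lneg] at h1
    linear_combination h1
  let out : (MvPolynomial σ k ⧸ q) → MvPolynomial σ k :=
    fun b => Function.surjInv Ideal.Quotient.mk_surjective b
  have hout : ∀ b, Ideal.Quotient.mk q (out b) = b := fun b =>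
    Function.surjInv_eq Ideal.Quotient.mk_surjective b
  let dlin : (MvPolynomial σ k ⧸ q) →ₗ[k] EEq q :=
    { toFun := fun b => L (out b)
      map_add' := by
        intro a b
        rw [← Ladd]
        apply Lwd
        rw [map_add, hout, hout, hout]
      map_smul' := by
        intro c b
        have h1 : L (out (c • b)) = L (C c * out b) := by
          apply Lwd
          rw [map_mul, hout, hout]
          obtain ⟨p, rfl⟩ := Ideal.Quotient.mk_surjective b
          rw [← map_mul, ← MvPolynomial.smul_eq_C_mul]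
          rfl
        rw [h1, Lmul]
        simp only [L, dd_C, mul_zero, add_zero, aeval_C, RingHom.id_apply]
        rw [Algebra.smul_def] }
  have hdlin : ∀ p, dlin (Ideal.Quotient.mk _ p) = L p := by
    intro p
    apply Lwd
    rw [hout]
  let d : Derivation k (MvPolynomial σ k ⧸ q) (EEq q) := Derivation.mk' dlin (by
    intro a b
    obtain ⟨p, rfl⟩ := Ideal.Quotient.mk_surjective a
    obtain ⟨r, rfl⟩ := Ideal.Quotient.mk_surjective b
    rw [← map_mul, hdlin, hdlin, hdlin, Lmul, aeval_etaq, aeval_etaq, Algebra.smul_def,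
      Algebra.smul_def])
  obtain ⟨D, hD⟩ := PD.exists_extend_derivation (R := k) (S := MvPolynomial σ k ⧸ q)
    (T := EEq q) (M := EEq q) d
  refine ⟨D, ?_⟩
  intro i
  unfold etaq
  rw [hD]
  show dlin (Ideal.Quotient.mk _ (X i)) = ξ i
  rw [hdlin]
  exact dd_X i _ _

end Prime

section Min

theorem der_sum_apply {k R ι : Type*} [CommRing k] [CommRing R] [Algebra k R] (s : Finset ι)
    (D : ι → Derivation k R R) (p : R) : (∑ i ∈ s, D i) p = ∑ i ∈ s, D i p := by
  classical
  induction s using Finset.induction with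
  | empty => simp
  | insert a s ha ih => rw [Finset.sum_insert ha, Finset.sum_insert ha, Derivation.add_apply, ih]

/-- an element of a minimal prime over an ideal, up to a factor outside, is nilpotent -/
theorem exists_mul_pow_mem {R : Type*} [CommRing R] {I p : Ideal R} (hp : p ∈ I.minimalPrimes)
    {x : R} (hx : x ∈ p) : ∃ s ∉ p, ∃ n : ℕ, s * x ^ n ∈ I := by
  classical
  have hpp : p.IsPrime := hp.1.1
  have h1 : p.map (algebraMap R (Localization.AtPrime p)) ≤
      (I.map (algebraMap R (Localization.AtPrime p))).radical := by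
    rw [Ideal.radical_eq_sInf, le_sInf_iff]
    rintro r ⟨hr', hr⟩
    obtain ⟨h₁, h₂⟩ := ((IsLocalization.AtPrime.orderIsoOfPrime _ p) ⟨r, hr⟩).2
    rw [Ideal.map_le_iff_le_comap] at hr' ⊢
    exact hp.2 ⟨h₁, hr'⟩ h₂
  obtain ⟨n, hn⟩ := h1 (Ideal.mem_map_of_mem _ hx)
  rw [← map_pow, IsLocalization.mem_map_algebraMap_iff (M := p.primeCompl)] at hn
  obtain ⟨⟨a, b⟩, hn⟩ := hn
  rw [← map_mul, IsLocalization.eq_iff_exists p.primeCompl] at hn
  obtain ⟨t, ht⟩ := hn
  refine ⟨(t * b : p.primeCompl).1, (t * b).2, n, ?_⟩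
  simp only at ht
  have h2 : (t * b : p.primeCompl).1 * x ^ n = t.1 * a.1 := by
    rw [← ht]
    simp only [Submonoid.coe_mul]
    ring
  rw [h2]
  exact I.mul_mem_left _ a.2

/-- a derivation preserving an ideal preserves its minimal primes (characteristic zero) -/
theorem der_minimal {k R : Type*} [Field k] [CharZero k] [CommRing R] [Algebra k R] {I p : Ideal R}
    (hp : p ∈ I.minimalPrimes) (D : Derivation k R R) (hD : ∀ x ∈ I, D x ∈ I) {x : R}
    (hx : x ∈ p) : D x ∈ p := by
  classical
  have hpp : p.IsPrime := hp.1.1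
  have hIp : I ≤ p := hp.1.2
  have hex : ∃ n : ℕ, ∃ s ∉ p, s * x ^ n ∈ I := by
    obtain ⟨s, hs, n, hn⟩ := exists_mul_pow_mem hp hx
    exact ⟨n, s, hs, hn⟩
  obtain ⟨s, hs, hn⟩ := Nat.find_spec hex
  have hmin : ∀ m < Nat.find hex, ¬ ∃ s ∉ p, s * x ^ m ∈ I := fun m hm => Nat.find_min hex hm
  generalize Nat.find hex = n at hn hmin
  cases n with
  | zero =>
    exfalso
    apply hs
    apply hIp
    simpa using hn
  | succ n =>
    by_contra hcon
    apply hmin n (Nat.lt_succ_self n)
    refine ⟨s ^ 2 * D x, ?_, ?_⟩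
    · intro h
      rcases hpp.mem_or_mem h with h | h
      · exact hs (hpp.mem_of_pow_mem _ h)
      · exact hcon h
    · have h1 := hD _ hn
      rw [Derivation.leibniz, Derivation.leibniz_pow] at h1
      simp only [smul_eq_mul, nsmul_eq_mul, Nat.add_sub_cancel] at h1
      have h2 : s * (s * (((n + 1 : ℕ) : R) * (x ^ n * D x)) + x ^ (n + 1) * D s) ∈ I :=
        I.mul_mem_left _ h1
      have h3 : s * (x ^ (n + 1) * D s) ∈ I := by
        have := I.mul_mem_left (D s) hn
        have h4 : s * (x ^ (n + 1) * D s) = D s * (s * x ^ (n + 1)) := by ring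
        rw [h4]; exact this
      have h5 : ((n + 1 : ℕ) : R) * (s ^ 2 * D x * x ^ n) ∈ I := by
        have h6 := I.sub_mem h2 h3
        have h7 : s * (s * (((n + 1 : ℕ) : R) * (x ^ n * D x)) + x ^ (n + 1) * D s) -
            s * (x ^ (n + 1) * D s) = ((n + 1 : ℕ) : R) * (s ^ 2 * D x * x ^ n) := by ring
        rw [h7] at h6
        exact h6
      have h8 : algebraMap k R ((n + 1 : ℕ) : k)⁻¹ * (((n + 1 : ℕ) : R) * (s ^ 2 * D x * x ^ n)) =
          s ^ 2 * D x * x ^ n := by
        have h9 : algebraMap k R ((n + 1 : ℕ) : k)⁻¹ * ((n + 1 : ℕ) : R) = 1 := by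
          have h10 : ((n + 1 : ℕ) : R) = algebraMap k R ((n + 1 : ℕ) : k) := by simp
          rw [h10, ← map_mul, inv_mul_cancel₀ (by exact_mod_cast Nat.succ_ne_zero n), map_one]
        rw [← mul_assoc, h9, one_mul]
      rw [← h8]
      exact I.mul_mem_left _ h5

end Min

section Gen

variable {k : Type u} [Field k] [CharZero k] {σ : Type w} [Fintype σ] {ι : Type*} [Fintype ι]
  [DecidableEq ι]

/-- the generic point of the component through a smooth point -/
theorem exists_gen (G : ι → MvPolynomial σ k) (x0 : σ → k) (hx : ∀ i, aeval x0 (G i) = 0)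
    (u : ι → σ → k) (hu : ∀ m i, dd (G m) x0 (u i) = if m = i then 1 else 0) :
    ∃ (E : Type (max u w)) (_ : Field E) (_ : Algebra k E) (_ : IsAlgClosed E) (η : σ → E),
      (∀ H : MvPolynomial σ k, aeval η H = 0 → aeval x0 H = 0) ∧ (∀ i, aeval η (G i) = 0) ∧
      ∀ v : σ → E, (∀ i, dd (G i) η v = 0) → ∃ D : Derivation k E E, ∀ l, D (η l) = v l := by
  classical
  let I : Ideal (MvPolynomial σ k) := Ideal.span (Set.range G)
  let m0 : Ideal (MvPolynomial σ k) := RingHom.ker (aeval x0 : MvPolynomial σ k →ₐ[k] k)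
  have hm0 : m0.IsPrime := RingHom.ker_isPrime _
  have hIm : I ≤ m0 := by
    rw [Ideal.span_le]
    rintro _ ⟨i, rfl⟩
    exact hx i
  obtain ⟨q, hqI, hqm⟩ := Ideal.exists_minimalPrimes_le hIm
  have hqp : q.IsPrime := hqI.1.1
  have hGq : ∀ i, G i ∈ q := fun i => hqI.1.2 (Ideal.subset_span ⟨i, rfl⟩)
  -- the matrix of derivatives in the dual directions
  let U : ι → Derivation k (MvPolynomial σ k) (MvPolynomial σ k) :=
    fun i => ∑ l, (C (u i l) : MvPolynomial σ k) • pderiv l
  have hU : ∀ i p, U i p = ∑ l, C (u i l) * pderiv l p := by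
    intro i p
    simp only [U, der_sum_apply, Derivation.coe_smul, Pi.smul_apply, smul_eq_mul]
  let M : Matrix ι ι (MvPolynomial σ k) := Matrix.of fun m i => U i (G m)
  have hMx : (aeval x0 : MvPolynomial σ k →ₐ[k] k).mapMatrix M = 1 := by
    ext m i
    rw [AlgHom.mapMatrix_apply, Matrix.map_apply, Matrix.one_apply]
    show aeval x0 (U i (G m)) = _
    rw [hU, ← hu m i, map_sum]
    unfold dd
    refine Finset.sum_congr rfl fun l _ => ?_
    rw [map_mul, aeval_C, mul_comm]
    rfl
  have hdet : aeval x0 M.det = 1 := by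
    have := AlgHom.map_det (aeval x0 : MvPolynomial σ k →ₐ[k] k) M
    rw [this, hMx, Matrix.det_one]
  have hdq : M.det ∉ q := by
    intro h
    have h1 : M.det ∈ m0 := hqm h
    have h2 : aeval x0 M.det = 0 := h1
    rw [hdet] at h2
    exact one_ne_zero h2
  -- the derivations preserving the ideal
  let Dl : σ → Derivation k (MvPolynomial σ k) (MvPolynomial σ k) := fun l =>
    M.det • pderiv l - ∑ i, (∑ m, M.adjugate i m * pderiv l (G m)) • U i
  have hDl : ∀ l p, Dl l p = M.det * pderiv l p -
      ∑ i, (∑ m, M.adjugate i m * pderiv l (G m)) * U i p := by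
    intro l p
    simp only [Dl, Derivation.coe_sub, Pi.sub_apply, Derivation.coe_smul, Pi.smul_apply,
      smul_eq_mul, der_sum_apply]
  have hDG : ∀ l n, Dl l (G n) = 0 := by
    intro l n
    rw [hDl]
    have h1 : ∑ i, (∑ m, M.adjugate i m * pderiv l (G m)) * U i (G n) =
        ∑ m, (M * M.adjugate) n m * pderiv l (G m) := by
      simp only [Matrix.mul_apply, Finset.sum_mul]
      rw [Finset.sum_comm]
      refine Finset.sum_congr rfl fun m _ => Finset.sum_congr rfl fun i _ => ?_
      show _ = U i (G n) * _ * _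
      ring
    rw [h1, Matrix.mul_adjugate]
    simp only [Matrix.smul_apply, Matrix.one_apply, smul_eq_mul, mul_ite, mul_one, mul_zero,
      ite_mul, zero_mul]
    rw [Finset.sum_ite_eq]
    simp
  have hDI : ∀ l, ∀ p ∈ I, Dl l p ∈ I := by
    intro l p hp
    refine Submodule.span_induction ?_ ?_ ?_ ?_ hp
    · rintro _ ⟨n, rfl⟩
      rw [hDG]
      exact I.zero_mem
    · rw [map_zero]; exact I.zero_mem
    · intro a b _ _ ha hb
      rw [map_add]
      exact I.add_mem ha hb
    · intro a b hb hb'
      rw [smul_eq_mul, Derivation.leibniz]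
      exact I.add_mem (I.mul_mem_left _ hb') (I.mul_mem_right _ hb)
  have hDq : ∀ l, ∀ p ∈ q, Dl l p ∈ q := fun l p hp => der_minimal hqI (Dl l) (hDI l) hp
  refine ⟨EEq q, inferInstance, inferInstance, inferInstance, etaq q, ?_, ?_, ?_⟩
  · intro H hH
    have h1 : H ∈ q := (aeval_etaq_eq_zero_iff q H).mp hH
    exact hqm h1
  · intro i
    exact (aeval_etaq_eq_zero_iff q (G i)).mpr (hGq i)
  · intro v hv
    apply exists_der_prime
    intro p hp
    have hd0 : aeval (etaq q) M.det ≠ 0 := by
      intro h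
      exact hdq ((aeval_etaq_eq_zero_iff q _).mp h)
    have h1 : ∀ l, aeval (etaq q) (Dl l p) = 0 := fun l =>
      (aeval_etaq_eq_zero_iff q _).mpr (hDq l p hp)
    have h2 : ∑ l, aeval (etaq q) (Dl l p) * v l = 0 :=
      Finset.sum_eq_zero fun l _ => by rw [h1, zero_mul]
    have h3 : ∑ l, aeval (etaq q) (Dl l p) * v l = aeval (etaq q) M.det * dd p (etaq q) v -
        ∑ i, ∑ m, aeval (etaq q) (M.adjugate i m) * aeval (etaq q) (U i p) *
          dd (G m) (etaq q) v := by
      simp only [hDl, map_sub, map_mul, map_sum, sub_mul, Finset.sum_sub_distrib, dd,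
        Finset.mul_sum, Finset.sum_mul]
      congr 1
      · refine Finset.sum_congr rfl fun l _ => by ring
      · rw [Finset.sum_comm]
        refine Finset.sum_congr rfl fun i _ => ?_
        rw [Finset.sum_comm]
        refine Finset.sum_congr rfl fun m _ => Finset.sum_congr rfl fun l _ => by ring
    rw [h3] at h2
    simp only [hv, mul_zero, Finset.sum_const_zero, sub_zero] at h2
    exact (mul_eq_zero.mp h2).resolve_left hd0

end Gen

end Pool.Agent.Work.PDC
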