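import Mathlib
import Pool.Agent.Work.MP_b62148_ag.CI.LineP

/-!
Lemma A: through the generic point of a smooth complete intersection there is no line contained in
the complete intersection and meeting a linear subspace of the right dimension.
-/

namespace Pool.Agent.Work.PDC

open MvPolynomial

section Lin

variable {K V ι : Type*} [Field K] [AddCommGroup V] [Module K V] [Fintype ι] [DecidableEq ι]

/-- dual vectors of independent functionals -/
theorem exists_dual (f : ι → V →ₗ[K] K)
    (h : ∀ a : ι → K, (∀ v, ∑ i, a i * f i v = 0) → a = 0) :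
    ∃ u : ι → V, ∀ m i, f m (u i) = if m = i then 1 else 0 := by
  have hsur : LinearMap.range (LinearMap.pi f) = ⊤ := by
    by_contra hne
    obtain ⟨g, hg0, hg⟩ := Submodule.exists_le_ker_of_lt_top _ (lt_top_iff_ne_top.mpr hne)
    apply hg0
    have hexp : ∀ x : ι → K, g x = ∑ i, g (Pi.single i 1) * x i := by
      intro x
      conv_lhs => rw [pi_eq_sum_univ' x]
      rw [map_sum]
      refine Finset.sum_congr rfl fun i _ => ?_
      rw [map_smul, smul_eq_mul, mul_comm]
    have ha := h (fun i => g (Pi.single i 1)) (by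
      intro v
      have h1 : LinearMap.pi f v ∈ LinearMap.ker g := hg ⟨v, rfl⟩
      rw [LinearMap.mem_ker, hexp] at h1
      exact h1)
    ext x
    simp only [LinearMap.coe_comp, LinearMap.coe_single, Function.comp_apply,
      LinearMap.zero_comp, LinearMap.zero_apply]
    exact congrFun ha x
  have hmem : ∀ i, ∃ v, LinearMap.pi f v = Pi.single i 1 := by
    intro i
    have : (Pi.single i 1 : ι → K) ∈ LinearMap.range (LinearMap.pi f) := by
      rw [hsur]; trivial
    exact this
  choose u hu using hmem
  refine ⟨u, fun m i => ?_⟩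
  have := congrFun (hu i) m
  rw [LinearMap.pi_apply] at this
  rw [this, Pi.single_apply]

/-- a functional vanishing on the common kernel is a combination -/
theorem eq_sum_of_ker (f : ι → V →ₗ[K] K) (u : ι → V)
    (hu : ∀ m i, f m (u i) = if m = i then 1 else 0) (ψ : V →ₗ[K] K)
    (hψ : ∀ v, (∀ i, f i v = 0) → ψ v = 0) (w : V) : ψ w = ∑ i, ψ (u i) * f i w := by
  have h1 := hψ (w - ∑ i, f i w • u i) (by
    intro m
    rw [map_sub, map_sum]
    simp only [map_smul, hu, smul_eq_mul, mul_ite, mul_one, mul_zero]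
    rw [Finset.sum_ite_eq]
    simp)
  rw [map_sub, map_sum, sub_eq_zero] at h1
  rw [h1]
  refine Finset.sum_congr rfl fun i _ => ?_
  rw [map_smul, smul_eq_mul, mul_comm]

end Lin

section Emb

variable {k : Type*} [Field k] {σ : Type*} {R : Type*} [CommRing R] [Algebra k R] {r : ℕ}

/-- the vector with coordinates `c` in the linear space spanned by `e` -/
def emb (e : Fin r → σ → k) (c : Fin r → R) : σ → R := fun l => ∑ j, c j * algebraMap k R (e j l)

theorem emb_add (e : Fin r → σ → k) (c c' : Fin r → R) : emb e (c + c') = emb e c + emb e c' := by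
  funext l
  simp only [emb, Pi.add_apply, add_mul, Finset.sum_add_distrib]

theorem emb_smul (e : Fin r → σ → k) (s : R) (c : Fin r → R) : emb e (s • c) = s • emb e c := by
  funext l
  simp only [emb, Pi.smul_apply, smul_eq_mul, Finset.mul_sum, mul_assoc]

/-- the embedding as a linear map -/
def embL (e : Fin r → σ → k) : (Fin r → R) →ₗ[R] (σ → R) where
  toFun := emb e
  map_add' := emb_add e
  map_smul' := emb_smul e

theorem embL_apply (e : Fin r → σ → k) (c : Fin r → R) : embL e c = emb e c := rfl

theorem map_emb {S : Type*} [CommRing S] [Algebra k S] (φ : R →ₐ[k] S) (e : Fin r → σ → k)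
    (c : Fin r → R) : (fun l => φ (emb e c l)) = emb e (fun j => φ (c j)) := by
  funext l
  simp only [emb, map_sum, map_mul, AlgHom.commutes]

theorem der_emb (D : Derivation k R R) (e : Fin r → σ → k) (c : Fin r → R) :
    (fun l => D (emb e c l)) = emb e (fun j => D (c j)) := by
  funext l
  simp only [emb, map_sum, Derivation.leibniz, Derivation.map_algebraMap, smul_eq_mul]
  exact Finset.sum_congr rfl fun i _ => by ring

theorem emb_eq_sum (e : Fin r → σ → k) (c : Fin r → R) :
    emb e c = ∑ j, c j • emb e (Pi.single j 1 : Fin r → R) := by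
  have h : c = ∑ j, c j • (Pi.single j 1 : Fin r → R) := by
    funext i
    rw [Finset.sum_apply]
    simp [Pi.single_apply]
  conv_lhs => rw [h]
  rw [← embL_apply, map_sum]
  exact Finset.sum_congr rfl fun i _ => by rw [map_smul]; rfl

end Emb

section Main

variable {k : Type*} [Field k] {σ : Type*} [Fintype σ] {E : Type*} [Field E] [Algebra k E]
variable {ι : Type*} [Fintype ι]

/-- a generic point of a smooth complete intersection -/
structure GPt (G : ι → MvPolynomial σ k) (η : σ → E) : Prop where
  ne : η ≠ 0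
  mem : ∀ i, aeval η (G i) = 0
  der : ∀ v : σ → E, (∀ i, dd (G i) η v = 0) → ∃ D : Derivation k E E, ∀ l, D (η l) = v l
  smooth : ∀ x : σ → E, x ≠ 0 → (∀ i, aeval x (G i) = 0) → ∀ a : ι → E,
    (∀ v, ∑ i, a i * dd (G i) x v = 0) → a = 0

omit [Fintype ι] in
theorem derivative_line (G : MvPolynomial σ k) (x y : σ → E) :
    Polynomial.derivative (aeval (line x y) G) = pl G x y y := by
  have h := der_aeval ((Polynomial.derivative' : Derivation E (Polynomial E)
    (Polynomial E)).restrictScalars k) (line x y) G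
  have h1 : (fun i => ((Polynomial.derivative' : Derivation E (Polynomial E)
      (Polynomial E)).restrictScalars k) (line x y i)) = fun i => Polynomial.C (y i) := by
    funext i
    show Polynomial.derivative (line x y i) = _
    simp [line]
  rw [h1] at h
  exact h

omit [Fintype ι] in
theorem pl_self {n : ℕ} {G : MvPolynomial σ k} (hG : G.IsHomogeneous n) (x y : σ → E)
    (h : aeval (line x y) G = 0) : pl G x y x = 0 := by
  have h1 := derivative_line G x y
  rw [h, Polynomial.derivative_zero] at h1
  have h2 := dd_self_gen hG (line x y)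
  rw [h, mul_zero] at h2
  have h3 : line x y = (fun i => Polynomial.C (x i) : σ → Polynomial E) +
      (Polynomial.X : Polynomial E) • (fun i => Polynomial.C (y i) : σ → Polynomial E) := rfl
  have h4 : dd G (line x y) ((fun i => Polynomial.C (x i) : σ → Polynomial E) +
      (Polynomial.X : Polynomial E) • (fun i => Polynomial.C (y i) : σ → Polynomial E)) = 0 := h2
  rw [dd_add_right, dd_smul_right] at h4
  have h5 : pl G x y x + Polynomial.X * pl G x y y = 0 := h4
  rw [← h1, mul_zero, add_zero] at h5
  exact h5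

theorem lemmaA [DecidableEq ι] [IsAlgClosed E] {r : ℕ} (n : ι → ℕ) (G : ι → MvPolynomial σ k)
    (hG : ∀ i, (G i).IsHomogeneous (n i + 2)) (hr : ∑ i, (n i + 1) = r) (e : Fin r → σ → k)
    (hiso : ∀ (i : ι) (c c' : Fin r → E), dd (G i) (emb e c) (emb e c') = 0)
    {η : σ → E} (hg : GPt G η) (hout : ∀ (c : Fin r → E) (s : E), c ≠ 0 → emb e c + s • η ≠ 0)
    (c : Fin r → E) (hc : c ≠ 0) (hline : ∀ i, aeval (line (emb e c) η) (G i) = 0) : False := by
  classical
  set lam : σ → E := emb e c with hlam
  -- dual vectors at the generic point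
  obtain ⟨u, hu⟩ := exists_dual (fun i => ddL (G i) η) (hg.smooth η hg.ne hg.mem)
  -- functionals
  let f : (Σ i : ι, Fin (n i + 1)) → (σ → E) →ₗ[E] E := fun j => plc (G j.1) lam η (j.2.1 + 1)
  let f' : (Σ i : ι, Fin (n i + 1)) → (σ → E) →ₗ[E] E := fun j => plc (G j.1) lam η j.2.1
  let ψ : ((Σ i : ι, Fin (n i + 1)) → E) →ₗ[E] (σ → E) →ₗ[E] E :=
    Fintype.linearCombination E f'
  have hψ : ∀ α w, ψ α w = ∑ j, α j * f' j w := by
    intro α w
    simp only [ψ, Fintype.linearCombination_apply, LinearMap.sum_apply, LinearMap.smul_apply,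
      smul_eq_mul]
  have hlast : ∀ i w, f ⟨i, Fin.last _⟩ w = dd (G i) η w := fun i w => plc_top (hG i) lam η w
  -- the relation space
  let RR : Submodule E ((Σ i : ι, Fin (n i + 1)) → E) :=
    { carrier := {α | ∀ c' : Fin r → E, ∑ j, α j * f j (emb e c') = 0}
      add_mem' := by
        intro a b ha hb c'
        simp only [Pi.add_apply, add_mul, Finset.sum_add_distrib]
        rw [ha c', hb c', add_zero]
      zero_mem' := by intro c'; simp
      smul_mem' := by
        intro s a ha c'
        simp only [Pi.smul_apply, smul_eq_mul, mul_assoc, ← Finset.mul_sum]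
        rw [ha c', mul_zero] }
  have hRR : ∀ α, α ∈ RR ↔ ∀ c' : Fin r → E, ∑ j, α j * f j (emb e c') = 0 := fun α => Iff.rfl
  -- the relation space is not zero
  have hflam : ∀ j, f j lam = 0 := by
    intro j
    show (pl (G j.1) lam η lam).coeff _ = 0
    rw [pl_self (hG j.1) lam η (hline j.1), Polynomial.coeff_zero]
  have hne : ∃ α ∈ RR, α ≠ 0 := by
    by_contra hcon
    push Not at hcon
    obtain ⟨u', hu'⟩ := exists_dual (fun j => (f j).comp (embL e)) (fun a ha => hcon a ha)
    have hsur : Function.Surjective (LinearMap.pi fun j => (f j).comp (embL (R := E) e)) := by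
      intro x
      refine ⟨∑ j, x j • u' j, ?_⟩
      rw [map_sum]
      funext m
      rw [Finset.sum_apply]
      simp only [map_smul, Pi.smul_apply, LinearMap.pi_apply, smul_eq_mul]
      have : ∀ j, x j * ((f m).comp (embL e)) (u' j) = if m = j then x j else 0 := by
        intro j
        rw [hu' m j, mul_ite, mul_one, mul_zero]
      simp only [this]
      rw [Finset.sum_ite_eq]
      simp
    have hcardJ : Module.finrank E (Fin r → E) =
        Module.finrank E ((Σ i : ι, Fin (n i + 1)) → E) := by
      rw [Module.finrank_fintype_fun_eq_card, Module.finrank_fintype_fun_eq_card, Fintype.card_fin,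
        Fintype.card_sigma]
      simp only [Fintype.card_fin]
      exact hr.symm
    have hinj := (LinearMap.injective_iff_surjective_of_finrank_eq_finrank hcardJ).mpr hsur
    apply hc
    apply hinj
    rw [map_zero]
    funext j
    exact hflam j
  -- tangent vectors
  have htan : ∀ α ∈ RR, ∀ v, (∀ i, ddL (G i) η v = 0) → ψ α v = 0 := by
    intro α hα v hv
    obtain ⟨D, hD⟩ := hg.der v hv
    have h1 : ∀ j, f j (emb e (fun m => D (c m))) + f' j v = 0 := by
      intro j
      have h2 := der_coeff D (G j.1) lam η j.2.1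
      rw [hline, Polynomial.coeff_zero, map_zero, hlam, der_emb] at h2
      have h3 : (fun i => D (η i)) = v := funext hD
      rw [h3] at h2
      exact h2.symm
    rw [hψ]
    have h2 := (hRR α).mp hα (fun m => D (c m))
    have h3 : ∑ j, α j * (f j (emb e (fun m => D (c m))) + f' j v) = 0 :=
      Finset.sum_eq_zero fun j _ => by rw [h1, mul_zero]
    simp only [mul_add, Finset.sum_add_distrib] at h3
    rw [h2, zero_add] at h3
    exact h3
  have hspan : ∀ α ∈ RR, ∀ w, ψ α w = ∑ i, ψ α (u i) * dd (G i) η w := by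
    intro α hα w
    exact eq_sum_of_ker (fun i => ddL (G i) η) u hu (ψ α) (htan α hα) w
  -- the endomorphism
  let S : ((Σ i : ι, Fin (n i + 1)) → E) →ₗ[E] ((Σ i : ι, Fin (n i + 1)) → E) :=
    { toFun := fun α j => Fin.lastCases (motive := fun _ => E) (- ψ α (u j.1))
        (fun t => α ⟨j.1, t.succ⟩) j.2
      map_add' := by
        intro a b
        funext ⟨i, t⟩
        refine Fin.lastCases ?_ (fun t => ?_) t
        · simp only [Pi.add_apply, Fin.lastCases_last, map_add, LinearMap.add_apply]; ring
        · simp only [Pi.add_apply, Fin.lastCases_castSucc]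
      map_smul' := by
        intro s a
        funext ⟨i, t⟩
        refine Fin.lastCases ?_ (fun t => ?_) t
        · simp only [Pi.smul_apply, Fin.lastCases_last, map_smul, LinearMap.smul_apply,
            RingHom.id_apply, smul_eq_mul]; ring
        · simp only [Pi.smul_apply, Fin.lastCases_castSucc, RingHom.id_apply] }
  have hS1 : ∀ α i, S α ⟨i, Fin.last _⟩ = - ψ α (u i) := by
    intro α i
    show Fin.lastCases (motive := fun _ => E) _ _ (Fin.last _) = _
    rw [Fin.lastCases_last]
  have hS2 : ∀ α i (t : Fin (n i)), S α ⟨i, t.castSucc⟩ = α ⟨i, t.succ⟩ := by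
    intro α i t
    show Fin.lastCases (motive := fun _ => E) _ _ t.castSucc = _
    rw [Fin.lastCases_castSucc]
  have hSR : ∀ α ∈ RR, S α ∈ RR := by
    intro α hα
    rw [hRR]
    intro c'
    have h1 := hspan α hα (emb e c')
    rw [hψ] at h1
    rw [Fintype.sum_sigma] at h1 ⊢
    have h2 : ∀ i, ∑ t, α ⟨i, t⟩ * f' ⟨i, t⟩ (emb e c') =
        ∑ t : Fin (n i), α ⟨i, t.succ⟩ * f ⟨i, t.castSucc⟩ (emb e c') := by
      intro i
      rw [Fin.sum_univ_succ]
      have h3 : f' ⟨i, 0⟩ (emb e c') = 0 := by
        show plc (G i) lam η 0 (emb e c') = 0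
        rw [plc_zero, hlam, hiso]
      rw [h3, mul_zero, zero_add]
      rfl
    have h3 : ∀ i, ∑ t, S α ⟨i, t⟩ * f ⟨i, t⟩ (emb e c') =
        ∑ t : Fin (n i), α ⟨i, t.succ⟩ * f ⟨i, t.castSucc⟩ (emb e c') -
          ψ α (u i) * dd (G i) η (emb e c') := by
      intro i
      rw [Fin.sum_univ_castSucc, hS1, hlast]
      simp only [hS2]
      ring
    simp only [h2] at h1
    simp only [h3, Finset.sum_sub_distrib]
    rw [h1, sub_self]
  -- the eigenvector
  have : Nontrivial RR := by
    obtain ⟨α, hα, hα0⟩ := hne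
    exact ⟨⟨α, hα⟩, 0, fun h => hα0 (congrArg Subtype.val h)⟩
  obtain ⟨s, hs⟩ := Module.End.exists_eigenvalue (S.restrict hSR)
  obtain ⟨β, hβ⟩ := hs.exists_hasEigenvector
  have hβ0 : (β : (Σ i : ι, Fin (n i + 1)) → E) ≠ 0 := fun h => hβ.2 (Subtype.ext h)
  have hβs : S β = s • (β : (Σ i : ι, Fin (n i + 1)) → E) :=
    congrArg Subtype.val hβ.apply_eq_smul
  obtain ⟨α, hα⟩ := β
  simp only at hβ0 hβs
  clear hβ
  have hpow : ∀ i (t : Fin (n i + 1)), α ⟨i, t⟩ = s ^ t.1 * α ⟨i, 0⟩ := by
    intro i t
    refine Fin.induction ?_ (fun t ht => ?_) t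
    · simp
    · have h1 := congrFun hβs ⟨i, t.castSucc⟩
      rw [hS2, Pi.smul_apply, smul_eq_mul, ht] at h1
      rw [h1]
      simp only [Fin.val_castSucc, Fin.val_succ]
      ring
  have hx0 : lam + s • η ≠ 0 := hout c s hc
  have hxm : ∀ i, aeval (lam + s • η) (G i) = 0 := by
    intro i
    have h1 := eval_line lam η (G i) s
    rw [hline, Polynomial.eval_zero] at h1
    exact h1.symm
  have hfin := hg.smooth (lam + s • η) hx0 hxm (fun i => α ⟨i, 0⟩) (by
    intro v
    have h1 := hspan α hα v
    rw [hψ, Fintype.sum_sigma] at h1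
    have h2 : ∀ i, α ⟨i, 0⟩ * dd (G i) (lam + s • η) v =
        ∑ t, α ⟨i, t⟩ * f' ⟨i, t⟩ v - ψ α (u i) * dd (G i) η v := by
      intro i
      have h3 := eval_pl (hG i) lam η v s
      have h4 : (fun l => lam l + s * η l) = lam + s • η := rfl
      rw [h4, Finset.sum_range_succ, plc_top (hG i)] at h3
      rw [h3, Finset.sum_range, mul_add, Finset.mul_sum]
      have h5 := congrFun hβs ⟨i, Fin.last _⟩
      rw [hS1, Pi.smul_apply, smul_eq_mul, hpow i (Fin.last _)] at h5
      rw [sub_eq_add_neg, ← neg_mul, h5]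
      congr 1
      · refine Finset.sum_congr rfl fun t _ => ?_
        rw [hpow i t]
        simp only [f']
        ring
      · simp only [Fin.val_last]
        ring
    simp only [h2, Finset.sum_sub_distrib]
    rw [h1, sub_self])
  apply hβ0
  funext ⟨i, t⟩
  rw [hpow i t]
  have h0 : α ⟨i, 0⟩ = 0 := congrFun hfin i
  rw [h0, mul_zero]
  rfl

end Main

end Pool.Agent.Work.PDC
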