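import Mathlib
import Pool.Agent.Work.MP_b62148_ag.Quintic.SpecialQ
import Pool.Agent.Work.MP_b62148_ag.CI.LemmaA
import Pool.Agent.Work.MP_b62148_ag.CI.GenPt

/-!
Smooth complete intersections: generic points, linear subspaces.
-/

namespace Pool.Agent.Work.PDC

open MvPolynomial

universe u w

/-- the gradients are independent at all nonzero geometric points -/
def SmoothCI {K : Type*} [Field K] {σ ι : Type*} [Fintype ι] (G : ι → MvPolynomial σ K) : Prop :=
  ∀ x : σ → AlgebraicClosure K, x ≠ 0 → (∀ i, aeval x (G i) = 0) →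
    ∀ a : ι → AlgebraicClosure K, (∀ l, ∑ i, a i * aeval x (pderiv l (G i)) = 0) → a = 0

section Ext

variable {K : Type*} [Field K] {σ ι : Type*} [Fintype σ] [Fintype ι] {E : Type*} [Field E]
  [Algebra K E]

theorem grad_of_dd {R : Type*} [CommRing R] [Algebra K R] (G : ι → MvPolynomial σ K) (x : σ → R)
    (a : ι → R) (h : ∀ v, ∑ i, a i * dd (G i) x v = 0) (l : σ) :
    ∑ i, a i * aeval x (pderiv l (G i)) = 0 := by
  classical
  rw [← h (Pi.single l 1)]
  refine Finset.sum_congr rfl fun i _ => ?_
  congr 1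
  unfold dd
  rw [Finset.sum_eq_single l]
  · simp
  · intro j _ hj
    rw [Pi.single_eq_of_ne hj, mul_zero]
  · simp

theorem dd_of_grad {R : Type*} [CommRing R] [Algebra K R] (G : ι → MvPolynomial σ K) (x : σ → R)
    (a : ι → R) (h : ∀ l, ∑ i, a i * aeval x (pderiv l (G i)) = 0) (v : σ → R) :
    ∑ i, a i * dd (G i) x v = 0 := by
  unfold dd
  simp only [Finset.mul_sum]
  rw [Finset.sum_comm]
  refine Finset.sum_eq_zero fun l _ => ?_
  have : ∑ i, a i * (aeval x (pderiv l (G i)) * v l) = (∑ i, a i * aeval x (pderiv l (G i))) * v l := by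
    rw [Finset.sum_mul]
    exact Finset.sum_congr rfl fun i _ => by ring
  rw [this, h, zero_mul]

/-- smoothness over any extension field -/
theorem smooth_ext (G : ι → MvPolynomial σ K) (hs : SmoothCI G) (x : σ → E) (hx0 : x ≠ 0)
    (hx : ∀ i, aeval x (G i) = 0) (a : ι → E) (ha : ∀ v, ∑ i, a i * dd (G i) x v = 0) : a = 0 := by
  classical
  by_contra hne
  obtain ⟨i0, hi0⟩ := Function.ne_iff.mp hne
  obtain ⟨l0, hl0⟩ := Function.ne_iff.mp hx0
  have hgr := grad_of_dd G x a ha
  let s : Set E := Set.range (Sum.elim x a)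
  have hsx : ∀ l, x l ∈ s := fun l => ⟨Sum.inl l, rfl⟩
  have hsa : ∀ i, a i ∈ s := fun i => ⟨Sum.inr i, rfl⟩
  obtain ⟨A, g, hsA, hwA, hg⟩ := PD5.exists_special (k := K) s (Set.finite_range _) (x l0 * a i0)
    (mul_ne_zero hl0 hi0) (mul_mem (Algebra.subset_adjoin (hsx l0))
      (Algebra.subset_adjoin (hsa i0)))
  let xA : σ → A := fun l => ⟨x l, hsA (hsx l)⟩
  let aA : ι → A := fun i => ⟨a i, hsA (hsa i)⟩
  have hval : ∀ p : MvPolynomial σ K, ((aeval xA p : A) : E) = aeval x p := fun p =>
    map_aeval' A.val p xA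
  have hgx : ∀ p : MvPolynomial σ K, g (aeval xA p) = aeval (fun l => g (xA l)) p := fun p =>
    map_aeval' g p xA
  have hwe : (⟨x l0 * a i0, hwA⟩ : A) = xA l0 * aA i0 := rfl
  rw [hwe, map_mul] at hg
  have h1 := hs (fun l => g (xA l)) (by
    intro h
    apply hg
    have := congrFun h l0
    simp only [Pi.zero_apply] at this
    rw [this, zero_mul]) (by
    intro i
    rw [← hgx]
    have : aeval xA (G i) = 0 := Subtype.ext (by rw [hval, hx]; rfl)
    rw [this, map_zero]) (fun i => g (aA i)) (by
    intro l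
    have h2 : ∑ i, aA i * aeval xA (pderiv l (G i)) = 0 := by
      apply Subtype.ext
      have h3 := hgr l
      rw [ZeroMemClass.coe_zero, ← h3]
      push_cast
      refine Finset.sum_congr rfl fun i _ => ?_
      rw [hval]
    have h3 := congrArg g h2
    rw [map_sum, map_zero] at h3
    rw [← h3]
    refine Finset.sum_congr rfl fun i _ => ?_
    rw [map_mul, hgx])
  apply hg
  have := congrFun h1 i0
  simp only [Pi.zero_apply] at this
  rw [this, mul_zero]

end Ext

section Gpt

variable {K : Type u} [Field K] [CharZero K] {σ : Type w} [Fintype σ] {ι : Type*} [Fintype ι]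
  [DecidableEq ι]

theorem exists_gpt (G : ι → MvPolynomial σ K) (hs : SmoothCI G) (x0 : σ → AlgebraicClosure K)
    (h0 : x0 ≠ 0) (hx : ∀ i, aeval x0 (G i) = 0) :
    ∃ (E : Type (max u w)) (_ : Field E) (_ : Algebra K E) (_ : IsAlgClosed E) (η : σ → E),
      GPt G η ∧ ∀ H : MvPolynomial σ K, aeval η H = 0 → aeval x0 H = 0 := by
  classical
  have : CharZero (AlgebraicClosure K) :=
    charZero_of_injective_algebraMap (algebraMap K (AlgebraicClosure K)).injective
  let G' : ι → MvPolynomial σ (AlgebraicClosure K) :=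
    fun i => map (algebraMap K (AlgebraicClosure K)) (G i)
  have haev : ∀ (H : MvPolynomial σ K) {R : Type (max u w)} [CommRing R]
      [Algebra (AlgebraicClosure K) R] [Algebra K R] [IsScalarTower K (AlgebraicClosure K) R]
      (x : σ → R), aeval x (map (algebraMap K (AlgebraicClosure K)) H) = aeval x H := by
    intro H R _ _ _ _ x
    rw [aeval_map_algebraMap]
  obtain ⟨u, hu⟩ := exists_dual (fun i => ddL (G' i) x0) (by
    intro a ha
    refine hs x0 h0 hx a ?_
    intro l
    have h1 := grad_of_dd G' x0 a ha l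
    rw [← h1]
    refine Finset.sum_congr rfl fun i _ => ?_
    simp only [G']
    rw [pderiv_map, aeval_map_algebraMap])
  obtain ⟨E, i1, i2, i3, η, hη1, hη2, hη3⟩ := exists_gen G' x0 (fun i => by
    simp only [G']
    rw [aeval_map_algebraMap]
    exact hx i) u hu
  let i4 : Algebra K E :=
    ((algebraMap (AlgebraicClosure K) E).comp (algebraMap K (AlgebraicClosure K))).toAlgebra
  have i5 : IsScalarTower K (AlgebraicClosure K) E := IsScalarTower.of_algebraMap_eq' rfl
  have hdd : ∀ (i : ι) (x v : σ → E), dd (G' i) x v = dd (G i) x v := by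
    intro i x v
    unfold dd
    refine Finset.sum_congr rfl fun l _ => ?_
    simp only [G']
    rw [pderiv_map, aeval_map_algebraMap]
  have hmem : ∀ i, aeval η (G i) = 0 := by
    intro i
    have := hη2 i
    simp only [G'] at this
    rw [aeval_map_algebraMap] at this
    exact this
  have hspec : ∀ H : MvPolynomial σ K, aeval η H = 0 → aeval x0 H = 0 := by
    intro H hH
    have h1 := hη1 (map (algebraMap K (AlgebraicClosure K)) H) (by
      rw [aeval_map_algebraMap]; exact hH)
    rw [aeval_map_algebraMap] at h1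
    exact h1
  have hne : η ≠ 0 := by
    intro h
    apply h0
    funext l
    have := hspec (X l) (by rw [aeval_X, h]; rfl)
    rw [aeval_X] at this
    exact this
  refine ⟨E, i1, i4, i3, η, ⟨hne, hmem, ?_, ?_⟩, hspec⟩
  · intro v hv
    obtain ⟨D, hD⟩ := hη3 v (fun i => by rw [hdd]; exact hv i)
    exact ⟨D.restrictScalars K, hD⟩
  · intro x hx0 hxm a ha
    exact smooth_ext G hs x hx0 hxm a ha

end Gpt

section Iso

variable {K : Type*} [Field K] {σ : Type*} [Fintype σ] {r : ℕ}

/-- the polynomial vanishes on the span of the vectors -/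
def IsoK (G : MvPolynomial σ K) (e : Fin r → σ → K) : Prop :=
  ∀ c : Fin r → K, aeval (emb e c) G = 0

omit [Fintype σ] in
theorem IsoK.all [Infinite K] {G : MvPolynomial σ K} {e : Fin r → σ → K} (h : IsoK G e)
    {R : Type*} [CommRing R] [Algebra K R] (c : Fin r → R) : aeval (emb e c) G = 0 := by
  have h1 : aeval (emb e (X : Fin r → MvPolynomial (Fin r) K)) G = 0 := by
    apply MvPolynomial.funext
    intro c
    rw [map_zero]
    have h2 := map_aeval' (aeval c : MvPolynomial (Fin r) K →ₐ[K] K) G
      (emb e (X : Fin r → MvPolynomial (Fin r) K))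
    rw [map_emb] at h2
    rw [MvPolynomial.aeval_eq_eval] at h2
    have h3 : (eval c) (aeval (emb e (X : Fin r → MvPolynomial (Fin r) K)) G) =
        aeval (emb e fun j => (aeval c : MvPolynomial (Fin r) K →ₐ[K] K) (X j)) G := h2
    rw [h3]
    simp only [aeval_X]
    exact h c
  have h2 := map_aeval' (aeval c : MvPolynomial (Fin r) K →ₐ[K] R) G
    (emb e (X : Fin r → MvPolynomial (Fin r) K))
  rw [map_emb, h1, map_zero] at h2
  simp only [aeval_X] at h2
  exact h2.symm

omit [Fintype σ] in
theorem line_emb {R : Type*} [CommRing R] [Algebra K R] (e : Fin r → σ → K) (c c' : Fin r → R) :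
    line (emb e c) (emb e c') = emb e (line c c') := by
  funext l
  simp only [line, emb, map_sum, map_mul, Finset.mul_sum, ← Finset.sum_add_distrib]
  refine Finset.sum_congr rfl fun j _ => ?_
  have : (algebraMap K (Polynomial R)) (e j l) = Polynomial.C (algebraMap K R (e j l)) := rfl
  rw [this]
  ring

omit [Fintype σ] in
theorem C_emb {R : Type*} [CommRing R] [Algebra K R] (e : Fin r → σ → K) (c : Fin r → R) :
    (fun l => Polynomial.C (emb e c l)) = emb e (fun j => Polynomial.C (c j)) := by
  funext l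
  simp only [emb, map_sum, map_mul]
  rfl

theorem IsoK.dd [Infinite K] {G : MvPolynomial σ K} {e : Fin r → σ → K} (h : IsoK G e)
    {R : Type*} [CommRing R] [Algebra K R] (c c' : Fin r → R) :
    dd G (emb e c) (emb e c') = 0 := by
  rw [← coeff_one_line, line_emb, h.all, Polynomial.coeff_zero]

theorem IsoK.hh [Infinite K] {G : MvPolynomial σ K} {e : Fin r → σ → K} (h : IsoK G e)
    {R : Type*} [CommRing R] [Algebra K R] (c c₁ c₂ : Fin r → R) :
    hh G (emb e c) (emb e c₁) (emb e c₂) = 0 := by
  rw [← plc_one, plc_apply, pl, line_emb, C_emb, h.dd, Polynomial.coeff_zero]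

theorem emb_inj {e : Fin r → σ → K} (he : LinearIndependent K e) {E : Type*} [Field E]
    [Algebra K E] (c : Fin r → E) (h : emb e c = 0) : c = 0 := by
  have h1 : LinearIndependent E (fun j => algebraMap K E ∘ e j) :=
    linearIndependent_algebraMap_comp_iff.mpr he
  rw [Fintype.linearIndependent_iff] at h1
  funext j
  refine h1 c ?_ j
  rw [← h]
  funext l
  rw [Finset.sum_apply]
  rfl

end Iso

section Out

variable {K : Type*} [Field K] {σ : Type*} [Fintype σ] {ι : Type*} [Fintype ι] {r : ℕ}
  {E : Type*} [Field E] [Algebra K E]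

/-- the generic point is outside the linear space -/
theorem GPt.out {G : ι → MvPolynomial σ K} {η : σ → E} (hg : GPt G η) {e : Fin r → σ → K}
    (he : LinearIndependent K e) (hcard : r + Fintype.card ι < Fintype.card σ) (c : Fin r → E)
    (s : E) (hc : c ≠ 0) : emb e c + s • η ≠ 0 := by
  intro h
  have hη : ∀ c₁ : Fin r → E, η ≠ emb e c₁ := by
    intro c₁ h1
    let Φ : (σ → E) →ₗ[E] (ι → E) := LinearMap.pi fun i => ddL (G i) η
    have hker : LinearMap.ker Φ ≤ LinearMap.range (embL (R := E) e) := by
      intro v hv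
      obtain ⟨D, hD⟩ := hg.der v (fun i => congrFun (LinearMap.mem_ker.mp hv) i)
      refine ⟨fun j => D (c₁ j), ?_⟩
      rw [embL_apply, ← der_emb, ← h1]
      exact funext hD
    have h2 := LinearMap.finrank_range_add_finrank_ker Φ
    have h3 : Module.finrank E (LinearMap.range Φ) ≤ Fintype.card ι := by
      refine (Submodule.finrank_le _).trans ?_
      rw [Module.finrank_fintype_fun_eq_card]
    have h4 : Module.finrank E (LinearMap.ker Φ) ≤ r := by
      refine (Submodule.finrank_mono hker).trans ?_
      refine (LinearMap.finrank_range_le _).trans ?_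
      rw [Module.finrank_fintype_fun_eq_card, Fintype.card_fin]
    rw [Module.finrank_fintype_fun_eq_card] at h2
    omega
  by_cases hs : s = 0
  · rw [hs, zero_smul, add_zero] at h
    exact hc (emb_inj he c h)
  · apply hη (-s⁻¹ • c)
    rw [emb_smul, neg_smul]
    have h1 : s • η = - emb e c := eq_neg_of_add_eq_zero_right h
    have h2 : η = s⁻¹ • (s • η) := by rw [smul_smul, inv_mul_cancel₀ hs, one_smul]
    rw [h2, h1, smul_neg]

end Out

end Pool.Agent.Work.PDC
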