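import Mathlib
import Pool.Agent.Work.MP_b62148_ag.HS
import Pool.Agent.Work.MP_b62148_ag.CI.Setup

/-!
The configuration at the generic point of a smooth complete intersection of quadrics and one form of
degree two, three or four.
-/

namespace Pool.Agent.Work.PDC

open MvPolynomial

section Aux

variable {K : Type*} [Field K] {σ : Type*} [Fintype σ] {R : Type*} [CommRing R] [Algebra K R]

/-- the allowed pairs of switches: degree two, three, four -/
def Sw (p q : ℕ) : Prop := (p = 0 ∧ q = 0) ∨ (p = 1 ∧ q = 0) ∨ (p = 1 ∧ q = 1)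

theorem line_eq (x y : σ → R) : line x y = (1 : Polynomial R) • (fun l => Polynomial.C (x l)) +
    (Polynomial.X : Polynomial R) • (fun l => Polynomial.C (y l)) := by
  funext l
  simp [line]

/-- the constants embedding -/
noncomputable def CC : R →ₐ[K] Polynomial R := (Polynomial.CAlgHom (R := R) (A := R)).restrictScalars K

theorem CC_apply (x : R) : (CC (K := K) x : Polynomial R) = Polynomial.C x := rfl

theorem C_aeval (G : MvPolynomial σ K) (x : σ → R) :
    aeval (fun l => Polynomial.C (x l)) G = Polynomial.C (aeval x G) :=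
  (map_aeval' (CC (K := K)) G x).symm

theorem C_dd (G : MvPolynomial σ K) (x v : σ → R) :
    dd G (fun l => Polynomial.C (x l)) (fun l => Polynomial.C (v l)) = Polynomial.C (dd G x v) :=
  (map_dd (CC (K := K)) G x v).symm

theorem C_hh (G : MvPolynomial σ K) (x u v : σ → R) :
    hh G (fun l => Polynomial.C (x l)) (fun l => Polynomial.C (u l)) (fun l => Polynomial.C (v l)) =
      Polynomial.C (hh G x u v) :=
  (map_hh (CC (K := K)) G x u v).symm

theorem hom_at_zero {n : ℕ} (hn : n ≠ 0) {G : MvPolynomial σ K} (hG : G.IsHomogeneous n) :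
    aeval (0 : σ → R) G = 0 := by
  have := aeval_smul_gen hG (0 : σ → R) 0
  rw [smul_zero, zero_pow hn, zero_mul] at this
  exact this

theorem dd_at_zero {n : ℕ} {G : MvPolynomial σ K} (hG : G.IsHomogeneous (n + 2)) (v : σ → R) :
    dd G 0 v = 0 := by
  unfold dd
  refine Finset.sum_eq_zero fun i _ => ?_
  have h1 : (pderiv i G).IsHomogeneous (n + 1) := by simpa using hG.pderiv (i := i)
  rw [hom_at_zero (Nat.succ_ne_zero n) h1, zero_mul]

theorem hh_at_zero {n : ℕ} {G : MvPolynomial σ K} (hG : G.IsHomogeneous (n + 3)) (u v : σ → R) :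
    hh G 0 u v = 0 := by
  unfold hh
  refine Finset.sum_eq_zero fun i _ => ?_
  have h1 : (pderiv i G).IsHomogeneous (n + 2) := by simpa using hG.pderiv (i := i)
  rw [dd_at_zero h1, zero_mul]

/-- vanishing on a line for the form of degree two, three or four -/
theorem line_zero {E : Type*} [Field E] [CharZero E] [Algebra K E] {p q : ℕ} (hpq : Sw p q)
    {F : MvPolynomial σ K} (hF : F.IsHomogeneous (p + q + 2)) (x y : σ → E) (h0 : aeval x F = 0)
    (h1 : ∀ _ : Fin p, dd F x y = 0) (h2 : ∀ _ : Fin q, hh F x y y = 0) (h3 : dd F y x = 0)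
    (h4 : aeval y F = 0) : aeval (line x y) F = 0 := by
  rw [line_eq]
  rcases hpq with ⟨rfl, rfl⟩ | ⟨rfl, rfl⟩ | ⟨rfl, rfl⟩
  · rw [tay2 hF, C_aeval, C_aeval, C_dd, dd2_comm hF, h0, h3, h4]
    simp
  · rw [tay3 hF, C_aeval, C_aeval, C_dd, C_dd, h0, h1 0, h3, h4]
    simp
  · have h := tay4 hF (fun l => Polynomial.C (x l)) (fun l => Polynomial.C (y l)) 1 Polynomial.X
    rw [C_aeval, C_aeval, C_dd, C_dd, C_hh, h0, h1 0, h2 0, h3, h4] at h
    simp only [Polynomial.C_0, mul_zero, add_zero] at h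
    exact (mul_eq_zero.mp h).resolve_left two_ne_zero

theorem exists_zero_fin {E : Type*} [Field E] [IsAlgClosed E] {ι : Type*} [Fintype ι] {r : ℕ}
    (hc : Fintype.card ι < r) (P : ι → MvPolynomial (Fin r) E) (h0 : ∀ i, eval 0 (P i) = 0) :
    ∃ c : Fin r → E, c ≠ 0 ∧ ∀ i, eval c (P i) = 0 := by
  obtain ⟨c, hc0, hc1⟩ := PD.exists_common_zero hc (fun i => P ((Fintype.equivFin ι).symm i))
    (fun i => h0 _)
  refine ⟨c, hc0, fun i => ?_⟩
  have := hc1 (Fintype.equivFin ι i)
  rwa [Equiv.symm_apply_apply] at this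

end Aux

section Pol

variable {K : Type*} [Field K] {σ : Type*} [Fintype σ] {E : Type*} [Field E] [Algebra K E] {r : ℕ}

/-- constants in the polynomial ring in the coordinates of the linear space -/
noncomputable def ct (r : ℕ) (y : σ → E) : σ → MvPolynomial (Fin r) E := fun l => C (y l)

/-- the universal vector of the linear space -/
noncomputable def uv (e : Fin r → σ → K) : σ → MvPolynomial (Fin r) E :=
  emb e (X : Fin r → MvPolynomial (Fin r) E)

/-- evaluation as a map of `K`-algebras -/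
noncomputable def ev (c : Fin r → E) : MvPolynomial (Fin r) E →ₐ[K] E :=
  (aeval c : MvPolynomial (Fin r) E →ₐ[E] E).restrictScalars K

theorem ev_apply (c : Fin r → E) (p : MvPolynomial (Fin r) E) :
    ev (K := K) c p = eval c p := by
  show aeval c p = eval c p
  rw [aeval_eq_eval]

theorem ev_ct (c : Fin r → E) (y : σ → E) : (fun l => ev (K := K) c (ct r y l)) = y := by
  funext l
  rw [ev_apply]
  simp [ct]

theorem ev_uv (e : Fin r → σ → K) (c : Fin r → E) :
    (fun l => ev (K := K) c (uv e l)) = emb e c := by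
  unfold uv
  rw [map_emb]
  congr 1
  funext j
  rw [ev_apply]
  simp

theorem eval_dd_uv_ct (G : MvPolynomial σ K) (e : Fin r → σ → K) (y : σ → E) (c : Fin r → E) :
    eval c (dd G (uv e) (ct r y)) = dd G (emb e c) y := by
  rw [← ev_apply (K := K), map_dd, ev_ct, ev_uv]

theorem eval_dd_ct_uv (G : MvPolynomial σ K) (e : Fin r → σ → K) (y : σ → E) (c : Fin r → E) :
    eval c (dd G (ct r y) (uv e)) = dd G y (emb e c) := by
  rw [← ev_apply (K := K), map_dd, ev_ct, ev_uv]

theorem eval_hh_uv_ct (G : MvPolynomial σ K) (e : Fin r → σ → K) (y : σ → E) (c : Fin r → E) :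
    eval c (hh G (uv e) (ct r y) (ct r y)) = hh G (emb e c) y y := by
  rw [← ev_apply (K := K), map_hh, ev_ct, ev_uv]

theorem emb_zero (e : Fin r → σ → K) : emb e (0 : Fin r → E) = 0 := by
  rw [← embL_apply, map_zero]

end Pol

section Main

variable {K : Type*} [Field K] [CharZero K] {σ : Type*} [Fintype σ] {E : Type*} [Field E]
  [IsAlgClosed E] [Algebra K E] {a p q r : ℕ}

/-- all the hypotheses at the generic point -/
structure Hyp (a p q r : ℕ) (G : Fin (a + 1) → MvPolynomial σ K) (e : Fin r → σ → K)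
    (η : σ → E) : Prop where
  sw : Sw p q
  hF : (G 0).IsHomogeneous (p + q + 2)
  hQ : ∀ i : Fin a, (G i.succ).IsHomogeneous 2
  hr : a + p + q + 1 = r
  hcard : r + (a + 1) < Fintype.card σ
  he : LinearIndependent K e
  iso : ∀ i, IsoK (G i) e
  gpt : GPt G η

variable {G : Fin (a + 1) → MvPolynomial σ K} {e : Fin r → σ → K} {η : σ → E}

omit [IsAlgClosed E] in
theorem Hyp.lineQ (h : Hyp a p q r G e η) (c : Fin r → E) (i : Fin a)
    (h1 : dd (G i.succ) (emb e c) η = 0) : aeval (line (emb e c) η) (G i.succ) = 0 := by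
  rw [line_eq, tay2 (h.hQ i), C_aeval, C_aeval, C_dd, (h.iso _).all, h1, h.gpt.mem]
  simp

/-- the form of Lemma A used below -/
theorem Hyp.lemmaA (h : Hyp a p q r G e η) (c : Fin r → E) (hc : c ≠ 0)
    (h1 : ∀ i : Fin a, dd (G i.succ) (emb e c) η = 0) (h2 : ∀ _ : Fin p, dd (G 0) (emb e c) η = 0)
    (h3 : ∀ _ : Fin q, hh (G 0) (emb e c) η η = 0) (h4 : dd (G 0) η (emb e c) = 0) : False := by
  have hE : CharZero E := charZero_of_injective_algebraMap (algebraMap K E).injective
  refine PDC.lemmaA (Fin.cons (p + q) (fun _ => 0)) G ?_ ?_ e (fun i c c' => (h.iso i).dd c c')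
    h.gpt (fun c s hc => h.gpt.out h.he (by rw [Fintype.card_fin]; exact h.hcard) c s hc) c hc ?_
  · intro i
    refine Fin.cases ?_ (fun i => ?_) i
    · exact h.hF
    · exact h.hQ i
  · rw [Fin.sum_univ_succ]
    simp only [Fin.cons_zero, Fin.cons_succ, Finset.sum_const, Finset.card_univ, Fintype.card_fin,
      smul_eq_mul]
    have := h.hr
    omega
  · intro i
    refine Fin.cases ?_ (fun i => ?_) i
    · exact line_zero h.sw h.hF _ _ ((h.iso 0).all c) h2 h3 h4 (h.gpt.mem 0)
    · exact h.lineQ c i (h1 i)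

omit [CharZero K] [IsAlgClosed E] in
theorem zeroQ (h : Hyp a p q r G e η) (i : Fin a) :
    eval 0 (dd (G i.succ) (uv (E := E) e) (ct r η)) = 0 := by
  rw [eval_dd_uv_ct, emb_zero]
  exact dd_at_zero (n := 0) (h.hQ i) η

omit [CharZero K] [IsAlgClosed E] in
theorem zeroF1 (h : Hyp a p q r G e η) :
    eval 0 (dd (G 0) (uv (E := E) e) (ct r η)) = 0 := by
  rw [eval_dd_uv_ct, emb_zero]
  exact dd_at_zero h.hF η

omit [CharZero K] [IsAlgClosed E] in
theorem zeroF2 (h : Hyp a p q r G e η) (j : Fin q) :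
    eval 0 (hh (G 0) (uv (E := E) e) (ct r η) (ct r η)) = 0 := by
  rw [eval_hh_uv_ct, emb_zero]
  rcases h.sw with ⟨_, rfl⟩ | ⟨_, rfl⟩ | ⟨rfl, rfl⟩
  · exact j.elim0
  · exact j.elim0
  · exact hh_at_zero (n := 1) h.hF η η

omit [CharZero K] [IsAlgClosed E] in
theorem zeroF3 (G : MvPolynomial σ K) (e : Fin r → σ → K) (η : σ → E) :
    eval 0 (dd G (ct r η) (uv (E := E) e)) = 0 := by
  rw [eval_dd_ct_uv, emb_zero, dd_zero_right]

/-- the base point of the configuration -/
theorem Hyp.exists_y (h : Hyp a p q r G e η) : ∃ y : Fin r → E, y ≠ 0 ∧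
    (∀ i : Fin a, dd (G i.succ) (emb e y) η = 0) ∧ (∀ _ : Fin p, dd (G 0) (emb e y) η = 0) ∧
    (∀ _ : Fin q, hh (G 0) (emb e y) η η = 0) ∧ dd (G 0) η (emb e y) ≠ 0 := by
  obtain ⟨y, hy0, hy⟩ := exists_zero_fin (E := E) (r := r) (ι := Fin a ⊕ Fin p ⊕ Fin q)
    (by
      simp only [Fintype.card_sum, Fintype.card_fin]
      have := h.hr
      omega)
    (Sum.elim (fun i => dd (G i.succ) (uv e) (ct r η)) (Sum.elim
      (fun _ => dd (G 0) (uv e) (ct r η)) (fun _ => hh (G 0) (uv e) (ct r η) (ct r η))))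
    (by
      rintro (i | j | j)
      · exact zeroQ h i
      · exact zeroF1 h
      · exact zeroF2 h j)
  have h1 : ∀ i : Fin a, dd (G i.succ) (emb e y) η = 0 := by
    intro i
    have := hy (Sum.inl i)
    simp only [Sum.elim_inl] at this
    rwa [eval_dd_uv_ct] at this
  have h2 : ∀ _ : Fin p, dd (G 0) (emb e y) η = 0 := by
    intro j
    have := hy (Sum.inr (Sum.inl j))
    simp only [Sum.elim_inl, Sum.elim_inr] at this
    rwa [eval_dd_uv_ct] at this
  have h3 : ∀ _ : Fin q, hh (G 0) (emb e y) η η = 0 := by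
    intro j
    have := hy (Sum.inr (Sum.inr j))
    simp only [Sum.elim_inr] at this
    rwa [eval_hh_uv_ct] at this
  exact ⟨y, hy0, h1, h2, h3, fun h4 => h.lemmaA y hy0 h1 h2 h3 h4⟩

/-- the linear forms of the quadrics are independent on the linear space -/
theorem Hyp.indQ (h : Hyp a p q r G e η) (α : Fin a → E)
    (hα : ∀ c : Fin r → E, ∑ i, α i * dd (G i.succ) η (emb e c) = 0) : α = 0 := by
  classical
  by_contra hne
  obtain ⟨i1, hi1⟩ := Function.ne_iff.mp hne
  obtain ⟨y, hy0, hy⟩ := exists_zero_fin (E := E) (r := r)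
    (ι := {i : Fin a // i ≠ i1} ⊕ Fin p ⊕ Fin q ⊕ Unit)
    (by
      simp only [Fintype.card_sum, Fintype.card_fin, Fintype.card_unit]
      have h1 : Fintype.card {i : Fin a // i ≠ i1} + 1 = a := by
        rw [Fintype.card_subtype_compl, Fintype.card_fin, Fintype.card_subtype_eq]
        have := i1.pos
        omega
      have := h.hr
      omega)
    (Sum.elim (fun i => dd (G i.1.succ) (uv e) (ct r η)) (Sum.elim
      (fun _ => dd (G 0) (uv e) (ct r η)) (Sum.elim (fun _ => hh (G 0) (uv e) (ct r η) (ct r η))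
        (fun _ => dd (G 0) (ct r η) (uv e)))))
    (by
      rintro (i | j | j | j)
      · exact zeroQ h i.1
      · exact zeroF1 h
      · exact zeroF2 h j
      · exact zeroF3 _ _ _)
  have h1' : ∀ i : Fin a, i ≠ i1 → dd (G i.succ) (emb e y) η = 0 := by
    intro i hi
    have := hy (Sum.inl ⟨i, hi⟩)
    simp only [Sum.elim_inl] at this
    rwa [eval_dd_uv_ct] at this
  have h2 : ∀ _ : Fin p, dd (G 0) (emb e y) η = 0 := by
    intro j
    have := hy (Sum.inr (Sum.inl j))
    simp only [Sum.elim_inl, Sum.elim_inr] at this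
    rwa [eval_dd_uv_ct] at this
  have h3 : ∀ _ : Fin q, hh (G 0) (emb e y) η η = 0 := by
    intro j
    have := hy (Sum.inr (Sum.inr (Sum.inl j)))
    simp only [Sum.elim_inl, Sum.elim_inr] at this
    rwa [eval_hh_uv_ct] at this
  have h4 : dd (G 0) η (emb e y) = 0 := by
    have := hy (Sum.inr (Sum.inr (Sum.inr ())))
    simp only [Sum.elim_inr] at this
    rwa [eval_dd_ct_uv] at this
  have h1 : ∀ i : Fin a, dd (G i.succ) (emb e y) η = 0 := by
    intro i
    by_cases hi : i = i1
    · subst hi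
      have h5 := hα y
      rw [Finset.sum_eq_single i] at h5
      · rw [dd2_comm (h.hQ i)]
        exact (mul_eq_zero.mp h5).resolve_left hi1
      · intro j _ hj
        rw [dd2_comm (h.hQ j), h1' j hj, mul_zero]
      · simp
    · exact h1' i hi
  exact h.lemmaA y hy0 h1 h2 h3 h4

end Main

end Pool.Agent.Work.PDC
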