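import Mathlib
import Pool.Agent.Work.MP_b62148_ag.CI.Config

/-!
The parametrisation of a complete intersection of quadrics and one form of degree two, three or four
containing a linear space.
-/

namespace Pool.Agent.Work.PDC

open MvPolynomial

section Two

theorem two_cancel {K : Type*} [Field K] [CharZero K] {R : Type*} [CommRing R] [Algebra K R] {x : R}
    (h : 2 * x = 0) : x = 0 := by
  have h1 : algebraMap K R (2 : K)⁻¹ * (2 : R) = 1 := by
    have h2 : (2 : R) = algebraMap K R 2 := (map_ofNat (algebraMap K R) 2).symm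
    rw [h2, ← map_mul, inv_mul_cancel₀ two_ne_zero, map_one]
  calc x = algebraMap K R (2 : K)⁻¹ * (2 : R) * x := by rw [h1, one_mul]
    _ = algebraMap K R (2 : K)⁻¹ * (2 * x) := by ring
    _ = 0 := by rw [h, mul_zero]

variable {K : Type*} [Field K] {σ : Type*} [Fintype σ] {R : Type*} [CommRing R] [Algebra K R]

theorem hh2 {G : MvPolynomial σ K} (hG : G.IsHomogeneous 2) (x u v : σ → R) :
    hh G x u v = dd G u v := by
  refine hom_ind (P := fun G => hh G x u v = dd G u v) 2 ?_ ?_ ?_ ?_ G hG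
  · simp [dd_zero, hh_zero]
  · intro p q hp hq
    rw [hh_add, dd_add, hp, hq]
  · intro c p hp
    rw [hh_Cmul, dd_Cmul, hp]
  · intro t
    simp only [Fin.prod_univ_two, hh_mul, hh_X, aeval_X, dd_mul, dd_X]
    ring

theorem dd_smul_left {n : ℕ} {G : MvPolynomial σ K} (hG : G.IsHomogeneous (n + 1)) (x v : σ → R)
    (s : R) : dd G (s • x) v = s ^ n * dd G x v := by
  unfold dd
  rw [Finset.mul_sum]
  refine Finset.sum_congr rfl fun i _ => ?_
  have h1 : (pderiv i G).IsHomogeneous n := by simpa using hG.pderiv (i := i)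
  rw [aeval_smul_gen h1]
  ring

end Two

section Par

variable {K : Type*} [Field K] {σ : Type*} [Fintype σ] {ι : Type*} {I₁ I₂ : Type*} [Fintype I₁]
  [DecidableEq I₁] [Fintype I₂] [DecidableEq I₂] {r : ℕ}
variable {R : Type*} [CommRing R] [Algebra K R]

/-- matrix of the linear forms -/
noncomputable def pG (G : ι → MvPolynomial σ K) (g₁ : I₁ → ι) (Y : σ → R) (z : I₁ → σ → R) :
    Matrix I₁ I₁ R := Matrix.of fun m i => dd (G (g₁ m)) Y (z i)

/-- the projected vector -/
noncomputable def pz (G : ι → MvPolynomial σ K) (g₁ : I₁ → ι) (Y : σ → R) (z : I₁ → σ → R)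
    (om : σ → R) : σ → R :=
  (pG G g₁ Y z).det • om -
    ∑ i, (∑ m, (pG G g₁ Y z).adjugate i m * dd (G (g₁ m)) Y om) • z i

/-- matrix of the bilinear forms -/
noncomputable def pH (G : ι → MvPolynomial σ K) (g₂ : I₂ → ι) (e : Fin r → σ → K) (Y : σ → R)
    (A : I₂ → Fin r → R) (ze : σ → R) : Matrix I₂ I₂ R :=
  Matrix.of fun m j => hh (G (g₂ m)) Y (emb e (A j)) ze

/-- the point on the intersection of quadrics -/
noncomputable def pw (G : ι → MvPolynomial σ K) (g₂ : I₂ → ι) (e : Fin r → σ → K) (Y : σ → R)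
    (A : I₂ → Fin r → R) (ze : σ → R) : σ → R :=
  (2 * (pH G g₂ e Y A ze).det) • ze -
    ∑ j, (∑ m, (pH G g₂ e Y A ze).adjugate j m * hh (G (g₂ m)) Y ze ze) • emb e (A j)

/-- the residual point -/
noncomputable def px (F : MvPolynomial σ K) (Y w : σ → R) : σ → R :=
  (- aeval w F) • Y + (dd F w Y) • w

variable {S : Type*} [CommRing S] [Algebra K S] (φ : R →ₐ[K] S)

theorem map_pG (G : ι → MvPolynomial σ K) (g₁ : I₁ → ι) (Y : σ → R) (z : I₁ → σ → R) :
    φ.mapMatrix (pG G g₁ Y z) = pG G g₁ (fun l => φ (Y l)) (fun i l => φ (z i l)) := by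
  ext m i
  rw [AlgHom.mapMatrix_apply, Matrix.map_apply]
  exact map_dd φ _ _ _

theorem map_pz (G : ι → MvPolynomial σ K) (g₁ : I₁ → ι) (Y : σ → R) (z : I₁ → σ → R)
    (om : σ → R) : (fun l => φ (pz G g₁ Y z om l)) =
      pz G g₁ (fun l => φ (Y l)) (fun i l => φ (z i l)) (fun l => φ (om l)) := by
  funext l
  have h1 := map_pG φ G g₁ Y z
  have h2 : φ (pG G g₁ Y z).det = (pG G g₁ (fun l => φ (Y l)) (fun i l => φ (z i l))).det := by
    rw [← h1, AlgHom.map_det]
  have h3 : ∀ i m, φ ((pG G g₁ Y z).adjugate i m) =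
      (pG G g₁ (fun l => φ (Y l)) (fun i l => φ (z i l))).adjugate i m := by
    intro i m
    rw [← h1, ← AlgHom.map_adjugate]
    rfl
  simp only [pz, Pi.sub_apply, Pi.smul_apply, Finset.sum_apply, smul_eq_mul, map_sub, map_mul,
    map_sum, h2, h3, map_dd]

theorem map_pH (G : ι → MvPolynomial σ K) (g₂ : I₂ → ι) (e : Fin r → σ → K) (Y : σ → R)
    (A : I₂ → Fin r → R) (ze : σ → R) : φ.mapMatrix (pH G g₂ e Y A ze) =
      pH G g₂ e (fun l => φ (Y l)) (fun i l => φ (A i l)) (fun l => φ (ze l)) := by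
  ext m i
  rw [AlgHom.mapMatrix_apply, Matrix.map_apply]
  show φ (hh _ _ _ _) = hh _ _ _ _
  rw [map_hh, map_emb]

theorem map_pw (G : ι → MvPolynomial σ K) (g₂ : I₂ → ι) (e : Fin r → σ → K) (Y : σ → R)
    (A : I₂ → Fin r → R) (ze : σ → R) : (fun l => φ (pw G g₂ e Y A ze l)) =
      pw G g₂ e (fun l => φ (Y l)) (fun i l => φ (A i l)) (fun l => φ (ze l)) := by
  funext l
  have h1 := map_pH φ G g₂ e Y A ze
  have h2 : φ (pH G g₂ e Y A ze).det =
      (pH G g₂ e (fun l => φ (Y l)) (fun i l => φ (A i l)) (fun l => φ (ze l))).det := by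
    rw [← h1, AlgHom.map_det]
  have h3 : ∀ i m, φ ((pH G g₂ e Y A ze).adjugate i m) =
      (pH G g₂ e (fun l => φ (Y l)) (fun i l => φ (A i l)) (fun l => φ (ze l))).adjugate i m := by
    intro i m
    rw [← h1, ← AlgHom.map_adjugate]
    rfl
  have h4 : ∀ (c : Fin r → R) l, φ (emb e c l) = emb e (fun j => φ (c j)) l := fun c l =>
    congrFun (map_emb φ e c) l
  have h5 : φ (2 : R) = 2 := map_ofNat φ 2
  simp only [pw, Pi.sub_apply, Pi.smul_apply, Finset.sum_apply, smul_eq_mul, map_sub, map_mul,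
    map_sum, h2, h3, h4, h5, map_hh]

theorem map_px (F : MvPolynomial σ K) (Y w : σ → R) : (fun l => φ (px F Y w l)) =
    px F (fun l => φ (Y l)) (fun l => φ (w l)) := by
  funext l
  simp only [px, Pi.add_apply, Pi.smul_apply, smul_eq_mul, map_add, map_mul, map_neg, map_dd,
    map_aeval']

/-- the projected vector lies in the kernel of the linear forms -/
theorem dd_pz (G : ι → MvPolynomial σ K) (g₁ : I₁ → ι) (Y : σ → R) (z : I₁ → σ → R)
    (om : σ → R) (n : I₁) : dd (G (g₁ n)) Y (pz G g₁ Y z om) = 0 := by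
  unfold pz
  rw [dd_sub_right, dd_smul_right, dd_sum_right]
  simp only [dd_smul_right]
  have h1 : ∑ i, (∑ m, (pG G g₁ Y z).adjugate i m * dd (G (g₁ m)) Y om) * dd (G (g₁ n)) Y (z i) =
      ∑ m, (pG G g₁ Y z * (pG G g₁ Y z).adjugate) n m * dd (G (g₁ m)) Y om := by
    simp only [Matrix.mul_apply, Finset.sum_mul]
    rw [Finset.sum_comm]
    refine Finset.sum_congr rfl fun m _ => Finset.sum_congr rfl fun i _ => ?_
    show _ = dd (G (g₁ n)) Y (z i) * _ * _
    ring
  rw [h1, Matrix.mul_adjugate]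
  simp only [Matrix.smul_apply, Matrix.one_apply, smul_eq_mul, mul_ite, mul_one, mul_zero,
    ite_mul, zero_mul]
  rw [Finset.sum_ite_eq]
  simp

theorem dd_pw [CharZero K] (G : ι → MvPolynomial σ K) (g₂ : I₂ → ι) (e : Fin r → σ → K)
    (hiso : ∀ i, IsoK (G i) e) (y : Fin r → R) (A : I₂ → Fin r → R) (ze : σ → R) (i : ι)
    (h : dd (G i) (emb e y) ze = 0) : dd (G i) (emb e y) (pw G g₂ e (emb e y) A ze) = 0 := by
  unfold pw
  rw [dd_sub_right, dd_smul_right, dd_sum_right, h, mul_zero, zero_sub, neg_eq_zero]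
  refine Finset.sum_eq_zero fun j _ => ?_
  rw [dd_smul_right, (hiso i).dd, mul_zero]

theorem hh_pw [CharZero K] (G : ι → MvPolynomial σ K) (g₂ : I₂ → ι) (e : Fin r → σ → K)
    (hiso : ∀ i, IsoK (G i) e) (y : Fin r → R) (A : I₂ → Fin r → R) (ze : σ → R) (n : I₂) :
    hh (G (g₂ n)) (emb e y) (pw G g₂ e (emb e y) A ze) (pw G g₂ e (emb e y) A ze) = 0 := by
  set Y := emb e y with hY
  set H := pH G g₂ e Y A ze with hH
  set c : Fin r → R := ∑ j, (∑ m, H.adjugate j m * hh (G (g₂ m)) Y ze ze) • A j with hc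
  have hw : pw G g₂ e Y A ze = (2 * H.det) • ze - emb e c := by
    unfold pw
    rw [← hH]
    congr 1
    rw [hc, ← embL_apply, map_sum]
    refine Finset.sum_congr rfl fun j _ => ?_
    rw [map_smul]
    rfl
  have hcz : hh (G (g₂ n)) Y (emb e c) ze = H.det * hh (G (g₂ n)) Y ze ze := by
    have h1 : hh (G (g₂ n)) Y (emb e c) ze =
        ∑ j, (∑ m, H.adjugate j m * hh (G (g₂ m)) Y ze ze) * H n j := by
      rw [hc, ← embL_apply, map_sum, hh_comm, ← hhB_apply, map_sum]
      refine Finset.sum_congr rfl fun j _ => ?_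
      rw [map_smul, map_smul, hhB_apply, hh_comm, smul_eq_mul]
      rfl
    rw [h1]
    have h2 : ∑ j, (∑ m, H.adjugate j m * hh (G (g₂ m)) Y ze ze) * H n j =
        ∑ m, (H * H.adjugate) n m * hh (G (g₂ m)) Y ze ze := by
      simp only [Matrix.mul_apply, Finset.sum_mul]
      rw [Finset.sum_comm]
      refine Finset.sum_congr rfl fun m _ => Finset.sum_congr rfl fun i _ => ?_
      ring
    rw [h2, Matrix.mul_adjugate]
    simp only [Matrix.smul_apply, Matrix.one_apply, smul_eq_mul, mul_ite, mul_one, mul_zero,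
      ite_mul, zero_mul]
    rw [Finset.sum_ite_eq]
    simp
  have hcc : hh (G (g₂ n)) Y (emb e c) (emb e c) = 0 := (hiso _).hh _ _ _
  rw [hw, sub_eq_add_neg, ← neg_one_smul R (emb e c), hh_add_left, hh_add_right, hh_add_right,
    hh_smul_left, hh_smul_left, hh_smul_left, hh_smul_left, hh_smul_right, hh_smul_right,
    hh_smul_right, hh_smul_right, hcc, hh_comm (G (g₂ n)) Y ze (emb e c), hcz]
  ring

end Par

end Pool.Agent.Work.PDC
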