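import Mathlib
import Pool.Agent.Work.MP_b62148_ag.CI.Param

/-!
Lemma B and the values of the parametrisation at the configuration.
-/

namespace Pool.Agent.Work.PDC

open MvPolynomial

section Main

variable {K : Type*} [Field K] [CharZero K] {σ : Type*} [Fintype σ] {E : Type*} [Field E]
  [IsAlgClosed E] [Algebra K E] {a p q r : ℕ}
variable {G : Fin (a + 1) → MvPolynomial σ K} {e : Fin r → σ → K} {η : σ → E}

/-- the index maps -/
def gi (a p : ℕ) : Fin a ⊕ Fin p → Fin (a + 1) := Sum.elim Fin.succ (fun _ => 0)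

omit [CharZero K] [IsAlgClosed E] in
theorem sum_gi (hp : p = 0 ∨ p = 1) (α : Fin a ⊕ Fin p → E) (f : Fin (a + 1) → E) :
    ∑ m, α m * f (gi a p m) =
      ∑ i, (Fin.cons (∑ j : Fin p, α (Sum.inr j)) (fun i => α (Sum.inl i)) : Fin (a + 1) → E) i *
        f i := by
  rw [Fintype.sum_sum_type, Fin.sum_univ_succ]
  simp only [gi, Sum.elim_inl, Sum.elim_inr, Fin.cons_zero, Fin.cons_succ, Finset.sum_mul]
  exact add_comm _ _

omit [CharZero K] [IsAlgClosed E] in
theorem eq_zero_gi (hp : p = 0 ∨ p = 1) (α : Fin a ⊕ Fin p → E)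
    (h : (Fin.cons (∑ j : Fin p, α (Sum.inr j)) (fun i => α (Sum.inl i)) : Fin (a + 1) → E) = 0) :
    α = 0 := by
  funext m
  rcases m with i | j
  · have := congrFun h i.succ
    rwa [Fin.cons_succ] at this
  · have := congrFun h 0
    rw [Fin.cons_zero] at this
    rcases hp with rfl | rfl
    · exact j.elim0
    · rw [Fin.sum_univ_one] at this
      rw [Fin.fin_one_eq_zero j]
      exact this

/-- the linear forms at the base point are independent -/
theorem Hyp.indL (h : Hyp a p q r G e η) (y : Fin r → E) (hy : y ≠ 0) (α : Fin a ⊕ Fin p → E)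
    (hα : ∀ v : σ → E, ∑ m, α m * dd (G (gi a p m)) (emb e y) v = 0) : α = 0 := by
  have hp : p = 0 ∨ p = 1 := by
    rcases h.sw with ⟨h1, _⟩ | ⟨h1, _⟩ | ⟨h1, _⟩ <;> simp [h1]
  apply eq_zero_gi hp
  refine h.gpt.smooth (emb e y) (fun h0 => hy (emb_inj h.he y h0)) (fun i => (h.iso i).all y) _ ?_
  intro v
  rw [← sum_gi hp α (fun i => dd (G i) (emb e y) v)]
  exact hα v

/-- Lemma B -/
theorem Hyp.indB (h : Hyp a p q r G e η) (y : Fin r → E) (hy : y ≠ 0)
    (h1 : ∀ i : Fin a, dd (G i.succ) (emb e y) η = 0)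
    (h2 : ∀ _ : Fin p, dd (G 0) (emb e y) η = 0)
    (h4 : dd (G 0) η (emb e y) ≠ 0)
    (α : Fin a ⊕ Fin q → E)
    (hα : ∀ c : Fin r → E, ∑ m, α m * hh (G (gi a q m)) (emb e y) (emb e c) η = 0) : α = 0 := by
  classical
  have hq : q = 0 ∨ q = 1 := by
    rcases h.sw with ⟨_, h1⟩ | ⟨_, h1⟩ | ⟨_, h1⟩ <;> simp [h1]
  rcases hq with rfl | rfl
  · have h5 := h.indQ (fun i => α (Sum.inl i)) (by
      intro c
      rw [← hα c, Fintype.sum_sum_type]
      simp only [Finset.univ_eq_empty, Finset.sum_empty, add_zero]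
      refine Finset.sum_congr rfl fun i _ => ?_
      simp only [gi, Sum.elim_inl]
      rw [hh2 (h.hQ i), dd2_comm (h.hQ i)])
    funext m
    rcases m with i | j
    · exact congrFun h5 i
    · exact j.elim0
  · have hp : p = 1 := by
      rcases h.sw with ⟨_, h1⟩ | ⟨_, h1⟩ | ⟨h1, _⟩
      · omega
      · omega
      · exact h1
    subst hp
    have hz : ∀ i : Fin (a + 1), dd (G i) (emb e y) η = 0 := by
      intro i
      refine Fin.cases ?_ (fun i => ?_) i
      · exact h2 0
      · exact h1 i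
    set Y := emb e y with hY
    apply eq_zero_gi (Or.inr rfl)
    set A : Fin (a + 1) → E :=
      Fin.cons (∑ j : Fin 1, α (Sum.inr j)) (fun i => α (Sum.inl i)) with hA
    have hα' : ∀ c : Fin r → E, ∑ i, A i * hh (G i) Y (emb e c) η = 0 := by
      intro c
      rw [← hα c, sum_gi (Or.inr rfl) α (fun i => hh (G i) Y (emb e c) η)]
    -- the functional
    let φ : (σ → E) →ₗ[E] E := ∑ i, A i • ddL (G i) Y
    have hφ : ∀ v, φ v = ∑ i, A i * dd (G i) Y v := by
      intro v
      simp only [φ, LinearMap.sum_apply, LinearMap.smul_apply, ddL_apply, smul_eq_mul]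
    have hT : ∀ v, (∀ i, ddL (G i) η v = 0) → φ v = 0 := by
      intro v hv
      obtain ⟨D, hD⟩ := h.gpt.der v hv
      have h5 : ∀ i, hh (G i) Y (emb e (fun j => D (y j))) η + dd (G i) Y v = 0 := by
        intro i
        have h6 := der_coeff D (G i) Y η 0
        rw [zero_add, coeff_one_line, hz, map_zero, plc_one, plc_zero, hY, der_emb] at h6
        have h7 : (fun l => D (η l)) = v := funext hD
        rw [h7, hh_comm] at h6
        exact h6.symm
      rw [hφ]
      have h8 := hα' (fun j => D (y j))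
      have h9 : ∑ i, A i * (hh (G i) Y (emb e (fun j => D (y j))) η + dd (G i) Y v) = 0 :=
        Finset.sum_eq_zero fun i _ => by rw [h5, mul_zero]
      simp only [mul_add, Finset.sum_add_distrib] at h9
      rw [h8, zero_add] at h9
      exact h9
    obtain ⟨u, hu⟩ := exists_dual (fun i => ddL (G i) η) (h.gpt.smooth η h.gpt.ne h.gpt.mem)
    have hsp : ∀ w, φ w = ∑ i, φ (u i) * dd (G i) η w := fun w =>
      eq_sum_of_ker (fun i => ddL (G i) η) u hu φ hT w
    have hself : ∀ i, dd (G i) Y Y = 0 := fun i => (h.iso i).dd y y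
    have hu0 : φ (u 0) = 0 := by
      have h5 := hsp Y
      rw [hφ, Fin.sum_univ_succ (fun i => φ (u i) * dd (G i) η Y)] at h5
      have h6 : ∑ i, A i * dd (G i) Y Y = 0 :=
        Finset.sum_eq_zero fun i _ => by rw [hself, mul_zero]
      have h7 : ∑ i : Fin a, φ (u i.succ) * dd (G i.succ) η Y = 0 :=
        Finset.sum_eq_zero fun i _ => by rw [dd2_comm (h.hQ i), h1, mul_zero]
      rw [h6, h7, add_zero] at h5
      exact (mul_eq_zero.mp h5.symm).resolve_right h4
    have hus : (fun i : Fin a => φ (u i.succ)) = 0 := by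
      apply h.indQ
      intro c
      have h5 := hsp (emb e c)
      rw [hφ, Fin.sum_univ_succ (fun i => φ (u i) * dd (G i) η (emb e c)), hu0, zero_mul,
        zero_add] at h5
      rw [← h5]
      exact Finset.sum_eq_zero fun i _ => by rw [hY, (h.iso i).dd, mul_zero]
    refine h.gpt.smooth Y (fun h0 => hy (emb_inj h.he y h0)) (fun i => (h.iso i).all y) A ?_
    intro w
    rw [← hφ, hsp, Fin.sum_univ_succ, hu0, zero_mul, zero_add]
    refine Finset.sum_eq_zero fun i _ => ?_
    have := congrFun hus i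
    simp only [Pi.zero_apply] at this
    rw [this, zero_mul]

/-- the parametrisation as a function -/
noncomputable def par (p q : ℕ) {R : Type*} [CommRing R] [Algebra K R]
    (G : Fin (a + 1) → MvPolynomial σ K)
    (e : Fin r → σ → K) (y : Fin r → R) (A : Fin a ⊕ Fin q → Fin r → R)
    (z : Fin a ⊕ Fin p → σ → R) (om : σ → R) (s : R) : σ → R :=
  s • px (G 0) (emb e y) (pw G (gi a q) e (emb e y) A (pz G (gi a p) (emb e y) z om))

omit [CharZero K] in
theorem map_par {R : Type*} [CommRing R] [Algebra K R] {S : Type*} [CommRing S] [Algebra K S]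
    (φ : R →ₐ[K] S) (G : Fin (a + 1) → MvPolynomial σ K) (e : Fin r → σ → K) (y : Fin r → R)
    (A : Fin a ⊕ Fin q → Fin r → R) (z : Fin a ⊕ Fin p → σ → R) (om : σ → R) (s : R) :
    (fun l => φ (par p q G e y A z om s l)) =
      par p q G e (fun j => φ (y j)) (fun i j => φ (A i j)) (fun i l => φ (z i l))
        (fun l => φ (om l)) (φ s) := by
  unfold par
  rw [← map_emb, ← map_pz, ← map_pw, ← map_px]
  funext l
  simp only [Pi.smul_apply, smul_eq_mul, map_mul]

/-- the parametrisation lands in the complete intersection -/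
theorem par_mem {R : Type*} [CommRing R] [Algebra K R] (hpq : Sw p q)
    (hF : (G 0).IsHomogeneous (p + q + 2)) (hQ : ∀ i : Fin a, (G i.succ).IsHomogeneous 2)
    (hiso : ∀ i, IsoK (G i) e) (y : Fin r → R)
    (A : Fin a ⊕ Fin q → Fin r → R) (z : Fin a ⊕ Fin p → σ → R) (om : σ → R) (s : R)
    (i : Fin (a + 1)) : aeval (par p q G e y A z om s) (G i) = 0 := by
  unfold par
  set Y := emb e y with hY
  set ze := pz G (gi a p) Y z om with hze
  set w := pw G (gi a q) e Y A ze with hw
  have hY0 : ∀ i, aeval Y (G i) = 0 := fun i => (hiso i).all y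
  have hl : ∀ m, dd (G (gi a p m)) Y w = 0 := by
    intro m
    rw [hw, hY]
    apply dd_pw G _ e hiso
    rw [← hY, hze]
    exact dd_pz G (gi a p) Y z om m
  have hb : ∀ m, hh (G (gi a q m)) Y w w = 0 := fun m => hh_pw G (gi a q) e hiso y A ze m
  have hx : ∀ i, aeval (px (G 0) Y w) (G i) = 0 := by
    intro i
    unfold px
    refine Fin.cases ?_ (fun i => ?_) i
    · rcases hpq with ⟨rfl, rfl⟩ | ⟨rfl, rfl⟩ | ⟨rfl, rfl⟩
      · rw [tay2 hF, hY0, dd2_comm hF Y w]
        ring
      · have h1 : dd (G 0) Y w = 0 := hl (Sum.inr 0)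
        rw [tay3 hF, hY0, h1]
        ring
      · have h1 : dd (G 0) Y w = 0 := hl (Sum.inr 0)
        have h2 : hh (G 0) Y w w = 0 := hb (Sum.inr 0)
        apply two_cancel (K := K)
        rw [tay4 hF, hY0, h1, h2]
        ring
    · have h1 : dd (G i.succ) Y w = 0 := hl (Sum.inl i)
      have h2 : hh (G i.succ) Y w w = 0 := hb (Sum.inl i)
      have h3 : aeval w (G i.succ) = 0 := by
        apply two_cancel (K := K)
        rw [← dd2_self (hQ i), ← hh2 (hQ i) Y, h2]
      rw [tay2 (hQ i), hY0, h1, h3]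
      ring
  refine Fin.cases ?_ (fun i => ?_) i
  · rw [aeval_smul_gen hF, hx, mul_zero]
  · rw [aeval_smul_gen (hQ i), hx, mul_zero]

/-- the parametrisation passes through the generic point -/
theorem Hyp.exists_par (h : Hyp a p q r G e η) : ∃ (y : Fin r → E) (A : Fin a ⊕ Fin q → Fin r → E)
    (z : Fin a ⊕ Fin p → σ → E) (om : σ → E) (s : E), par p q G e y A z om s = η := by
  classical
  have hE : CharZero E := charZero_of_injective_algebraMap (algebraMap K E).injective
  obtain ⟨y, hy0, h1, h2, h3, h4⟩ := h.exists_y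
  obtain ⟨z, hz⟩ := exists_dual (fun m => ddL (G (gi a p m)) (emb e y))
    (fun α hα => h.indL y hy0 α hα)
  obtain ⟨A, hA⟩ := exists_dual
    (fun m => ((hhB (G (gi a q m)) (emb e y)).flip η).comp (embL (R := E) e))
    (fun α hα => h.indB y hy0 h1 h2 h4 α hα)
  have hG1 : pG G (gi a p) (emb e y) z = 1 := by
    ext m i
    rw [Matrix.one_apply]
    exact hz m i
  have hζ : pz G (gi a p) (emb e y) z η = η := by
    unfold pz
    rw [hG1, Matrix.det_one, one_smul]
    have h5 : ∀ m, dd (G (gi a p m)) (emb e y) η = 0 := by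
      rintro (i | j)
      · exact h1 i
      · exact h2 j
    simp [h5]
  have hH1 : pH G (gi a q) e (emb e y) A η = 1 := by
    ext m j
    rw [Matrix.one_apply]
    exact hA m j
  have hw : pw G (gi a q) e (emb e y) A η = (2 : E) • η := by
    unfold pw
    rw [hH1, Matrix.det_one, mul_one]
    have h5 : ∀ m, hh (G (gi a q m)) (emb e y) η η = 0 := by
      rintro (i | j)
      · show hh (G i.succ) (emb e y) η η = 0
        rw [hh2 (h.hQ i), dd2_self (h.hQ i), h.gpt.mem, mul_zero]
      · exact h3 j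
    simp [h5]
  have hdd : dd (G 0) ((2 : E) • η) (emb e y) = 2 ^ (p + q + 1) * dd (G 0) η (emb e y) :=
    dd_smul_left h.hF η (emb e y) 2
  have hx : px (G 0) (emb e y) ((2 : E) • η) =
      (2 ^ (p + q + 1) * dd (G 0) η (emb e y) * 2) • η := by
    unfold px
    rw [aeval_smul_gen h.hF, h.gpt.mem, mul_zero, neg_zero, zero_smul, zero_add, hdd, smul_smul]
  have hne : 2 ^ (p + q + 1) * dd (G 0) η (emb e y) * 2 ≠ 0 :=
    mul_ne_zero (mul_ne_zero (pow_ne_zero _ two_ne_zero) h4) two_ne_zero
  refine ⟨y, A, z, η, (2 ^ (p + q + 1) * dd (G 0) η (emb e y) * 2)⁻¹, ?_⟩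
  unfold par
  rw [hζ, hw, hx, smul_smul, inv_mul_cancel₀ hne, one_smul]

end Main

end Pool.Agent.Work.PDC
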