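import Mathlib
import Pool.Agent.Work.MP_b62148_ag.CI.LemB

/-!
Unirationality and density for complete intersections of quadrics and one form of degree two, three
or four containing a linear space.
-/

namespace Pool.Agent.Work.PDC

open MvPolynomial

universe u w

/-- unirationality of the complete intersection -/
def UnirCI {K : Type*} [Field K] {σ ι : Type*} (G : ι → MvPolynomial σ K) : Prop :=
  ∃ (m : ℕ) (P : σ → MvPolynomial (Fin m) K), (∀ i, aeval P (G i) = 0) ∧
    ∀ H : MvPolynomial σ K, aeval P H = 0 →
      ∀ x : σ → AlgebraicClosure K, (∀ i, aeval x (G i) = 0) → aeval x H = 0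

/-- density of the points over the field -/
def DenseCI {K : Type*} [Field K] {σ ι : Type*} (G : ι → MvPolynomial σ K) : Prop :=
  ∀ H : MvPolynomial σ K, (∀ x : σ → K, (∀ i, eval x (G i) = 0) → eval x H = 0) →
    ∀ x : σ → AlgebraicClosure K, (∀ i, aeval x (G i) = 0) → aeval x H = 0

section Base

variable {K : Type u} [Field K] [CharZero K] {σ : Type w} {ι : Type*} (G : ι → MvPolynomial σ K)
  {τ : Type*} [Fintype τ] (P : σ → MvPolynomial τ K)

/-- from a dominant polynomial map to unirationality and density -/
theorem unir_dense (hP : ∀ i, aeval P (G i) = 0)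
    (hdom : ∀ H : MvPolynomial σ K, aeval P H = 0 →
      ∀ x : σ → AlgebraicClosure K, (∀ i, aeval x (G i) = 0) → aeval x H = 0) :
    UnirCI G ∧ DenseCI G := by
  classical
  refine ⟨?_, ?_⟩
  · let e := Fintype.equivFin τ
    have h1 : ∀ Q : MvPolynomial σ K, aeval (fun i => rename e (P i)) Q =
        rename e (aeval P Q) := by
      intro Q
      rw [← AlgHom.comp_apply]
      congr 1
      apply MvPolynomial.algHom_ext
      intro i; simp
    refine ⟨_, fun i => rename e (P i), ?_, ?_⟩
    · intro i
      rw [h1, hP, map_zero]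
    · intro H hH
      apply hdom
      rw [h1] at hH
      exact rename_injective e e.injective (by rw [hH, map_zero])
  · intro H hH
    apply hdom
    apply MvPolynomial.funext
    intro t
    rw [map_zero]
    have h1 : ∀ Q : MvPolynomial σ K, eval t (aeval P Q) =
        eval (fun i => eval t (P i)) Q := by
      intro Q
      have : ((aeval t : MvPolynomial _ K →ₐ[K] K).comp (aeval P)) =
          aeval (fun i => eval t (P i)) := by
        apply MvPolynomial.algHom_ext
        intro i; simp [MvPolynomial.aeval_eq_eval]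
      have := congrArg (fun f => f Q) this
      simpa [MvPolynomial.aeval_eq_eval] using this
    rw [h1]
    apply hH
    intro i
    rw [← h1, hP, map_zero]

end Base

section Main

variable {K : Type u} [Field K] [CharZero K] {σ : Type w} [Fintype σ] {a p q r : ℕ}
  (G : Fin (a + 1) → MvPolynomial σ K) (e : Fin r → σ → K)

/-- the parameters -/
abbrev Pv (σ : Type w) (a p q r : ℕ) : Type w :=
  Fin r ⊕ ((Fin a ⊕ Fin q) × Fin r) ⊕ ((Fin a ⊕ Fin p) × σ) ⊕ σ ⊕ Unit

/-- the parametrisation over any algebra -/
noncomputable def parT (p q : ℕ) {R : Type*} [CommRing R] [Algebra K R] (t : Pv σ a p q r → R) :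
    σ → R :=
  par p q G e (fun j => t (Sum.inl j)) (fun i j => t (Sum.inr (Sum.inl (i, j))))
    (fun i l => t (Sum.inr (Sum.inr (Sum.inl (i, l)))))
    (fun l => t (Sum.inr (Sum.inr (Sum.inr (Sum.inl l)))))
    (t (Sum.inr (Sum.inr (Sum.inr (Sum.inr ())))))

/-- the parametrising polynomials -/
noncomputable def PP (p q : ℕ) : σ → MvPolynomial (Pv σ a p q r) K :=
  parT G e p q (X : Pv σ a p q r → MvPolynomial (Pv σ a p q r) K)

omit [CharZero K] in
theorem aeval_PP {R : Type*} [CommRing R] [Algebra K R] (t : Pv σ a p q r → R)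
    (H : MvPolynomial σ K) : aeval t (aeval (PP G e p q) H) = aeval (parT G e p q t) H := by
  rw [map_aeval' (aeval t : MvPolynomial (Pv σ a p q r) K →ₐ[K] R) H (PP G e p q)]
  congr 2
  unfold PP parT
  rw [map_par]
  simp only [aeval_X]

variable {G e}

theorem final_K (hpq : Sw p q) (hF : (G 0).IsHomogeneous (p + q + 2))
    (hQ : ∀ i : Fin a, (G i.succ).IsHomogeneous 2) (hs : SmoothCI G) (hr : a + p + q + 1 = r)
    (hcard : r + (a + 1) < Fintype.card σ) (he : LinearIndependent K e)
    (hiso : ∀ i, IsoK (G i) e) : UnirCI G ∧ DenseCI G := by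
  classical
  refine unir_dense G (PP G e p q) ?_ ?_
  · intro i
    exact par_mem hpq hF hQ hiso _ _ _ _ _ i
  · intro H hH x hx
    by_cases hx0 : x = 0
    · subst hx0
      have h1 := aeval_PP (p := p) (q := q) G e
        (fun _ => (0 : AlgebraicClosure K)) H
      rw [hH, map_zero] at h1
      have h2 : parT G e p q (fun _ : Pv σ a p q r => (0 : AlgebraicClosure K)) = 0 := by
        unfold parT par
        rw [zero_smul]
      rw [h2] at h1
      exact h1.symm
    · obtain ⟨E, i1, i2, i3, η, hg, hsp⟩ := exists_gpt G hs x hx0 hx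
      have hyp : Hyp a p q r G e η := ⟨hpq, hF, hQ, hr, hcard, he, hiso, hg⟩
      obtain ⟨y, A, z, om, s, hpar⟩ := hyp.exists_par
      apply hsp
      let t : Pv σ a p q r → E := Sum.elim y (Sum.elim (fun i => A i.1 i.2)
        (Sum.elim (fun i => z i.1 i.2) (Sum.elim om (fun _ => s))))
      have h1 := aeval_PP (p := p) (q := q) G e t H
      rw [hH, map_zero] at h1
      have h2 : parT G e p q t = η := hpar
      rw [h2] at h1
      exact h1.symm

end Main

section Pot

variable {k : Type u} [Field k] [CharZero k] {σ : Type w} [Fintype σ] {a p q r : ℕ}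
  {G : Fin (a + 1) → MvPolynomial σ k}

omit [CharZero k] in
theorem SmoothCI.map' {ι : Type*} [Fintype ι] {G : ι → MvPolynomial σ k} (hs : SmoothCI G)
    (L : Type*) [Field L] [Algebra k L] : SmoothCI (fun i => map (algebraMap k L) (G i)) := by
  classical
  intro x hx0 hx b hb
  refine smooth_ext G hs x hx0 (fun i => ?_) b ?_
  · have := hx i
    rw [aeval_map_algebraMap] at this
    exact this
  · apply dd_of_grad
    intro l
    rw [← hb l]
    refine Finset.sum_congr rfl fun i _ => ?_
    rw [pderiv_map, aeval_map_algebraMap]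

/-- linear spaces are defined over finite extensions -/
theorem descend_space {ι : Type*} (G : ι → MvPolynomial σ k) (e : Fin r → σ → AlgebraicClosure k)
    (he : LinearIndependent (AlgebraicClosure k) e)
    (hiso : ∀ i, ∀ c : Fin r → AlgebraicClosure k, aeval (fun l => ∑ j, c j * e j l) (G i) = 0) :
    ∃ L : IntermediateField k (AlgebraicClosure k), FiniteDimensional k L ∧
      ∃ e' : Fin r → σ → L, LinearIndependent L e' ∧
        ∀ i, IsoK (map (algebraMap k L) (G i)) e' := by
  classical
  let s : Set (AlgebraicClosure k) := Set.range (fun p : Fin r × σ => e p.1 p.2)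
  let L : IntermediateField k (AlgebraicClosure k) := IntermediateField.adjoin k s
  have hfin : FiniteDimensional k L := by
    have : Finite s := Set.finite_range _
    exact IntermediateField.finiteDimensional_adjoin fun x _ =>
      (Algebra.IsAlgebraic.isAlgebraic x).isIntegral
  have hmem : ∀ j i, e j i ∈ L := fun j i =>
    IntermediateField.subset_adjoin k s ⟨(j, i), rfl⟩
  refine ⟨L, hfin, fun j i => ⟨e j i, hmem j i⟩, ?_, ?_⟩
  · have h1 : LinearIndependent (AlgebraicClosure k)
        (fun j => algebraMap L (AlgebraicClosure k) ∘ (fun i => (⟨e j i, hmem j i⟩ : L))) := he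
    exact linearIndependent_algebraMap_comp_iff.mp h1
  · intro i c
    rw [aeval_map_algebraMap]
    have h1 := hiso i (fun j => (c j : AlgebraicClosure k))
    have h2 := map_aeval' L.val (G i) (emb (fun j i => (⟨e j i, hmem j i⟩ : L)) c)
    apply L.val.injective
    rw [map_zero]
    refine h2.trans ?_
    rw [← h1]
    congr 2
    funext l
    simp only [emb, map_sum, map_mul]
    rfl

theorem potential (hpq : Sw p q) (hF : (G 0).IsHomogeneous (p + q + 2))
    (hQ : ∀ i : Fin a, (G i.succ).IsHomogeneous 2) (hs : SmoothCI G) (hr : a + p + q + 1 = r)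
    (hcard : r + (a + 1) < Fintype.card σ) (e : Fin r → σ → AlgebraicClosure k)
    (he : LinearIndependent (AlgebraicClosure k) e)
    (hiso : ∀ i, ∀ c : Fin r → AlgebraicClosure k, aeval (fun l => ∑ j, c j * e j l) (G i) = 0) :
    ∃ L : IntermediateField k (AlgebraicClosure k), FiniteDimensional k L ∧
      UnirCI (fun i => map (algebraMap k L) (G i)) ∧
      DenseCI (fun i => map (algebraMap k L) (G i)) := by
  obtain ⟨L, hL, e', he', hiso'⟩ := descend_space G e he hiso
  exact ⟨L, hL, final_K hpq (hF.map _) (fun i => (hQ i).map _) (hs.map' L) hr hcard he' hiso'⟩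

end Pot

end Pool.Agent.Work.PDC
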