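import Mathlib
import Pool.Agent.Work.MP_b62148_ag.HS
import Pool.Agent.Work.MP_b62148_ag.CI.Tay

/-!
Linear subspaces of complete intersections over an algebraically closed field, greedy bound.
-/

namespace Pool.Agent.Work.PDC

open MvPolynomial

section Zero

variable {E : Type*} [Field E] [IsAlgClosed E]

theorem exists_zero_type {ι τ : Type*} [Fintype ι] [Fintype τ]
    (hc : Fintype.card ι < Fintype.card τ) (P : ι → MvPolynomial τ E)
    (h0 : ∀ i, eval 0 (P i) = 0) :
    ∃ c : τ → E, c ≠ 0 ∧ ∀ i, eval c (P i) = 0 := by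
  obtain ⟨c, hc0, hc1⟩ := PD.exists_common_zero hc
    (fun i => rename (Fintype.equivFin τ) (P ((Fintype.equivFin ι).symm i))) (fun i => by
      rw [eval_rename]
      exact h0 _)
  refine ⟨fun t => c (Fintype.equivFin τ t), ?_, fun i => ?_⟩
  · intro h
    apply hc0
    funext j
    have := congrFun h ((Fintype.equivFin τ).symm j)
    simpa using this
  · have := hc1 (Fintype.equivFin ι i)
    rw [Equiv.symm_apply_apply, eval_rename] at this
    exact this

end Zero

section Ug

variable {E : Type*} [Field E] {σ : Type*} {j : ℕ}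

/-- the universal vector -/
noncomputable def Ug (e : Fin j → σ → E) {S : Type*} [CommRing S] [Algebra E S] (x : σ → S) :
    σ → MvPolynomial (Fin (j + 1)) S :=
  fun l => ∑ m : Fin j, X m.castSucc * C (algebraMap E S (e m l)) + X (Fin.last j) * C (x l)

/-- the polynomial on the universal vector -/
noncomputable def gS (e : Fin j → σ → E) {S : Type*} [CommRing S] [Algebra E S] (x : σ → S)
    (G : MvPolynomial σ E) : MvPolynomial (Fin (j + 1)) S := aeval (Ug e x) G

variable {S T : Type*} [CommRing S] [Algebra E S] [CommRing T] [Algebra E T]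

theorem map_gS (e : Fin j → σ → E) (x : σ → S) (G : MvPolynomial σ E) (ψ : S →ₐ[E] T) :
    map (ψ : S →+* T) (gS e x G) = gS e (fun l => ψ (x l)) G := by
  have h1 := map_aeval' (MvPolynomial.mapAlgHom (σ := Fin (j + 1)) ψ) G (Ug e x)
  have h2 : (MvPolynomial.mapAlgHom (σ := Fin (j + 1)) ψ) (aeval (Ug e x) G) =
      map (ψ : S →+* T) (gS e x G) := rfl
  rw [← h2, h1]
  unfold gS
  congr 2
  funext l
  show map (ψ : S →+* T) (Ug e x l) = _
  simp only [Ug, map_add, map_sum, map_mul, map_X, map_C]
  congr 1
  refine Finset.sum_congr rfl fun m _ => ?_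
  congr 2
  exact ψ.commutes _

theorem hom_gS (e : Fin j → σ → E) (x : σ → S) {d : ℕ} {G : MvPolynomial σ E}
    (hG : G.IsHomogeneous d) : (gS e x G).IsHomogeneous d := by
  have hU : ∀ l, (Ug e x l).IsHomogeneous 1 := by
    intro l
    refine IsHomogeneous.add (IsHomogeneous.sum _ _ _ fun m _ => ?_) ?_
    · simpa using (isHomogeneous_X S m.castSucc).mul (isHomogeneous_C (Fin (j + 1)) _)
    · simpa using (isHomogeneous_X S (Fin.last j)).mul (isHomogeneous_C (Fin (j + 1)) _)
  refine hom_ind (P := fun G => (gS e x G).IsHomogeneous d) d ?_ ?_ ?_ ?_ G hG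
  · simp only [gS, map_zero]
    exact isHomogeneous_zero _ _ _
  · intro p q hp hq
    simp only [gS, map_add]
    exact hp.add hq
  · intro c p hp
    simp only [gS, map_mul, aeval_C]
    have : (algebraMap E (MvPolynomial (Fin (j + 1)) S)) c = C (algebraMap E S c) := rfl
    rw [this]
    have h2 := (isHomogeneous_C (Fin (j + 1)) (algebraMap E S c)).mul hp
    rw [zero_add] at h2
    exact h2
  · intro t
    simp only [gS, map_prod, aeval_X]
    have := IsHomogeneous.prod (Finset.univ : Finset (Fin d)) (fun i => Ug e x (t i)) (fun _ => 1)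
      (fun i _ => hU (t i))
    simpa using this

theorem eval_gS (e : Fin j → σ → E) (x : σ → E) (G : MvPolynomial σ E) (c : Fin (j + 1) → E) :
    eval c (gS e x G) =
      aeval (fun l => ∑ m : Fin j, c m.castSucc * e m l + c (Fin.last j) * x l) G := by
  have h1 := map_aeval' (aeval c : MvPolynomial (Fin (j + 1)) E →ₐ[E] E) G (Ug e x)
  rw [MvPolynomial.aeval_eq_eval] at h1
  have h2 : eval c (gS e x G) =
      aeval (fun l => (aeval c : MvPolynomial (Fin (j + 1)) E →ₐ[E] E) (Ug e x l)) G := h1
  rw [h2]
  congr 2
  funext l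
  simp only [Ug, map_add, map_sum, map_mul, aeval_X, aeval_C]
  rfl

/-- setting the last variable to zero -/
noncomputable def th (S : Type*) [CommRing S] (j : ℕ) :
    MvPolynomial (Fin (j + 1)) S →ₐ[S] MvPolynomial (Fin (j + 1)) S :=
  aeval (fun m => if m = Fin.last j then 0 else X m)

theorem coeff_th (f : MvPolynomial (Fin (j + 1)) S) (α : Fin (j + 1) →₀ ℕ) :
    coeff α (th S j f) = if α (Fin.last j) = 0 then coeff α f else 0 := by
  classical
  induction f using MvPolynomial.induction_on' with
  | monomial β c =>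
    have h1 : th S j (monomial β c) = if β (Fin.last j) = 0 then monomial β c else 0 := by
      unfold th
      rw [aeval_monomial, Finsupp.prod_fintype _ _ (by intro i; simp)]
      split_ifs with hβ
      · rw [monomial_eq, Finsupp.prod_fintype _ _ (by intro i; simp)]
        congr 1
        refine Finset.prod_congr rfl fun m _ => ?_
        split_ifs with hm
        · rw [hm, hβ]; simp
        · rfl
      · rw [Finset.prod_eq_zero (Finset.mem_univ (Fin.last j)), mul_zero]
        rw [if_pos rfl, zero_pow hβ]
    rw [h1]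
    by_cases hα : α (Fin.last j) = 0
    · rw [if_pos hα]
      by_cases hβ : β (Fin.last j) = 0
      · rw [if_pos hβ]
      · rw [if_neg hβ, coeff_zero, coeff_monomial, if_neg]
        rintro rfl
        exact hβ hα
    · rw [if_neg hα]
      by_cases hβ : β (Fin.last j) = 0
      · rw [if_pos hβ, coeff_monomial, if_neg]
        rintro rfl
        exact hα hβ
      · rw [if_neg hβ, coeff_zero]
  | add p q hp hq =>
    rw [map_add, coeff_add, coeff_add, hp, hq]
    split_ifs <;> simp

theorem th_gS (e : Fin j → σ → E) (x : σ → S) (G : MvPolynomial σ E) :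
    th S j (gS e x G) = gS e (0 : σ → S) G := by
  have h1 := map_aeval' ((th S j).restrictScalars E) G (Ug e x)
  have h2 : ((th S j).restrictScalars E) (aeval (Ug e x) G) = th S j (gS e x G) := rfl
  rw [← h2, h1]
  unfold gS
  congr 2
  funext l
  show th S j (Ug e x l) = _
  simp only [Ug, th, map_add, map_sum, map_mul, aeval_X]
  have h3 : ∀ c : S, (aeval fun m => if m = Fin.last j then (0 : MvPolynomial (Fin (j + 1)) S)
      else X m) (C c) = C c := by
    intro c
    rw [aeval_C]; rfl
  simp only [h3]
  simp [Fin.castSucc_ne_last]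

/-- coefficients at the zero vector -/
theorem coeff_gS_zero (e : Fin j → σ → E) (G : MvPolynomial σ E) (α : Fin (j + 1) →₀ ℕ)
    (hα : α (Fin.last j) ≠ 0) : coeff α (gS e (0 : σ → S) G) = 0 := by
  rw [← th_gS e (0 : σ → S) G, coeff_th, if_neg hα]

end Ug

section Step

variable {E : Type*} [Field E] [IsAlgClosed E] {σ : Type*} [Fintype σ] {ι : Type*} [Fintype ι]

/-- one step -/
theorem space_step (G : ι → MvPolynomial σ E) (d : ι → ℕ) (hG : ∀ i, (G i).IsHomogeneous (d i))
    (hd : ∀ i, 1 ≤ d i) (j : ℕ)
    (hcard : (∑ i, (j + d i - 1).choose (d i - 1)) + j < Fintype.card σ)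
    (e : Fin j → σ → E) (he : LinearIndependent E e)
    (hiso : ∀ (i : ι) (c : Fin j → E), aeval (fun l => ∑ m, c m * e m l) (G i) = 0) :
    ∃ e' : Fin (j + 1) → σ → E, LinearIndependent E e' ∧
      ∀ (i : ι) (c : Fin (j + 1) → E), aeval (fun l => ∑ m, c m * e' m l) (G i) = 0 := by
  classical
  obtain ⟨g, hg⟩ := LinearMap.exists_leftInverse_of_injective (Fintype.linearCombination E e)
    (LinearMap.ker_eq_bot.mpr (linearIndependent_iff_injective_fintypeLinearCombination.mp he))
  let β : (n : ℕ) → Sym (Fin (j + 1)) n → (Fin (j + 1) →₀ ℕ) := fun n s =>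
    Multiset.toFinsupp (s : Multiset (Fin (j + 1))) + Finsupp.single (Fin.last j) 1
  obtain ⟨x, hx0, hx⟩ := exists_zero_type (E := E) (τ := σ)
    (ι := (Σ i : ι, Sym (Fin (j + 1)) (d i - 1)) ⊕ Fin j) (by
      rw [Fintype.card_sum, Fintype.card_sigma, Fintype.card_fin]
      refine lt_of_eq_of_lt ?_ hcard
      congr 1
      refine Finset.sum_congr rfl fun i _ => ?_
      rw [Sym.card_sym_eq_choose, Fintype.card_fin]
      congr 1
      have := hd i
      omega)
    (Sum.elim (fun s => coeff (β _ s.2) (gS e (X : σ → MvPolynomial σ E) (G s.1)))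
      (fun m => ∑ l, C (g (Pi.single l 1) m) * X l)) (by
      rintro (⟨i, s⟩ | m)
      · simp only [Sum.elim_inl]
        have h1 := map_gS e (X : σ → MvPolynomial σ E) (G i)
          (aeval (0 : σ → E) : MvPolynomial σ E →ₐ[E] E)
        have h2 := congrArg (coeff (β _ s)) h1
        rw [coeff_map] at h2
        simp only [aeval_X] at h2
        have h3 : coeff (β _ s) (gS e (fun l => (0 : σ → E) l) (G i)) = 0 :=
          coeff_gS_zero e (G i) _ (by simp [β])
        rw [h3] at h2
        rw [← h2, ← MvPolynomial.aeval_eq_eval]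
        rfl
      · simp)
  have hgx : g x = 0 := by
    funext m
    have h1 := hx (Sum.inr m)
    simp only [Sum.elim_inr, map_sum, map_mul, eval_C, eval_X] at h1
    have h2 : g x = ∑ l, x l • g (Pi.single l 1) := by
      conv_lhs => rw [pi_eq_sum_univ' x]
      rw [map_sum]
      refine Finset.sum_congr rfl fun l _ => ?_
      rw [map_smul]
    rw [h2, Finset.sum_apply, Pi.zero_apply, ← h1]
    refine Finset.sum_congr rfl fun l _ => ?_
    rw [Pi.smul_apply, smul_eq_mul, mul_comm]
  have hspan : x ∉ Submodule.span E (Set.range e) := by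
    intro h
    rw [← Fintype.range_linearCombination E] at h
    obtain ⟨c, hc⟩ := h
    have h1 : g (Fintype.linearCombination E e c) = c := LinearMap.congr_fun hg c
    rw [hc, hgx] at h1
    apply hx0
    rw [← hc, ← h1, map_zero]
  have hzero : ∀ i, gS e x (G i) = 0 := by
    intro i
    have hz : gS e (0 : σ → E) (G i) = 0 := by
      apply MvPolynomial.funext
      intro c
      rw [eval_gS, map_zero, ← hiso i (fun m => c m.castSucc)]
      congr 2
      funext l
      simp
    ext α
    rw [coeff_zero]
    by_cases hα : α (Fin.last j) = 0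
    · have h1 := coeff_th (gS e x (G i)) α
      rw [if_pos hα, th_gS, hz, coeff_zero] at h1
      exact h1.symm
    · by_cases hdeg : α.degree = d i
      · have hle : Finsupp.single (Fin.last j) 1 ≤ α := by
          rw [Finsupp.single_le_iff]
          omega
        let γ : Fin (j + 1) →₀ ℕ := α - Finsupp.single (Fin.last j) 1
        have hγ : γ + Finsupp.single (Fin.last j) 1 = α := tsub_add_cancel_of_le hle
        have hγd : (Finsupp.toMultiset γ).card = d i - 1 := by
          rw [Finsupp.card_toMultiset]
          have h1 : (γ + Finsupp.single (Fin.last j) 1).degree = d i := by rw [hγ, hdeg]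
          rw [map_add, Finsupp.degree_single] at h1
          have h2 : γ.degree = γ.sum fun _ => id := rfl
          omega
        have h1 := hx (Sum.inl ⟨i, ⟨Finsupp.toMultiset γ, hγd⟩⟩)
        simp only [Sum.elim_inl] at h1
        have h2 : β (d i - 1) ⟨Finsupp.toMultiset γ, hγd⟩ = α := by
          show Multiset.toFinsupp (Finsupp.toMultiset γ) + Finsupp.single (Fin.last j) 1 = α
          rw [Finsupp.toMultiset_toFinsupp, hγ]
        rw [h2] at h1
        have h3 := map_gS e (X : σ → MvPolynomial σ E) (G i)
          (aeval x : MvPolynomial σ E →ₐ[E] E)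
        have h4 := congrArg (coeff α) h3
        rw [coeff_map] at h4
        simp only [aeval_X] at h4
        rw [← h4, ← h1, ← MvPolynomial.aeval_eq_eval]
        rfl
      · exact (hom_gS e x (hG i)).coeff_eq_zero (by
          intro h
          apply hdeg
          rw [← h]
          )
  refine ⟨Fin.snoc e x, linearIndependent_finSnoc.mpr ⟨he, hspan⟩, ?_⟩
  intro i c
  have h1 := eval_gS e x (G i) c
  rw [hzero, map_zero] at h1
  rw [h1]
  congr 2
  funext l
  rw [Fin.sum_univ_castSucc]
  simp

/-- linear subspaces of a complete intersection -/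
theorem exists_space (G : ι → MvPolynomial σ E) (d : ι → ℕ) (hG : ∀ i, (G i).IsHomogeneous (d i))
    (hd : ∀ i, 1 ≤ d i) (r : ℕ)
    (hcard : (∑ i, (r + d i - 2).choose (d i - 1)) + r ≤ Fintype.card σ) :
    ∃ e : Fin r → σ → E, LinearIndependent E e ∧
      ∀ (i : ι) (c : Fin r → E), aeval (fun l => ∑ j, c j * e j l) (G i) = 0 := by
  have key : ∀ j ≤ r, ∃ e : Fin j → σ → E, LinearIndependent E e ∧
      ∀ (i : ι) (c : Fin j → E), aeval (fun l => ∑ m, c m * e m l) (G i) = 0 := by
    intro j
    induction j with
    | zero =>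
      intro _
      refine ⟨fun m => m.elim0, linearIndependent_empty_type, ?_⟩
      intro i c
      simp only [Finset.univ_eq_empty, Finset.sum_empty]
      have := aeval_smul_gen (hG i) (0 : σ → E) 0
      have hdi := hd i
      rw [smul_zero, zero_pow (by omega), zero_mul] at this
      exact this
    | succ j ih =>
      intro hj
      obtain ⟨e, he, hiso⟩ := ih (by omega)
      refine space_step G d hG hd j ?_ e he hiso
      have h1 : ∑ i, (j + d i - 1).choose (d i - 1) ≤ ∑ i, (r + d i - 2).choose (d i - 1) := by
        refine Finset.sum_le_sum fun i _ => Nat.choose_le_choose _ ?_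
        have := hd i
        omega
      omega
  exact key r le_rfl

end Step

end Pool.Agent.Work.PDC
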