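import Mathlib
import Pool.Agent.Work.MP_b62148_ag.CI.LemmaA

/-!
Linear algebra of pencils of quadrics along an isotropic line.
-/

namespace Pool.Agent.Work.PDC

section Count

variable {E V : Type*} [Field E] [AddCommGroup V] [Module E V] [FiniteDimensional E V]

/-- independent functionals vanishing on independent vectors -/
theorem card_le_of_vanish {m l : Type*} [Fintype m] [Fintype l] [DecidableEq l] (n : m → V)
    (hn : LinearIndependent E n) (f : l → V →ₗ[E] E)
    (hf : ∀ a : l → E, (∀ v, ∑ i, a i * f i v = 0) → a = 0) (h : ∀ i j, f i (n j) = 0) :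
    Fintype.card m + Fintype.card l ≤ Module.finrank E V := by
  classical
  obtain ⟨u, hu⟩ := exists_dual f hf
  have hsur : LinearMap.range (LinearMap.pi f) = ⊤ := by
    rw [LinearMap.range_eq_top]
    intro x
    refine ⟨∑ j, x j • u j, ?_⟩
    rw [map_sum]
    funext i
    rw [Finset.sum_apply]
    simp only [map_smul, LinearMap.pi_apply, Pi.smul_apply, smul_eq_mul]
    have : ∀ j, x j * (f i) (u j) = if i = j then x j else 0 := by
      intro j
      rw [hu i j, mul_ite, mul_one, mul_zero]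
    simp only [this]
    rw [Finset.sum_ite_eq]
    simp
  have h1 := LinearMap.finrank_range_add_finrank_ker (LinearMap.pi f)
  rw [hsur, finrank_top, Module.finrank_fintype_fun_eq_card] at h1
  have h2 : Submodule.span E (Set.range n) ≤ LinearMap.ker (LinearMap.pi f) := by
    rw [Submodule.span_le]
    rintro _ ⟨j, rfl⟩
    show n j ∈ LinearMap.ker (LinearMap.pi f)
    rw [LinearMap.mem_ker]
    funext i
    exact h i j
  have h3 := Submodule.finrank_mono h2
  rw [finrank_span_eq_card hn] at h3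
  omega

end Count

section Rank

variable {E : Type*} [Field E]

theorem rank_one (τ : Fin 2 → Fin 2 → E) (hdet : τ 0 0 * τ 1 1 - τ 0 1 * τ 1 0 = 0)
    (hτ : τ ≠ 0) : ∃ α π : Fin 2 → E, α ≠ 0 ∧ π ≠ 0 ∧ ∀ i p, τ i p = α i * π p := by
  obtain ⟨i0, hi0⟩ := Function.ne_iff.mp hτ
  obtain ⟨p0, hp0⟩ := Function.ne_iff.mp hi0
  simp only [Pi.zero_apply] at hp0
  have hall : ∀ i j p q, τ i p * τ j q = τ i q * τ j p := by
    intro i j p q
    fin_cases i <;> fin_cases j <;> fin_cases p <;> fin_cases q <;>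
      first
        | rfl
        | (simp only [Fin.zero_eta, Fin.mk_one, Fin.isValue]; ring1)
        | (simp only [Fin.zero_eta, Fin.mk_one, Fin.isValue]; linear_combination hdet)
        | (simp only [Fin.zero_eta, Fin.mk_one, Fin.isValue]; linear_combination -hdet)
  refine ⟨fun i => τ i p0, fun p => τ i0 p / τ i0 p0, ?_, ?_, ?_⟩
  · intro h
    exact hp0 (congrFun h i0)
  · intro h
    have := congrFun h p0
    simp only [Pi.zero_apply, div_self hp0] at this
    exact one_ne_zero this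
  · intro i p
    rw [mul_div_assoc', eq_div_iff hp0]
    exact hall i i0 p p0

theorem exists_det_zero [IsAlgClosed E] (τ x : Fin 2 → Fin 2 → E)
    (hdet : τ 0 0 * τ 1 1 - τ 0 1 * τ 1 0 ≠ 0) :
    ∃ μ : E, (x 0 0 + μ * τ 0 0) * (x 1 1 + μ * τ 1 1) -
      (x 0 1 + μ * τ 0 1) * (x 1 0 + μ * τ 1 0) = 0 := by
  let A := τ 0 0 * τ 1 1 - τ 0 1 * τ 1 0
  let B := x 0 0 * τ 1 1 + τ 0 0 * x 1 1 - x 0 1 * τ 1 0 - τ 0 1 * x 1 0
  let Cc := x 0 0 * x 1 1 - x 0 1 * x 1 0
  have hdeg : (Polynomial.C A * Polynomial.X ^ 2 + Polynomial.C B * Polynomial.X +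
      Polynomial.C Cc).degree ≠ 0 := by
    rw [Polynomial.degree_quadratic hdet]
    decide
  obtain ⟨μ, hμ⟩ := IsAlgClosed.exists_root _ hdeg
  refine ⟨μ, ?_⟩
  have h1 : A * μ ^ 2 + B * μ + Cc = 0 := by
    simpa [Polynomial.IsRoot] using hμ
  simp only [A, B, Cc] at h1
  linear_combination h1

end Rank

section Pencil

variable {E V : Type*} [Field E] [IsAlgClosed E] [AddCommGroup V] [Module E V]
  [FiniteDimensional E V]

/-- an isotropic line of a pencil of quadrics with smooth base locus along the line -/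
structure Iso2 (b : Fin 2 → LinearMap.BilinForm E V) (y : Fin 2 → V) : Prop where
  symm : ∀ i u v, b i u v = b i v u
  ind : LinearIndependent E y
  iso : ∀ i p q, b i (y p) (y q) = 0
  sm : ∀ π : Fin 2 → E, π ≠ 0 → ∀ α : Fin 2 → E,
    (∀ u, ∑ i, α i * b i (∑ p, π p • y p) u = 0) → α = 0

variable {b : Fin 2 → LinearMap.BilinForm E V} {y : Fin 2 → V}

omit [IsAlgClosed E] [FiniteDimensional E V] in
theorem Iso2.no_rank_one (h : Iso2 b y) (τ : Fin 2 → Fin 2 → E)
    (hdet : τ 0 0 * τ 1 1 - τ 0 1 * τ 1 0 = 0)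
    (hrel : ∀ u, ∑ i, ∑ p, τ i p * b i (y p) u = 0) : τ = 0 := by
  by_contra hτ
  obtain ⟨α, π, hα, hπ, hτe⟩ := rank_one τ hdet hτ
  apply hα
  refine h.sm π hπ α ?_
  intro u
  rw [← hrel u]
  refine Finset.sum_congr rfl fun i _ => ?_
  rw [map_sum, LinearMap.sum_apply, Finset.mul_sum]
  refine Finset.sum_congr rfl fun p _ => ?_
  rw [map_smul, LinearMap.smul_apply, smul_eq_mul, hτe]
  ring

/-- the relation along the line -/
theorem Iso2.exists_rel (h : Iso2 b y) (hV : Module.finrank E V ≤ 5) :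
    ∃ τ : Fin 2 → Fin 2 → E, (τ 0 0 * τ 1 1 - τ 0 1 * τ 1 0 ≠ 0) ∧
      (∀ u, ∑ i, ∑ p, τ i p * b i (y p) u = 0) ∧
      ∀ x : Fin 2 → Fin 2 → E, (∀ u, ∑ i, ∑ p, x i p * b i (y p) u = 0) →
        ∃ ν : E, ∀ i p, x i p = ν * τ i p := by
  classical
  have hex : ∃ τ : Fin 2 × Fin 2 → E, (∀ u, ∑ s, τ s * b s.1 (y s.2) u = 0) ∧ τ ≠ 0 := by
    by_contra hcon
    push Not at hcon
    have h1 := card_le_of_vanish y h.ind (fun s : Fin 2 × Fin 2 => b s.1 (y s.2))
      (fun a ha => hcon a ha) (fun s p => h.iso s.1 s.2 p)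
    simp at h1
    omega
  obtain ⟨τ, hτ, hτ0⟩ := hex
  have hrel : ∀ u, ∑ i, ∑ p, τ (i, p) * b i (y p) u = 0 := by
    intro u
    have := hτ u
    rw [Fintype.sum_prod_type] at this
    exact this
  have hdet : τ (0, 0) * τ (1, 1) - τ (0, 1) * τ (1, 0) ≠ 0 := by
    intro h0
    apply hτ0
    have := h.no_rank_one (fun i p => τ (i, p)) h0 hrel
    funext ⟨i, p⟩
    exact congrFun (congrFun this i) p
  refine ⟨fun i p => τ (i, p), hdet, hrel, ?_⟩
  intro x hx
  obtain ⟨μ, hμ⟩ := exists_det_zero (fun i p => τ (i, p)) x hdet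
  have h1 := h.no_rank_one (fun i p => x i p + μ * τ (i, p)) hμ (by
    intro u
    have h2 : ∀ i p, (x i p + μ * τ (i, p)) * b i (y p) u =
        x i p * b i (y p) u + μ * (τ (i, p) * b i (y p) u) := fun i p => by ring
    simp only [h2, Finset.sum_add_distrib, ← Finset.mul_sum]
    rw [hx u, hrel u, mul_zero, add_zero])
  refine ⟨-μ, fun i p => ?_⟩
  have := congrFun (congrFun h1 i) p
  simp only [Pi.zero_apply] at this
  linear_combination this

/-- no such line in dimension four -/
theorem Iso2.false_of_four (h : Iso2 b y) (hV : Module.finrank E V ≤ 4) : False := by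
  classical
  obtain ⟨τ, hdet, hrel, huniq⟩ := h.exists_rel (by omega)
  have hz : ∀ i0 p0, τ i0 p0 = 0 := by
    intro i0 p0
    have hex : ∃ x : {s : Fin 2 × Fin 2 // s ≠ (i0, p0)} → E,
        (∀ u, ∑ s, x s * b s.1.1 (y s.1.2) u = 0) ∧ x ≠ 0 := by
      by_contra hcon
      push Not at hcon
      have h1 := card_le_of_vanish y h.ind
        (fun s : {s : Fin 2 × Fin 2 // s ≠ (i0, p0)} => b s.1.1 (y s.1.2))
        (fun a ha => hcon a ha) (fun s p => h.iso s.1.1 s.1.2 p)
      have h2 : Fintype.card {s : Fin 2 × Fin 2 // s ≠ (i0, p0)} = 3 := by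
        rw [Fintype.card_subtype_compl, Fintype.card_subtype_eq]
        simp
      rw [h2, Fintype.card_fin] at h1
      omega
    obtain ⟨x, hx, hx0⟩ := hex
    let X : Fin 2 → Fin 2 → E := fun i p =>
      if hs : ((i, p) : Fin 2 × Fin 2) ≠ (i0, p0) then x ⟨(i, p), hs⟩ else 0
    have hX : ∀ u, ∑ i, ∑ p, X i p * b i (y p) u = 0 := by
      intro u
      rw [← hx u, ← Fintype.sum_prod_type' (fun i p => X i p * b i (y p) u),
        Fintype.sum_eq_add_sum_subtype_ne _ ((i0, p0) : Fin 2 × Fin 2)]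
      have h5 : X i0 p0 = 0 := by simp [X]
      simp only [h5, zero_mul, zero_add]
      refine Finset.sum_congr rfl fun s _ => ?_
      obtain ⟨⟨i, p⟩, hs⟩ := s
      simp only [X, dif_pos hs]
    obtain ⟨ν, hν⟩ := huniq X hX
    have hν0 : ν ≠ 0 := by
      rintro rfl
      apply hx0
      funext ⟨⟨i, p⟩, hs⟩
      have := hν i p
      simp only [X, dif_pos hs, zero_mul] at this
      exact this
    have h3 := hν i0 p0
    have h4 : X i0 p0 = 0 := by simp [X]
    rw [h4] at h3
    exact (mul_eq_zero.mp h3.symm).resolve_left hν0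
  apply hdet
  rw [hz, hz 0 1]
  ring

/-- no first order motion of the line moving the first point -/
theorem Iso2.section (h : Iso2 b y) (hV : Module.finrank E V ≤ 5) (z : Fin 2 → V)
    (hz : ∀ i p q, b i (z p) (y q) + b i (y p) (z q) = 0) (h2 : (2 : E) ≠ 0) :
    z 0 ∈ Submodule.span E (Set.range y) := by
  classical
  by_contra hmem
  obtain ⟨τ, hdet, hrel, huniq⟩ := h.exists_rel hV
  have hself : ∀ i p, b i (y p) (z p) = 0 := by
    intro i p
    have h1 := hz i p p
    rw [h.symm] at h1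
    have h3 : 2 * b i (y p) (z p) = 0 := by linear_combination h1
    exact (mul_eq_zero.mp h3).resolve_left h2
  -- the three functionals
  let f : Fin 3 → V →ₗ[E] E := ![∑ i, τ i 0 • b i (y 0), ∑ i, τ i 1 • b i (y 0),
    ∑ i, τ i 0 • b i (y 1)]
  have f0 : ∀ u, f 0 u = ∑ i, τ i 0 * b i (y 0) u := by
    intro u
    simp [f, LinearMap.sum_apply]
  have f1 : ∀ u, f 1 u = ∑ i, τ i 1 * b i (y 0) u := by
    intro u
    simp [f, LinearMap.sum_apply]
  have f2 : ∀ u, f 2 u = ∑ i, τ i 0 * b i (y 1) u := by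
    intro u
    simp [f, LinearMap.sum_apply]
  have hn : LinearIndependent E (Fin.snoc y (z 0) : Fin 3 → V) :=
    linearIndependent_finSnoc.mpr ⟨h.ind, hmem⟩
  have hfy : ∀ j q, f j (y q) = 0 := by
    intro j q
    fin_cases j
    · show f 0 (y q) = 0
      rw [f0]; simp [h.iso]
    · show f 1 (y q) = 0
      rw [f1]; simp [h.iso]
    · show f 2 (y q) = 0
      rw [f2]; simp [h.iso]
  have hfz : ∀ j, f j (z 0) = 0 := by
    intro j
    fin_cases j
    · show f 0 (z 0) = 0
      rw [f0]; simp [hself]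
    · show f 1 (z 0) = 0
      rw [f1]; simp [hself]
    · show f 2 (z 0) = 0
      rw [f2]
      have h1 := hrel (z 1)
      have h3 : ∀ i, b i (y 1) (z 0) = - b i (y 0) (z 1) := by
        intro i
        have h4 := hz i 0 1
        rw [h.symm] at h4
        linear_combination h4
      simp only [Fin.sum_univ_two, hself, mul_zero, add_zero] at h1
      simp only [Fin.sum_univ_two, h3]
      linear_combination -h1
  have hcount := card_le_of_vanish (Fin.snoc y (z 0) : Fin 3 → V) hn f (by
    intro a ha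
    obtain ⟨ν, hν⟩ := huniq (fun i p => if p = 0 then a 0 * τ i 0 + a 1 * τ i 1 else a 2 * τ i 0)
      (by
        intro u
        have h1 := ha u
        rw [Fin.sum_univ_three, f0, f1, f2] at h1
        simp only [Fin.sum_univ_two] at h1 ⊢
        simp only [Fin.isValue, one_ne_zero, if_true, if_false]
        linear_combination h1)
    have e1 := hν 0 0
    have e2 := hν 1 0
    have e3 := hν 0 1
    have e4 := hν 1 1
    simp only [Fin.isValue, one_ne_zero, if_true, if_false] at e1 e2 e3 e4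
    have hν0 : ν = 0 := by
      have : (τ 0 0 * τ 1 1 - τ 0 1 * τ 1 0) * ν = 0 := by
        linear_combination (-τ 0 0) * e4 + τ 1 0 * e3
      exact (mul_eq_zero.mp this).resolve_left hdet
    have ha2 : a 2 = 0 := by
      have : (τ 0 0 * τ 1 1 - τ 0 1 * τ 1 0) * a 2 = 0 := by
        linear_combination τ 1 1 * e3 - τ 0 1 * e4
      exact (mul_eq_zero.mp this).resolve_left hdet
    rw [hν0] at e1 e2
    have ha1 : a 1 = 0 := by
      have : (τ 0 0 * τ 1 1 - τ 0 1 * τ 1 0) * a 1 = 0 := by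
        linear_combination τ 0 0 * e2 - τ 1 0 * e1
      exact (mul_eq_zero.mp this).resolve_left hdet
    have ha0 : a 0 = 0 := by
      have : (τ 0 0 * τ 1 1 - τ 0 1 * τ 1 0) * a 0 = 0 := by
        linear_combination τ 1 1 * e1 - τ 0 1 * e2
      exact (mul_eq_zero.mp this).resolve_left hdet
    funext j
    fin_cases j
    · exact ha0
    · exact ha1
    · exact ha2) (by
    intro j q
    refine Fin.lastCases ?_ (fun q => ?_) q
    · rw [Fin.snoc_last]; exact hfz j
    · rw [Fin.snoc_castSucc]; exact hfy j q)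
  simp at hcount
  omega

end Pencil

end Pool.Agent.Work.PDC
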