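import Mathlib
import Pool.Agent.Work.MP_b62148_ag.CI.Pencil

/-!
A pencil of quadrics with smooth base locus has a nonsingular member with parameter in a given
infinite subfield.
-/

namespace Pool.Agent.Work.PDC

open Polynomial

theorem exists_nondeg {K E V : Type*} [Field K] [Infinite K] [Field E] [Algebra K E]
    [AddCommGroup V] [Module E V] [FiniteDimensional E V] (b : Fin 2 → LinearMap.BilinForm E V)
    (hsymm : ∀ i u v, b i u v = b i v u)
    (hsm : ∀ s : V, s ≠ 0 → (∀ i, b i s s = 0) → ∀ α : Fin 2 → E,
      (∀ u, ∑ i, α i * b i s u = 0) → α = 0) :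
    ∃ c : K, ∀ s : V, s ≠ 0 → ∃ u, b 0 s u + algebraMap K E c * b 1 s u ≠ 0 := by
  classical
  by_contra hcon
  push Not at hcon
  have hE : Infinite E := Infinite.of_injective (algebraMap K E) (algebraMap K E).injective
  set n := Module.finrank E V with hn
  let B : Module.Basis (Fin n) E V := Module.finBasis E V
  let M : Fin 2 → Matrix (Fin n) (Fin n) E := fun i => Matrix.of fun p q => b i (B p) (B q)
  have hMs : ∀ i p q, M i p q = M i q p := fun i p q => hsymm i _ _
  let P : Matrix (Fin n) (Fin n) E[X] := Matrix.of fun p q => C (M 0 p q) + X * C (M 1 p q)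
  have hP : ∀ p q, P p q = C (M 0 p q) + X * C (M 1 p q) := fun _ _ => rfl
  have hPs : ∀ p q, P p q = P q p := by
    intro p q
    rw [hP, hP, hMs 0, hMs 1]
  -- the determinant vanishes
  have hev : ∀ c : K, eval (algebraMap K E c) P.det = 0 := by
    intro c
    obtain ⟨s, hs0, hs⟩ := hcon c
    have h1 : eval (algebraMap K E c) P.det =
        (Matrix.of fun p q => M 0 p q + algebraMap K E c * M 1 p q).det := by
      have h2 := RingHom.map_det (Polynomial.evalRingHom (algebraMap K E c)) P
      rw [Polynomial.coe_evalRingHom] at h2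
      rw [h2]
      congr 1
      ext p q
      simp only [RingHom.mapMatrix_apply, Matrix.map_apply, Matrix.of_apply, P,
        Polynomial.coe_evalRingHom, eval_add, eval_mul, eval_C, eval_X]
    rw [h1]
    refine Matrix.exists_vecMul_eq_zero_iff.mp ⟨fun p => B.repr s p, ?_, ?_⟩
    · intro h
      apply hs0
      apply B.repr.injective
      rw [map_zero]
      ext p
      exact congrFun h p
    · funext q
      have h2 := hs (B q)
      have h3 : s = ∑ p, B.repr s p • B p := (B.sum_repr s).symm
      have h4 : ∀ i, b i s (B q) = ∑ p, B.repr s p * M i p q := by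
        intro i
        conv_lhs => rw [h3]
        rw [map_sum, LinearMap.sum_apply]
        refine Finset.sum_congr rfl fun p _ => ?_
        rw [map_smul, LinearMap.smul_apply, smul_eq_mul]
        rfl
      rw [h4, h4, Finset.mul_sum, ← Finset.sum_add_distrib] at h2
      simp only [Matrix.vecMul, dotProduct, Matrix.of_apply, Pi.zero_apply]
      rw [← h2]
      refine Finset.sum_congr rfl fun p _ => by ring
  have hdet : P.det = 0 := by
    by_contra hne
    have hfin : Set.Finite {a : E | eval a P.det = 0} := by
      refine (Polynomial.finite_setOfPred_isRoot hne).subset ?_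
      intro a ha
      exact ha
    have hinf : Set.Infinite (Set.range (algebraMap K E)) :=
      Set.infinite_range_of_injective (algebraMap K E).injective
    exact hinf (hfin.subset (by rintro _ ⟨c, rfl⟩; exact hev c))
  obtain ⟨z, hz0, hz⟩ := Matrix.exists_mulVec_eq_zero_iff.mpr hdet
  have hz1 : ∀ q, ∑ p, P q p * z p = 0 := fun q => congrFun hz q
  have hz2 : ∀ q, ∑ p, (C (M 1 q p) * z p + P q p * derivative (z p)) = 0 := by
    intro q
    have h1 : derivative (∑ p, P q p * z p) = 0 := by rw [hz1 q, derivative_zero]
    rw [map_sum] at h1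
    refine Eq.trans (Finset.sum_congr rfl fun p _ => ?_) h1
    have h2 : derivative (P q p) = C (M 1 q p) := by
      rw [hP, derivative_add, derivative_mul, derivative_C, derivative_X, derivative_C]
      ring
    rw [derivative_mul, h2]
  have hR1 : ∑ q, ∑ p, z q * C (M 1 q p) * z p = 0 := by
    have h1 : ∑ q, z q * ∑ p, (C (M 1 q p) * z p + P q p * derivative (z p)) = 0 :=
      Finset.sum_eq_zero fun q _ => by rw [hz2, mul_zero]
    have h2 : ∑ q, z q * ∑ p, P q p * derivative (z p) = 0 := by
      simp only [Finset.mul_sum]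
      rw [Finset.sum_comm]
      refine Finset.sum_eq_zero fun p _ => ?_
      have h3 : ∑ q, z q * (P q p * derivative (z p)) = (∑ q, P p q * z q) * derivative (z p) := by
        rw [Finset.sum_mul]
        refine Finset.sum_congr rfl fun q _ => ?_
        rw [hPs q p]; ring
      rw [h3, hz1, zero_mul]
    simp only [Finset.sum_add_distrib, mul_add] at h1
    rw [h2, add_zero] at h1
    rw [← h1]
    refine Finset.sum_congr rfl fun q _ => ?_
    rw [Finset.mul_sum]
    exact Finset.sum_congr rfl fun p _ => by ring
  have hR0 : ∑ q, ∑ p, z q * C (M 0 q p) * z p = 0 := by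
    have h1 : ∑ q, z q * ∑ p, P q p * z p = 0 :=
      Finset.sum_eq_zero fun q _ => by rw [hz1, mul_zero]
    have h2 : ∑ q, z q * ∑ p, P q p * z p =
        ∑ q, ∑ p, z q * C (M 0 q p) * z p + X * ∑ q, ∑ p, z q * C (M 1 q p) * z p := by
      rw [Finset.mul_sum, ← Finset.sum_add_distrib]
      refine Finset.sum_congr rfl fun q _ => ?_
      rw [Finset.mul_sum, Finset.mul_sum, ← Finset.sum_add_distrib]
      refine Finset.sum_congr rfl fun p _ => ?_
      rw [hP]; ring
    rw [h2, hR1, mul_zero, add_zero] at h1
    exact h1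
  obtain ⟨p0, hp0⟩ := Function.ne_iff.mp hz0
  obtain ⟨a, ha⟩ : ∃ a : E, eval a (z p0) ≠ 0 := by
    by_contra hall
    push Not at hall
    apply hp0
    apply Polynomial.funext
    intro a
    rw [hall a]
    simp
  let s : V := ∑ p, eval a (z p) • B p
  have hs0 : s ≠ 0 := by
    intro h
    apply ha
    exact Fintype.linearIndependent_iff.mp B.linearIndependent (fun p => eval a (z p)) h p0
  have hbs : ∀ i u, b i s u = ∑ p, eval a (z p) * b i (B p) u := by
    intro i u
    simp only [s, map_sum, LinearMap.sum_apply, map_smul, LinearMap.smul_apply, smul_eq_mul]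
  have hbss : ∀ i, b i s s = eval a (∑ q, ∑ p, z q * C (M i q p) * z p) := by
    intro i
    rw [hbs, eval_finsetSum]
    refine Finset.sum_congr rfl fun q _ => ?_
    rw [hsymm, hbs, eval_finsetSum, Finset.mul_sum]
    refine Finset.sum_congr rfl fun p _ => ?_
    rw [eval_mul, eval_mul, eval_C, hsymm]
    show _ = eval a (z q) * b i (B q) (B p) * eval a (z p)
    ring
  have hα := hsm s hs0 (by
    intro i
    rw [hbss]
    fin_cases i
    · show eval a (∑ q, ∑ p, z q * C (M 0 q p) * z p) = 0
      rw [hR0, eval_zero]
    · show eval a (∑ q, ∑ p, z q * C (M 1 q p) * z p) = 0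
      rw [hR1, eval_zero]) ![1, a] (by
    have hlin : ∀ u, ∑ i, (![1, a] : Fin 2 → E) i * b i s u = (b 0 s + a • b 1 s) u := by
      intro u
      simp [Fin.sum_univ_two]
    have hz3 : b 0 s + a • b 1 s = 0 := by
      apply B.ext
      intro q
      rw [LinearMap.zero_apply, ← hlin, Fin.sum_univ_two, hbs, hbs]
      have h1 := congrArg (eval a) (hz1 q)
      rw [eval_finsetSum, eval_zero] at h1
      simp only [Matrix.cons_val_zero, Matrix.cons_val_one, one_mul]
      rw [Finset.mul_sum, ← Finset.sum_add_distrib, ← h1]
      refine Finset.sum_congr rfl fun p _ => ?_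
      rw [hP, eval_mul, eval_add, eval_mul, eval_C, eval_C, eval_X]
      show _ = (b 0 (B q) (B p) + a * b 1 (B q) (B p)) * eval a (z p)
      rw [hsymm 0 (B q), hsymm 1 (B q)]
      ring
    intro u
    rw [hlin, hz3, LinearMap.zero_apply])
  have := congrFun hα 0
  simp at this

end Pool.Agent.Work.PDC
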