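import Mathlib
import Pool.Agent.Work.MP_b62148_ag.CI.Param

/-!
Residual quadrics of cubic forms containing a linear space.
-/

namespace Pool.Agent.Work.PDC

open MvPolynomial

section Cubic

variable {K : Type*} [Field K] {σ : Type*} [Fintype σ] {R : Type*} [CommRing R] [Algebra K R]

theorem tri_lin {C : MvPolynomial σ K} (hC : C.IsHomogeneous 3) (x x' u v : σ → R) (a b : R) :
    hh C (a • x + b • x') u v = a * hh C x u v + b * hh C x' u v := by
  refine hom_ind (P := fun C => hh C (a • x + b • x') u v = a * hh C x u v + b * hh C x' u v)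
    3 ?_ ?_ ?_ ?_ C hC
  · simp [hh_zero]
  · intro p q hp hq
    rw [hh_add, hh_add, hh_add, hp, hq]; ring
  · intro c p hp
    rw [hh_Cmul, hh_Cmul, hh_Cmul, hp]; ring
  · intro t
    simp only [Fin.prod_univ_three, map_mul, aeval_X, dd_mul, dd_X, hh_mul, hh_X, Pi.add_apply,
      Pi.smul_apply, smul_eq_mul]
    ring

theorem tri_comm {C : MvPolynomial σ K} (hC : C.IsHomogeneous 3) (x u v : σ → R) :
    hh C x u v = hh C u x v := by
  refine hom_ind (P := fun C => hh C x u v = hh C u x v) 3 ?_ ?_ ?_ ?_ C hC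
  · simp [hh_zero]
  · intro p q hp hq
    rw [hh_add, hh_add, hp, hq]
  · intro c p hp
    rw [hh_Cmul, hh_Cmul, hp]
  · intro t
    simp only [Fin.prod_univ_three, map_mul, aeval_X, dd_mul, dd_X, hh_mul, hh_X]
    ring

theorem tri_two {C : MvPolynomial σ K} (hC : C.IsHomogeneous 3) (x y : σ → R) :
    hh C x x y = 2 * dd C x y := by
  refine hom_ind (P := fun C => hh C x x y = 2 * dd C x y) 3 ?_ ?_ ?_ ?_ C hC
  · simp [hh_zero, dd_zero]
  · intro p q hp hq
    rw [hh_add, dd_add, hp, hq]; ring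
  · intro c p hp
    rw [hh_Cmul, dd_Cmul, hp]; ring
  · intro t
    simp only [Fin.prod_univ_three, map_mul, aeval_X, dd_mul, dd_X, hh_mul, hh_X]
    ring

theorem tri_dd {C : MvPolynomial σ K} (hC : C.IsHomogeneous 3) (x y z : σ → R) (s t : R) :
    dd C (x + t • y) (z + s • y) = dd C x z + s * dd C x y + t * hh C y x z +
      2 * s * t * dd C y x + t ^ 2 * dd C y z + 3 * s * t ^ 2 * aeval y C := by
  refine hom_ind (P := fun C => dd C (x + t • y) (z + s • y) = dd C x z + s * dd C x y +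
      t * hh C y x z + 2 * s * t * dd C y x + t ^ 2 * dd C y z + 3 * s * t ^ 2 * aeval y C)
      3 ?_ ?_ ?_ ?_ C hC
  · simp [hh_zero, dd_zero]
  · intro p q hp hq
    rw [hh_add, dd_add, dd_add, dd_add, dd_add, dd_add, map_add, hp, hq]; ring
  · intro c p hp
    rw [hh_Cmul, dd_Cmul, dd_Cmul, dd_Cmul, dd_Cmul, dd_Cmul, map_mul, hp, aeval_C]; ring
  · intro w
    simp only [Fin.prod_univ_three, map_mul, aeval_X, dd_mul, dd_X, hh_mul, hh_X, Pi.add_apply,
      Pi.smul_apply, smul_eq_mul]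
    ring

theorem tri_dd2 {C : MvPolynomial σ K} (hC : C.IsHomogeneous 3) (x x' y : σ → R) (a b : R) :
    dd C (a • x + b • x') y = a ^ 2 * dd C x y + a * b * hh C y x x' + b ^ 2 * dd C x' y := by
  refine hom_ind (P := fun C => dd C (a • x + b • x') y = a ^ 2 * dd C x y +
      a * b * hh C y x x' + b ^ 2 * dd C x' y) 3 ?_ ?_ ?_ ?_ C hC
  · simp [hh_zero, dd_zero]
  · intro p q hp hq
    rw [hh_add, dd_add, dd_add, dd_add, hp, hq]; ring
  · intro c p hp
    rw [hh_Cmul, dd_Cmul, dd_Cmul, dd_Cmul, hp]; ring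
  · intro w
    simp only [Fin.prod_univ_three, map_mul, aeval_X, dd_mul, dd_X, hh_mul, hh_X, Pi.add_apply,
      Pi.smul_apply, smul_eq_mul]
    ring

theorem duo_dd {Q : MvPolynomial σ K} (hQ : Q.IsHomogeneous 2) (x y z : σ → R) (s t : R) :
    dd Q (x + t • y) (z + s • y) = dd Q x z + s * dd Q y x + t * dd Q y z +
      2 * s * t * aeval y Q := by
  refine hom_ind (P := fun Q => dd Q (x + t • y) (z + s • y) = dd Q x z + s * dd Q y x +
      t * dd Q y z + 2 * s * t * aeval y Q) 2 ?_ ?_ ?_ ?_ Q hQ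
  · simp [dd_zero]
  · intro p q hp hq
    rw [dd_add, dd_add, dd_add, dd_add, map_add, hp, hq]; ring
  · intro c p hp
    rw [dd_Cmul, dd_Cmul, dd_Cmul, dd_Cmul, map_mul, hp, aeval_C]; ring
  · intro w
    simp only [Fin.prod_univ_two, map_mul, aeval_X, dd_mul, dd_X, Pi.add_apply,
      Pi.smul_apply, smul_eq_mul]
    ring

end Cubic

section Res

variable {K : Type*} [Field K] {σ : Type*} [Fintype σ] {R : Type*} [CommRing R] [Algebra K R]
  {r : ℕ}

/-- the vector with coordinates `u` in the span of the linear space and `ζ` -/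
noncomputable def vec (e : Fin r → σ → K) (ζ : σ → R) (u : (Fin r → R) × R) : σ → R :=
  emb e u.1 + u.2 • ζ

/-- residual quadratic form -/
noncomputable def RR (C : MvPolynomial σ K) (e : Fin r → σ → K) (ζ : σ → R)
    (u : (Fin r → R) × R) : R :=
  dd C (emb e u.1) ζ + u.2 * dd C ζ (emb e u.1) + u.2 ^ 2 * aeval ζ C

/-- its polar form -/
noncomputable def bb (C : MvPolynomial σ K) (e : Fin r → σ → K) (ζ : σ → R)
    (u v : (Fin r → R) × R) : R :=
  hh C ζ (emb e u.1) (emb e v.1) + u.2 * dd C ζ (emb e v.1) + v.2 * dd C ζ (emb e u.1) +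
    2 * u.2 * v.2 * aeval ζ C

/-- residual linear form -/
noncomputable def LL (Q : MvPolynomial σ K) (e : Fin r → σ → K) (ζ : σ → R)
    (u : (Fin r → R) × R) : R :=
  dd Q ζ (emb e u.1) + u.2 * aeval ζ Q

theorem bb_comm (C : MvPolynomial σ K) (e : Fin r → σ → K) (ζ : σ → R) (u v : (Fin r → R) × R) :
    bb C e ζ u v = bb C e ζ v u := by
  unfold bb
  rw [hh_comm]; ring

theorem bb_add_right (C : MvPolynomial σ K) (e : Fin r → σ → K) (ζ : σ → R)
    (u v w : (Fin r → R) × R) : bb C e ζ u (v + w) = bb C e ζ u v + bb C e ζ u w := by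
  unfold bb
  rw [Prod.fst_add, Prod.snd_add, emb_add, hh_add_right, dd_add_right]; ring

theorem bb_smul_right (C : MvPolynomial σ K) (e : Fin r → σ → K) (ζ : σ → R)
    (u v : (Fin r → R) × R) (s : R) : bb C e ζ u (s • v) = s * bb C e ζ u v := by
  unfold bb
  rw [Prod.smul_fst, Prod.smul_snd, emb_smul, hh_smul_right, dd_smul_right, smul_eq_mul]; ring

/-- the polar form as a bilinear form -/
noncomputable def bbB (C : MvPolynomial σ K) (e : Fin r → σ → K) (ζ : σ → R) :
    LinearMap.BilinForm R ((Fin r → R) × R) :=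
  LinearMap.mk₂ R (bb C e ζ)
    (fun u v w => by rw [bb_comm, bb_add_right, bb_comm C e ζ w u, bb_comm C e ζ w v])
    (fun s u v => by rw [bb_comm, bb_smul_right, bb_comm C e ζ v u, smul_eq_mul])
    (fun u v w => bb_add_right C e ζ u v w)
    (fun s u v => bb_smul_right C e ζ u v s)

@[simp] theorem bbB_apply (C : MvPolynomial σ K) (e : Fin r → σ → K) (ζ : σ → R)
    (u v : (Fin r → R) × R) : bbB C e ζ u v = bb C e ζ u v := rfl

/-- the residual linear form as a linear map -/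
noncomputable def LLL (Q : MvPolynomial σ K) (e : Fin r → σ → K) (ζ : σ → R) :
    ((Fin r → R) × R) →ₗ[R] R where
  toFun := LL Q e ζ
  map_add' := fun u v => by
    unfold LL
    rw [Prod.fst_add, Prod.snd_add, emb_add, dd_add_right]; ring
  map_smul' := fun s u => by
    unfold LL
    rw [Prod.smul_fst, Prod.smul_snd, emb_smul, dd_smul_right, smul_eq_mul, RingHom.id_apply,
      smul_eq_mul]; ring

@[simp] theorem LLL_apply (Q : MvPolynomial σ K) (e : Fin r → σ → K) (ζ : σ → R)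
    (u : (Fin r → R) × R) : LLL Q e ζ u = LL Q e ζ u := rfl

variable {C Q : MvPolynomial σ K} (e : Fin r → σ → K)

theorem RR_comb (hC : C.IsHomogeneous 3) (ζ : σ → R) (u v : (Fin r → R) × R) (a b : R) :
    RR C e ζ (a • u + b • v) = a ^ 2 * RR C e ζ u + a * b * bb C e ζ u v + b ^ 2 * RR C e ζ v := by
  unfold RR bb
  rw [Prod.fst_add, Prod.snd_add, Prod.smul_fst, Prod.smul_snd, Prod.smul_fst, Prod.smul_snd,
    emb_add, emb_smul, emb_smul, tri_dd2 hC, dd_add_right, dd_smul_right, dd_smul_right]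
  simp only [smul_eq_mul]
  ring

theorem bb_self (hC : C.IsHomogeneous 3) (ζ : σ → R) (u : (Fin r → R) × R) :
    bb C e ζ u u = 2 * RR C e ζ u := by
  unfold RR bb
  rw [tri_comm hC, hh_comm C (emb e u.1) ζ (emb e u.1), tri_two hC]
  ring

variable [Infinite K]

theorem aeval_vec_C (hC : C.IsHomogeneous 3) (hiso : IsoK C e) (ζ : σ → R)
    (u : (Fin r → R) × R) : aeval (vec e ζ u) C = u.2 * RR C e ζ u := by
  have h := tay3 hC (emb e u.1) ζ 1 u.2
  rw [one_smul] at h
  unfold vec RR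
  rw [h, hiso.all]
  ring

theorem aeval_vec_Q (hQ : Q.IsHomogeneous 2) (hiso : IsoK Q e) (ζ : σ → R)
    (u : (Fin r → R) × R) : aeval (vec e ζ u) Q = u.2 * LL Q e ζ u := by
  have h := tay2 hQ (emb e u.1) ζ 1 u.2
  rw [one_smul] at h
  unfold vec LL
  rw [h, hiso.all, dd2_comm hQ]
  ring

theorem dd_vec_C (hC : C.IsHomogeneous 3) (hiso : IsoK C e) (ζ : σ → R)
    (u v : (Fin r → R) × R) :
    dd C (vec e ζ u) (vec e ζ v) = u.2 * bb C e ζ u v + v.2 * RR C e ζ u := by
  unfold vec RR bb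
  rw [tri_dd hC, hiso.dd]
  ring

theorem dd_vec_Q (hQ : Q.IsHomogeneous 2) (hiso : IsoK Q e) (ζ : σ → R)
    (u v : (Fin r → R) × R) :
    dd Q (vec e ζ u) (vec e ζ v) = u.2 * LL Q e ζ v + v.2 * LL Q e ζ u := by
  unfold vec LL
  rw [duo_dd hQ, hiso.dd]
  ring

end Res

end Pool.Agent.Work.PDC
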