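import Mathlib
import Pool.Agent.Work.MP_b62148_ag.CI.Tri
import Pool.Agent.Work.MP_b62148_ag.CI.Nondeg

/-!
Complete intersections of quadrics and two cubics at the generic point: smoothness of the residual
surface.
-/

namespace Pool.Agent.Work.PDC

open MvPolynomial

section Main

variable {K : Type*} [Field K] [CharZero K] {σ : Type*} [Fintype σ] {E : Type*} [Field E]
  [IsAlgClosed E] [Algebra K E] {a r : ℕ}

/-- all the hypotheses at the generic point -/
structure Hyp3 (C : Fin 2 → MvPolynomial σ K) (Q : Fin a → MvPolynomial σ K) (e : Fin r → σ → K)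
    (η : σ → E) : Prop where
  hC : ∀ i, (C i).IsHomogeneous 3
  hQ : ∀ j, (Q j).IsHomogeneous 2
  hr : a + 4 = r
  hcard : r + (a + 2) < Fintype.card σ
  he : LinearIndependent K e
  isoC : ∀ i, IsoK (C i) e
  isoQ : ∀ j, IsoK (Q j) e
  gpt : GPt (Sum.elim C Q) η

variable {C : Fin 2 → MvPolynomial σ K} {Q : Fin a → MvPolynomial σ K} {e : Fin r → σ → K}
  {η : σ → E}

omit [CharZero K] [IsAlgClosed E] in
theorem Hyp3.memC (h : Hyp3 C Q e η) (i : Fin 2) : aeval η (C i) = 0 := h.gpt.mem (Sum.inl i)

omit [CharZero K] [IsAlgClosed E] in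
theorem Hyp3.memQ (h : Hyp3 C Q e η) (j : Fin a) : aeval η (Q j) = 0 := h.gpt.mem (Sum.inr j)

theorem Hyp3.lemmaA (h : Hyp3 C Q e η) (c : Fin r → E) (hc : c ≠ 0)
    (h1 : ∀ j, dd (Q j) η (emb e c) = 0) (h2 : ∀ i, dd (C i) (emb e c) η = 0)
    (h3 : ∀ i, dd (C i) η (emb e c) = 0) : False := by
  have hE : CharZero E := charZero_of_injective_algebraMap (algebraMap K E).injective
  refine PDC.lemmaA (Sum.elim (fun _ : Fin 2 => 1) (fun _ : Fin a => 0)) (Sum.elim C Q) ?_ ?_ e
    ?_ h.gpt (fun c s hc => h.gpt.out h.he (by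
      rw [Fintype.card_sum, Fintype.card_fin, Fintype.card_fin]
      have := h.hcard
      omega) c s hc) c hc ?_
  · rintro (i | j)
    · exact h.hC i
    · exact h.hQ j
  · rw [Fintype.sum_sum_type]
    simp only [Sum.elim_inl, Sum.elim_inr, Finset.sum_const, Finset.card_univ, Fintype.card_fin,
      smul_eq_mul]
    have := h.hr
    omega
  · rintro (i | j) c c'
    · exact (h.isoC i).dd c c'
    · exact (h.isoQ j).dd c c'
  · rintro (i | j)
    · exact line_zero (p := 1) (q := 0) (Or.inr (Or.inl ⟨rfl, rfl⟩)) (h.hC i) _ _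
        ((h.isoC i).all c) (fun _ => h2 i) (fun j => j.elim0) (h3 i) (h.memC i)
    · exact line_zero (p := 0) (q := 0) (Or.inl ⟨rfl, rfl⟩) (h.hQ j) _ _
        ((h.isoQ j).all c) (fun j => j.elim0) (fun j => j.elim0) (h1 j) (h.memQ j)

/-- the gradients at the generic point are independent on the linear space -/
theorem Hyp3.indAll (h : Hyp3 C Q e η) (α : Fin 2 ⊕ Fin a → E)
    (hα : ∀ c : Fin r → E, ∑ m, α m * dd (Sum.elim C Q m) η (emb e c) = 0) : α = 0 := by
  classical
  by_contra hne
  obtain ⟨m1, hm1⟩ := Function.ne_iff.mp hne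
  obtain ⟨y, hy0, hy⟩ := exists_zero_fin (E := E) (r := r)
    (ι := {m : Fin 2 ⊕ Fin a // m ≠ m1} ⊕ Fin 2)
    (by
      rw [Fintype.card_sum, Fintype.card_subtype_compl, Fintype.card_sum, Fintype.card_fin,
        Fintype.card_fin, Fintype.card_subtype_eq]
      have := h.hr
      omega)
    (Sum.elim (fun m => dd (Sum.elim C Q m.1) (ct r η) (uv e))
      (fun i => dd (C i) (uv e) (ct r η)))
    (by
      rintro (m | i)
      · exact zeroF3 _ _ _
      · simp only [Sum.elim_inr]
        rw [eval_dd_uv_ct, emb_zero]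
        exact dd_at_zero (n := 1) (h.hC i) η)
  have h1 : ∀ m, m ≠ m1 → dd (Sum.elim C Q m) η (emb e y) = 0 := by
    intro m hm
    have := hy (Sum.inl ⟨m, hm⟩)
    simp only [Sum.elim_inl] at this
    rwa [eval_dd_ct_uv] at this
  have h2 : ∀ i, dd (C i) (emb e y) η = 0 := by
    intro i
    have := hy (Sum.inr i)
    simp only [Sum.elim_inr] at this
    rwa [eval_dd_uv_ct] at this
  have h3 : ∀ m, dd (Sum.elim C Q m) η (emb e y) = 0 := by
    intro m
    by_cases hm : m = m1
    · subst hm
      have h5 := hα y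
      rw [Finset.sum_eq_single m] at h5
      · exact (mul_eq_zero.mp h5).resolve_left hm1
      · intro j _ hj
        rw [h1 j hj, mul_zero]
      · simp
    · exact h1 m hm
  exact h.lemmaA y hy0 (fun j => h3 (Sum.inr j)) h2 (fun i => h3 (Sum.inl i))

/-- closing argument -/
theorem Hyp3.close (h : Hyp3 C Q e η) (x : σ → E) (hx0 : x ≠ 0)
    (hxm : ∀ m, aeval x (Sum.elim C Q m) = 0) (β : Fin 2 ⊕ Fin a → E)
    (hT : ∀ v, (∀ m, dd (Sum.elim C Q m) η v = 0) → ∑ m, β m * dd (Sum.elim C Q m) x v = 0)
    (hL : ∀ c : Fin r → E, ∑ m, β m * dd (Sum.elim C Q m) x (emb e c) = 0) : β = 0 := by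
  classical
  let φ : (σ → E) →ₗ[E] E := ∑ m, β m • ddL (Sum.elim C Q m) x
  have hφ : ∀ v, φ v = ∑ m, β m * dd (Sum.elim C Q m) x v := by
    intro v
    simp only [φ, LinearMap.sum_apply, LinearMap.smul_apply, ddL_apply, smul_eq_mul]
  obtain ⟨u, hu⟩ := exists_dual (fun m => ddL (Sum.elim C Q m) η)
    (h.gpt.smooth η h.gpt.ne h.gpt.mem)
  have hsp : ∀ w, φ w = ∑ m, φ (u m) * dd (Sum.elim C Q m) η w := fun w =>
    eq_sum_of_ker (fun m => ddL (Sum.elim C Q m) η) u hu φ
      (fun v hv => by rw [hφ]; exact hT v hv) w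
  have hus : (fun m => φ (u m)) = 0 := by
    apply h.indAll
    intro c
    rw [← hsp, hφ]
    exact hL c
  refine h.gpt.smooth x hx0 hxm β ?_
  intro w
  rw [← hφ, hsp]
  refine Finset.sum_eq_zero fun m _ => ?_
  have := congrFun hus m
  simp only [Pi.zero_apply] at this
  rw [this, zero_mul]

/-- the quadrics are independent on the linear space -/
theorem Hyp3.indQ (h : Hyp3 C Q e η) (γ : Fin a → E)
    (hγ : ∀ c : Fin r → E, ∑ j, γ j * dd (Q j) η (emb e c) = 0) : γ = 0 := by
  have h1 := h.indAll (Sum.elim (fun _ => 0) γ) (by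
    intro c
    rw [Fintype.sum_sum_type]
    simp only [Sum.elim_inl, Sum.elim_inr, zero_mul, Finset.sum_const_zero, zero_add]
    exact hγ c)
  funext j
  exact congrFun h1 (Sum.inr j)

/-- smoothness of the curve in the linear space -/
theorem Hyp3.smE (h : Hyp3 C Q e η) (c : Fin r → E) (hc : c ≠ 0)
    (hq : ∀ j, dd (Q j) η (emb e c) = 0) (hcc : ∀ i, dd (C i) (emb e c) η = 0) (α : Fin 2 → E)
    (hα : ∀ c' : Fin r → E, (∀ j, dd (Q j) η (emb e c') = 0) →
      ∑ i, α i * hh (C i) η (emb e c) (emb e c') = 0) : α = 0 := by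
  classical
  -- multipliers
  obtain ⟨u, hu⟩ := exists_dual (fun j => (ddL (Q j) η).comp (embL (R := E) e))
    (fun γ hγ => h.indQ γ hγ)
  let ψ : (Fin r → E) →ₗ[E] E := ∑ i, α i • ((hhB (C i) η (emb e c)).comp (embL (R := E) e))
  have hψ : ∀ c', ψ c' = ∑ i, α i * hh (C i) η (emb e c) (emb e c') := by
    intro c'
    simp only [ψ, LinearMap.sum_apply, LinearMap.smul_apply, LinearMap.comp_apply, hhB_apply,
      smul_eq_mul, embL_apply]
  have hsp : ∀ c', ψ c' = ∑ j, ψ (u j) * dd (Q j) η (emb e c') := fun c' =>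
    eq_sum_of_ker (fun j => (ddL (Q j) η).comp (embL (R := E) e)) u hu ψ
      (fun v hv => by rw [hψ]; exact hα v hv) c'
  have hfin := h.close (emb e c) (fun h0 => hc (emb_inj h.he c h0)) (by
      rintro (i | j)
      · exact (h.isoC i).all c
      · exact (h.isoQ j).all c) (Sum.elim α (fun j => - ψ (u j))) (by
      intro v hv
      obtain ⟨D, hD⟩ := h.gpt.der v hv
      have hlin : (fun l => D (η l)) = v := funext hD
      have h5 : ∀ m, dd (Sum.elim C Q m) (emb e c) η = 0 := by
        rintro (i | j)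
        · exact hcc i
        · show dd (Q j) (emb e c) η = 0
          rw [dd2_comm (h.hQ j)]; exact hq j
      have h6 : ∀ m, dd (Sum.elim C Q m) (emb e c) v =
          - hh (Sum.elim C Q m) (emb e c) η (emb e (fun j => D (c j))) := by
        intro m
        have h7 := der_coeff D (Sum.elim C Q m) (emb e c) η 0
        rw [zero_add, coeff_one_line, h5, map_zero, plc_one, plc_zero, der_emb, hlin] at h7
        linear_combination -h7
      simp only [h6]
      rw [Fintype.sum_sum_type]
      simp only [Sum.elim_inl, Sum.elim_inr]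
      have h8 := hψ (fun j => D (c j))
      rw [hsp] at h8
      have h9 : ∀ i, hh (C i) (emb e c) η (emb e (fun j => D (c j))) =
          hh (C i) η (emb e c) (emb e (fun j => D (c j))) := fun i => tri_comm (h.hC i) _ _ _
      have h10 : ∀ j, hh (Q j) (emb e c) η (emb e (fun j => D (c j))) =
          dd (Q j) η (emb e (fun j => D (c j))) := fun j => hh2 (h.hQ j) _ _ _
      simp only [h9, h10, mul_neg, neg_mul, neg_neg, Finset.sum_neg_distrib]
      rw [h8]
      ring) (by
      intro c'
      refine Finset.sum_eq_zero fun m _ => ?_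
      rcases m with i | j
      · simp only [Sum.elim_inl]
        rw [(h.isoC i).dd, mul_zero]
      · simp only [Sum.elim_inr]
        rw [(h.isoQ j).dd, mul_zero])
  funext i
  exact congrFun hfin (Sum.inl i)

omit [CharZero K] [IsAlgClosed E] in
theorem bb_zero_zero (C : MvPolynomial σ K) (e : Fin r → σ → K) (η : σ → E) (c c' : Fin r → E) :
    bb C e η (c, 0) (c', 0) = hh C η (emb e c) (emb e c') := by
  unfold bb
  ring

omit [CharZero K] [IsAlgClosed E] [Fintype σ] in
theorem vec_der (D : Derivation K E E) (e : Fin r → σ → K) (η v : σ → E)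
    (hD : ∀ l, D (η l) = v l) (s : (Fin r → E) × E) :
    (fun l => D (vec e η s l)) = vec e η (fun j => D (s.1 j), D s.2) + s.2 • v := by
  have h1 := der_emb D e s.1
  funext l
  have h2 := congrFun h1 l
  simp only [vec, Pi.add_apply, Pi.smul_apply, smul_eq_mul, map_add, Derivation.leibniz, hD] at h2 ⊢
  rw [h2]
  ring

/-- smoothness of the residual surface -/
theorem Hyp3.smS (h : Hyp3 C Q e η) (s : (Fin r → E) × E) (hs : s ≠ 0)
    (hL : ∀ j, LL (Q j) e η s = 0) (hR : ∀ i, RR (C i) e η s = 0) (α : Fin 2 → E)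
    (hα : ∀ u, (∀ j, LL (Q j) e η u = 0) → ∑ i, α i * bb (C i) e η s u = 0) : α = 0 := by
  classical
  obtain ⟨c, t⟩ := s
  by_cases ht : t = 0
  · subst ht
    refine h.smE c ?_ ?_ ?_ α ?_
    · rintro rfl
      exact hs rfl
    · intro j
      have := hL j
      unfold LL at this
      simpa using this
    · intro i
      have := hR i
      unfold RR at this
      simpa using this
    · intro c' hc'
      have h1 := hα (c', 0) (by
        intro j
        unfold LL
        simpa using hc' j)
      simpa only [bb_zero_zero] using h1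
  · -- multipliers
    obtain ⟨u, hu⟩ := exists_dual (fun j => LLL (Q j) e η) (fun γ hγ => h.indQ γ (by
      intro c'
      have h1 := hγ (c', 0)
      simp only [LLL_apply, LL, zero_mul, add_zero] at h1
      exact h1))
    let ψ : ((Fin r → E) × E) →ₗ[E] E := ∑ i, α i • (bbB (C i) e η (c, t))
    have hψ : ∀ w, ψ w = ∑ i, α i * bb (C i) e η (c, t) w := by
      intro w
      simp only [ψ, LinearMap.sum_apply, LinearMap.smul_apply, bbB_apply, smul_eq_mul]
    have hsp : ∀ w, ψ w = ∑ j, ψ (u j) * LL (Q j) e η w := fun w =>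
      eq_sum_of_ker (fun j => LLL (Q j) e η) u hu ψ
        (fun v hv => by rw [hψ]; exact hα v hv) w
    set x : σ → E := vec e η (c, t) with hx
    have hx0 : x ≠ 0 := by
      by_cases hc : c = 0
      · intro h0
        rw [hx] at h0
        unfold vec at h0
        rw [hc, emb_zero, zero_add] at h0
        exact h.gpt.ne ((smul_eq_zero.mp h0).resolve_left ht)
      · exact h.gpt.out h.he (by
          rw [Fintype.card_sum, Fintype.card_fin, Fintype.card_fin]
          have := h.hcard
          omega) c t hc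
    have hxm : ∀ m, aeval x (Sum.elim C Q m) = 0 := by
      rintro (i | j)
      · simp only [Sum.elim_inl]
        rw [hx, aeval_vec_C e (h.hC i) (h.isoC i), hR, mul_zero]
      · simp only [Sum.elim_inr]
        rw [hx, aeval_vec_Q e (h.hQ j) (h.isoQ j), hL, mul_zero]
    have hU : ∀ w, ∑ m, (Sum.elim α (fun j => - ψ (u j)) : Fin 2 ⊕ Fin a → E) m *
        dd (Sum.elim C Q m) x (vec e η w) = 0 := by
      intro w
      rw [Fintype.sum_sum_type]
      simp only [Sum.elim_inl, Sum.elim_inr]
      have h1 : ∀ i, dd (C i) x (vec e η w) = t * bb (C i) e η (c, t) w := by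
        intro i
        rw [hx, dd_vec_C e (h.hC i) (h.isoC i), hR, mul_zero, add_zero]
      have h2 : ∀ j, dd (Q j) x (vec e η w) = t * LL (Q j) e η w := by
        intro j
        rw [hx, dd_vec_Q e (h.hQ j) (h.isoQ j), hL, mul_zero, add_zero]
      simp only [h1, h2]
      have h3 := hψ w
      rw [hsp] at h3
      have h4 : ∑ i, α i * (t * bb (C i) e η (c, t) w) =
          t * ∑ i, α i * bb (C i) e η (c, t) w := by
        rw [Finset.mul_sum]
        exact Finset.sum_congr rfl fun i _ => by ring
      have h5 : ∑ j, -ψ (u j) * (t * LL (Q j) e η w) = -(t * ∑ j, ψ (u j) * LL (Q j) e η w) := by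
        rw [Finset.mul_sum, ← Finset.sum_neg_distrib]
        exact Finset.sum_congr rfl fun i _ => by ring
      rw [h4, h5, h3]
      ring
    have hfin := h.close x hx0 hxm (Sum.elim α (fun j => - ψ (u j))) (by
      intro v hv
      obtain ⟨D, hD⟩ := h.gpt.der v hv
      have h6 : ∀ m, dd (Sum.elim C Q m) x
          (vec e η (fun j => D (c j), D t)) + t * dd (Sum.elim C Q m) x v = 0 := by
        intro m
        have h7 := der_aeval D x (Sum.elim C Q m)
        rw [hxm, map_zero, hx, vec_der D e η v hD, dd_add_right, dd_smul_right, ← hx] at h7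
        exact h7.symm
      have h8 : ∑ m, (Sum.elim α (fun j => - ψ (u j)) : Fin 2 ⊕ Fin a → E) m *
          (dd (Sum.elim C Q m) x (vec e η (fun j => D (c j), D t)) +
            t * dd (Sum.elim C Q m) x v) = 0 :=
        Finset.sum_eq_zero fun m _ => by rw [h6, mul_zero]
      simp only [mul_add, Finset.sum_add_distrib] at h8
      rw [hU, zero_add] at h8
      have h9 : ∑ m, (Sum.elim α (fun j => - ψ (u j)) : Fin 2 ⊕ Fin a → E) m *
          (t * dd (Sum.elim C Q m) x v) =
          t * ∑ m, (Sum.elim α (fun j => - ψ (u j)) : Fin 2 ⊕ Fin a → E) m *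
          dd (Sum.elim C Q m) x v := by
        rw [Finset.mul_sum]
        exact Finset.sum_congr rfl fun i _ => by ring
      rw [h9] at h8
      exact (mul_eq_zero.mp h8).resolve_left ht) (by
      intro c'
      have h1 := hU (c', 0)
      have h2 : vec e η (c', (0 : E)) = emb e c' := by
        unfold vec
        rw [zero_smul, add_zero]
      rw [h2] at h1
      exact h1)
    funext i
    exact congrFun hfin (Sum.inl i)

end Main

end Pool.Agent.Work.PDC
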