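import Mathlib
import Pool.Agent.Work.MP_b62148_ag.CI.Three

/-!
No line of the residual surface through the base point; the auxiliary vector.
-/

namespace Pool.Agent.Work.PDC

open MvPolynomial

section Der

variable {K : Type*} [Field K] {σ : Type*} [Fintype σ] {E : Type*} [Field E] [Algebra K E]

theorem der_tri (D : Derivation K E E) {C : MvPolynomial σ K} (hC : C.IsHomogeneous 3)
    (x u v : σ → E) : D (hh C x u v) = hh C (fun l => D (x l)) u v +
      hh C x (fun l => D (u l)) v + hh C x u (fun l => D (v l)) := by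
  refine hom_ind (P := fun C => D (hh C x u v) = hh C (fun l => D (x l)) u v +
      hh C x (fun l => D (u l)) v + hh C x u (fun l => D (v l))) 3 ?_ ?_ ?_ ?_ C hC
  · simp [hh_zero]
  · intro p q hp hq
    rw [hh_add, hh_add, hh_add, hh_add, map_add, hp, hq]; ring
  · intro c p hp
    rw [hh_Cmul, hh_Cmul, hh_Cmul, hh_Cmul, Derivation.leibniz, Derivation.map_algebraMap, hp]
    simp only [smul_eq_mul]
    ring
  · intro t
    simp only [Fin.prod_univ_three, map_mul, aeval_X, dd_mul, dd_X, hh_mul, hh_X,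
      Derivation.leibniz, map_add, smul_eq_mul, map_zero]
    ring

theorem der_dd (D : Derivation K E E) (G : MvPolynomial σ K) (x v : σ → E) :
    D (dd G x v) = hh G x (fun l => D (x l)) v + dd G x (fun l => D (v l)) := by
  have h : ∀ i, D (aeval x (pderiv i G) * v i) =
      dd (pderiv i G) x (fun l => D (x l)) * v i + aeval x (pderiv i G) * D (v i) := by
    intro i
    rw [Derivation.leibniz, der_aeval]
    simp only [smul_eq_mul]
    ring
  unfold hh
  rw [show dd G x v = ∑ i, aeval x (pderiv i G) * v i from rfl, map_sum]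
  simp only [h, Finset.sum_add_distrib]
  rfl

end Der

section Line

variable {K : Type*} [Field K] [CharZero K] {σ : Type*} [Fintype σ] {E : Type*} [Field E]
  [IsAlgClosed E] [Algebra K E] {a r : ℕ}
variable {C : Fin 2 → MvPolynomial σ K} {Q : Fin a → MvPolynomial σ K} {e : Fin r → σ → K}
  {η : σ → E}

/-- motion of the coordinates -/
noncomputable def Dl (D : Derivation K E E) (c' : Fin r → E) (s : (Fin r → E) × E) :
    (Fin r → E) × E := ((fun j => D (s.1 j)) + s.2 • c', D s.2)

omit [IsAlgClosed E] in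
theorem der_bb (D : Derivation K E E) {C : MvPolynomial σ K} (hC : C.IsHomogeneous 3)
    (hiso : IsoK C e) (c' : Fin r → E) (hD : ∀ l, D (η l) = emb e c' l) (hη : aeval η C = 0)
    (hv : dd C η (emb e c') = 0) (s u : (Fin r → E) × E) :
    D (bb C e η s u) = bb C e η (Dl D c' s) u + bb C e η s (Dl D c' u) := by
  have hlin : (fun l => D (η l)) = emb e c' := funext hD
  have h0 : ∀ c₁ c₂ : Fin r → E, hh C (emb e c') (emb e c₁) (emb e c₂) = 0 :=
    fun c₁ c₂ => hiso.hh _ _ _
  unfold bb
  rw [hη]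
  simp only [mul_zero, add_zero, map_add, Derivation.leibniz, smul_eq_mul]
  rw [der_tri D hC, der_dd, der_dd, hlin, der_emb, der_emb, h0]
  simp only [Dl, emb_add, emb_smul, hh_add_left, hh_add_right, hh_smul_left, hh_smul_right,
    dd_add_right, dd_smul_right, hv]
  rw [hh_comm C η (emb e s.1) (emb e c')]
  ring

omit [CharZero K] [IsAlgClosed E] in
theorem der_LL (D : Derivation K E E) {Q : MvPolynomial σ K} (hQ : Q.IsHomogeneous 2)
    (hiso : ∀ c₁ c₂ : Fin r → E, dd Q (emb e c₁) (emb e c₂) = 0)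
    (c' : Fin r → E) (hD : ∀ l, D (η l) = emb e c' l) (hη : aeval η Q = 0)
    (hv : dd Q η (emb e c') = 0) (s : (Fin r → E) × E) :
    D (LL Q e η s) = LL Q e η (Dl D c' s) := by
  have hlin : (fun l => D (η l)) = emb e c' := funext hD
  unfold LL
  rw [hη, mul_zero, mul_zero, add_zero, add_zero, der_dd, hlin, der_emb, hh2 hQ, hiso, zero_add]
  simp only [Dl, emb_add, emb_smul, dd_add_right, dd_smul_right, hv, mul_zero, add_zero]

/-- the ambient space of the residual surface -/
noncomputable def UU (Q : Fin a → MvPolynomial σ K) (e : Fin r → σ → K) (η : σ → E) :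
    Submodule E ((Fin r → E) × E) := LinearMap.ker (LinearMap.pi fun j => LLL (Q j) e η)

omit [CharZero K] [IsAlgClosed E] in
theorem mem_UU {s : (Fin r → E) × E} : s ∈ UU Q e η ↔ ∀ j, LL (Q j) e η s = 0 := by
  unfold UU
  rw [LinearMap.mem_ker]
  exact ⟨fun h j => congrFun h j, fun h => funext h⟩

omit [CharZero K] [IsAlgClosed E] in
theorem finrank_ker_le {V : Type*} [AddCommGroup V] [Module E V] [FiniteDimensional E V]
    (f : Fin a → V →ₗ[E] E) (hf : ∀ γ : Fin a → E, (∀ v, ∑ i, γ i * f i v = 0) → γ = 0) :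
    Module.finrank E (LinearMap.ker (LinearMap.pi f)) + a ≤ Module.finrank E V := by
  classical
  have h1 := card_le_of_vanish
    (fun i => ((Module.finBasis E (LinearMap.ker (LinearMap.pi f)) i : LinearMap.ker
      (LinearMap.pi f)) : V))
    (((Module.finBasis E (LinearMap.ker (LinearMap.pi f))).linearIndependent).map'
      (Submodule.subtype _) (Submodule.ker_subtype _)) f hf (by
      intro i j
      have h2 := (Module.finBasis E (LinearMap.ker (LinearMap.pi f)) j).2
      rw [LinearMap.mem_ker] at h2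
      exact congrFun h2 i)
  rw [Fintype.card_fin, Fintype.card_fin] at h1
  exact h1

theorem Hyp3.indLL (h : Hyp3 C Q e η) (γ : Fin a → E)
    (hγ : ∀ u, ∑ j, γ j * LLL (Q j) e η u = 0) : γ = 0 := by
  apply h.indQ
  intro c'
  have h1 := hγ (c', 0)
  simp only [LLL_apply, LL, zero_mul, add_zero] at h1
  exact h1

theorem Hyp3.finrank_UU (h : Hyp3 C Q e η) : Module.finrank E (UU Q e η) ≤ 5 := by
  have h1 := finrank_ker_le (fun j => LLL (Q j) e η) (fun γ hγ => h.indLL γ hγ)
  rw [Module.finrank_prod, Module.finrank_fintype_fun_eq_card, Fintype.card_fin,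
    Module.finrank_self] at h1
  have := h.hr
  unfold UU
  omega

/-- the polar forms on the ambient space -/
noncomputable def bU (C : Fin 2 → MvPolynomial σ K) (Q : Fin a → MvPolynomial σ K)
    (e : Fin r → σ → K) (η : σ → E) (i : Fin 2) : LinearMap.BilinForm E (UU Q e η) :=
  (bbB (C i) e η).restrict (UU Q e η)

omit [CharZero K] [IsAlgClosed E] in
theorem bU_apply (i : Fin 2) (s u : UU Q e η) :
    bU C Q e η i s u = bb (C i) e η (s : (Fin r → E) × E) u := rfl

theorem Hyp3.smU (h : Hyp3 C Q e η) (s : UU Q e η) (hs : s ≠ 0)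
    (hR : ∀ i, bU C Q e η i s s = 0) (α : Fin 2 → E)
    (hα : ∀ u, ∑ i, α i * bU C Q e η i s u = 0) : α = 0 := by
  have hE : CharZero E := charZero_of_injective_algebraMap (algebraMap K E).injective
  refine h.smS s (fun h0 => hs (Subtype.ext h0)) (mem_UU.mp s.2) ?_ α ?_
  · intro i
    have h1 := hR i
    rw [bU_apply, bb_self e (h.hC i)] at h1
    exact (mul_eq_zero.mp h1).resolve_left two_ne_zero
  · intro u hu
    exact hα ⟨u, mem_UU.mpr hu⟩

/-- the base point data -/
structure Base (C : Fin 2 → MvPolynomial σ K) (Q : Fin a → MvPolynomial σ K) (e : Fin r → σ → K)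
    (η : σ → E) (c0 : K) (y : Fin r → E) : Prop where
  ne : y ≠ 0
  yQ : ∀ j, dd (Q j) η (emb e y) = 0
  yC : ∀ i, dd (C i) (emb e y) η = 0
  yc : dd (C 0) η (emb e y) + algebraMap K E c0 * dd (C 1) η (emb e y) = 0
  y1 : dd (C 1) η (emb e y) ≠ 0
  nd : ∀ s : UU Q e η, s ≠ 0 → ∃ u, bU C Q e η 0 s u + algebraMap K E c0 * bU C Q e η 1 s u ≠ 0

/-- existence of the base point -/
theorem Hyp3.exists_base (h : Hyp3 C Q e η) : ∃ (c0 : K) (y : Fin r → E), Base C Q e η c0 y := by
  classical
  have hK : Infinite K := inferInstance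
  obtain ⟨c0, hc0⟩ := exists_nondeg (K := K) (bU C Q e η)
    (fun i u v => by rw [bU_apply, bU_apply, bb_comm]) (fun s hs hR α hα => h.smU s hs hR α hα)
  obtain ⟨y, hy0, hy⟩ := exists_zero_fin (E := E) (r := r) (ι := Fin a ⊕ Fin 2 ⊕ Unit)
    (by
      simp only [Fintype.card_sum, Fintype.card_fin, Fintype.card_unit]
      have := h.hr
      omega)
    (Sum.elim (fun j => dd (Q j) (ct r η) (uv e)) (Sum.elim (fun i => dd (C i) (uv e) (ct r η))
      (fun _ => dd (C 0) (ct r η) (uv e) +
        MvPolynomial.C (algebraMap K E c0) * dd (C 1) (ct r η) (uv e))))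
    (by
      rintro (j | i | j)
      · exact zeroF3 _ _ _
      · simp only [Sum.elim_inl, Sum.elim_inr]
        rw [eval_dd_uv_ct, emb_zero]
        exact dd_at_zero (n := 1) (h.hC i) η
      · simp only [Sum.elim_inr]
        rw [map_add, map_mul, zeroF3, zeroF3]
        ring)
  have h1 : ∀ j, dd (Q j) η (emb e y) = 0 := by
    intro j
    have := hy (Sum.inl j)
    simp only [Sum.elim_inl] at this
    rwa [eval_dd_ct_uv] at this
  have h2 : ∀ i, dd (C i) (emb e y) η = 0 := by
    intro i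
    have := hy (Sum.inr (Sum.inl i))
    simp only [Sum.elim_inl, Sum.elim_inr] at this
    rwa [eval_dd_uv_ct] at this
  have h3 : dd (C 0) η (emb e y) + algebraMap K E c0 * dd (C 1) η (emb e y) = 0 := by
    have := hy (Sum.inr (Sum.inr ()))
    simp only [Sum.elim_inr] at this
    rw [map_add, map_mul, eval_C, eval_dd_ct_uv, eval_dd_ct_uv] at this
    exact this
  refine ⟨c0, y, hy0, h1, h2, h3, ?_, hc0⟩
  intro h4
  rw [h4, mul_zero, add_zero] at h3
  refine h.lemmaA y hy0 h1 h2 ?_
  intro i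
  fin_cases i
  · exact h3
  · exact h4

variable {c0 : K} {y : Fin r → E}

/-- the base point as an element of the ambient space -/
noncomputable def Base.Y (B : Base C Q e η c0 y) : UU Q e η :=
  ⟨(y, 0), mem_UU.mpr fun j => by unfold LL; simpa using B.yQ j⟩

omit [CharZero K] [IsAlgClosed E] in
theorem Hyp3.H_mem (h : Hyp3 C Q e η) : ((0 : Fin r → E), (1 : E)) ∈ UU Q e η :=
  mem_UU.mpr fun j => by
    unfold LL
    rw [emb_zero, dd_zero_right, h.memQ]
    ring

/-- the generic point as an element of the ambient space -/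
noncomputable def Hyp3.H (h : Hyp3 C Q e η) : UU Q e η := ⟨(0, 1), h.H_mem⟩

omit [CharZero K] [IsAlgClosed E] in
theorem Hyp3.bH (h : Hyp3 C Q e η) (i : Fin 2) (u : UU Q e η) :
    bU C Q e η i h.H u = dd (C i) η (emb e u.1.1) := by
  rw [bU_apply]
  unfold bb
  show hh (C i) η (emb e 0) (emb e u.1.1) + 1 * dd (C i) η (emb e u.1.1) +
    u.1.2 * dd (C i) η (emb e 0) + 2 * 1 * u.1.2 * aeval η (C i) = _
  rw [emb_zero, hh_comm, ← hhB_apply, map_zero, dd_zero_right, h.memC]
  ring

/-- no line of the residual surface through the base point -/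
theorem Hyp3.no_line (h : Hyp3 C Q e η) (B : Base C Q e η c0 y) (q : UU Q e η)
    (hq : ∀ i, bU C Q e η i B.Y q = 0) (hqq : ∀ i, bU C Q e η i q q = 0)
    (hind : LinearIndependent E ![B.Y, q]) : False := by
  classical
  have hE : CharZero E := charZero_of_injective_algebraMap (algebraMap K E).injective
  set c := algebraMap K E c0 with hc
  have hsymm : ∀ i (u v : UU Q e η), bU C Q e η i u v = bU C Q e η i v u := by
    intro i u v
    rw [bU_apply, bU_apply, bb_comm]
  -- values
  have hYY : ∀ i, bU C Q e η i B.Y B.Y = 0 := by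
    intro i
    rw [bU_apply, bb_self e (h.hC i)]
    unfold RR
    show 2 * (dd (C i) (emb e y) η + 0 * _ + 0 ^ 2 * _) = 0
    rw [B.yC i]
    ring
  have hHY : ∀ i, bU C Q e η i h.H B.Y = dd (C i) η (emb e y) := fun i => h.bH i B.Y
  have hHH : ∀ i, bU C Q e η i h.H h.H = 0 := by
    intro i
    rw [h.bH]
    show dd (C i) η (emb e 0) = 0
    rw [emb_zero, dd_zero_right]
  have hY0 : B.Y ≠ 0 := hind.ne_zero 0
  -- Step 1: a tangent direction inside the linear space
  have hv : ∃ c' : Fin r → E, (∀ j, dd (Q j) η (emb e c') = 0) ∧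
      (∀ i, dd (C i) η (emb e c') = 0) ∧
      bb (C 0) e η (y, 0) (c', 0) + c * bb (C 1) e η (y, 0) (c', 0) ≠ 0 := by
    by_contra hcon
    push Not at hcon
    obtain ⟨w, hw⟩ := exists_dual (fun i => bU C Q e η i h.H)
      (fun α hα => h.smU h.H (by
        intro h0
        have := congrArg (fun s : UU Q e η => s.1.2) h0
        exact one_ne_zero this) hHH α hα)
    have h1 := eq_sum_of_ker (fun i => bU C Q e η i h.H) w hw
      (bU C Q e η 0 B.Y + c • bU C Q e η 1 B.Y) (by
        intro u hu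
        have hu1 : ∀ i, dd (C i) η (emb e u.1.1) = 0 := fun i => by rw [← h.bH]; exact hu i
        have hu2 : ∀ j, dd (Q j) η (emb e u.1.1) = 0 := by
          intro j
          have := mem_UU.mp u.2 j
          unfold LL at this
          rw [h.memQ, mul_zero, add_zero] at this
          exact this
        have h2 := hcon u.1.1 hu2 hu1
        have h3 : ∀ i, bU C Q e η i B.Y u = bb (C i) e η (y, 0) (u.1.1, 0) +
            u.1.2 * dd (C i) η (emb e y) := by
          intro i
          rw [bU_apply]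
          show bb (C i) e η (y, 0) (u.1.1, u.1.2) = _
          unfold bb
          ring
        rw [LinearMap.add_apply, LinearMap.smul_apply, h3, h3, smul_eq_mul]
        linear_combination h2 + u.1.2 * B.yc)
    set α0 := (bU C Q e η 0 B.Y + c • bU C Q e η 1 B.Y) (w 0) with hα0
    set α1 := (bU C Q e η 0 B.Y + c • bU C Q e η 1 B.Y) (w 1) with hα1
    have h2 : ∀ u, bU C Q e η 0 B.Y u + c * bU C Q e η 1 B.Y u =
        α0 * bU C Q e η 0 h.H u + α1 * bU C Q e η 1 h.H u := by
      intro u
      have h3 := h1 u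
      rw [Fin.sum_univ_two] at h3
      exact h3
    have h3 := h2 B.Y
    rw [hYY, hYY, hHY, hHY] at h3
    have h4 : (α1 - c * α0) * dd (C 1) η (emb e y) = 0 := by
      linear_combination -h3 - α0 * B.yc
    have h5 : α1 = c * α0 := sub_eq_zero.mp ((mul_eq_zero.mp h4).resolve_right B.y1)
    by_cases hz : B.Y - α0 • h.H = 0
    · have h6 := congrArg (fun s : UU Q e η => s.1.1) hz
      have h7 : y = 0 := by
        have h8 : (B.Y - α0 • h.H : UU Q e η).1.1 = y - α0 • 0 := rfl
        rw [smul_zero, sub_zero] at h8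
        rw [← h8]
        exact h6
      exact B.ne h7
    · obtain ⟨u, hu⟩ := B.nd _ hz
      apply hu
      have h6 := h2 u
      rw [map_sub, map_sub, LinearMap.sub_apply, LinearMap.sub_apply, map_smul, map_smul,
        LinearMap.smul_apply, LinearMap.smul_apply, smul_eq_mul, smul_eq_mul]
      rw [h5] at h6
      linear_combination h6
  obtain ⟨c', hc'Q, hc'C, hc'b⟩ := hv
  obtain ⟨D, hD⟩ := h.gpt.der (emb e c') (by
    rintro (i | j)
    · exact hc'C i
    · exact hc'Q j)
  have hDmem : ∀ s : UU Q e η, Dl D c' s.1 ∈ UU Q e η := by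
    intro s
    rw [mem_UU]
    intro j
    rw [← der_LL D (h.hQ j) (fun c₁ c₂ => (h.isoQ j).dd c₁ c₂) c' hD (h.memQ j) (hc'Q j),
      mem_UU.mp s.2 j, map_zero]
  have hDb : ∀ i (s u : UU Q e η), D (bU C Q e η i s u) =
      bU C Q e η i ⟨Dl D c' s.1, hDmem s⟩ u + bU C Q e η i s ⟨Dl D c' u.1, hDmem u⟩ := by
    intro i s u
    exact der_bb D (h.hC i) (h.isoC i) c' hD (h.memC i) (hc'C i) s.1 u.1
  -- isotropic line
  have hiso : ∀ i (p p' : Fin 2), bU C Q e η i (![B.Y, q] p) (![B.Y, q] p') = 0 := by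
    intro i p p'
    fin_cases p <;> fin_cases p'
    · exact hYY i
    · exact hq i
    · show bU C Q e η i q B.Y = 0
      rw [hsymm]; exact hq i
    · exact hqq i
  have hsum_ne : ∀ π : Fin 2 → E, π ≠ 0 → ∑ p, π p • (![B.Y, q] p) ≠ 0 := by
    intro π hπ h0
    exact hπ (funext (Fintype.linearIndependent_iff.mp hind π h0))
  have hsum_iso : ∀ (π : Fin 2 → E) i, bU C Q e η i (∑ p, π p • (![B.Y, q] p))
      (∑ p, π p • (![B.Y, q] p)) = 0 := by
    intro π i
    have hexp : ∀ u, bU C Q e η i (∑ p, π p • (![B.Y, q] p)) u =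
        ∑ p, π p * bU C Q e η i (![B.Y, q] p) u := by
      intro u
      simp only [map_sum, LinearMap.sum_apply, map_smul, LinearMap.smul_apply, smul_eq_mul]
    rw [hexp]
    refine Finset.sum_eq_zero fun p _ => ?_
    rw [hsymm, hexp, Finset.sum_eq_zero, mul_zero]
    intro p' _
    rw [hiso, mul_zero]
  have hI : Iso2 (bU C Q e η) ![B.Y, q] := by
    refine ⟨hsymm, hind, hiso, ?_⟩
    intro π hπ α hα
    exact h.smU _ (hsum_ne π hπ) (hsum_iso π) α hα
  have hsec := hI.section h.finrank_UU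
    ![⟨Dl D c' B.Y.1, hDmem B.Y⟩, ⟨Dl D c' q.1, hDmem q⟩] (by
      intro i p p'
      have h1 := hDb i (![B.Y, q] p) (![B.Y, q] p')
      rw [hiso, map_zero] at h1
      rw [h1]
      fin_cases p <;> fin_cases p' <;> rfl) two_ne_zero
  rw [Submodule.mem_span_range_iff_exists_fun] at hsec
  obtain ⟨μ, hμ⟩ := hsec
  rw [Fin.sum_univ_two] at hμ
  have hμ' : μ 0 • B.Y + μ 1 • q = (⟨Dl D c' B.Y.1, hDmem B.Y⟩ : UU Q e η) := hμ
  -- the moving condition
  have hmov : bU C Q e η 0 ⟨Dl D c' B.Y.1, hDmem B.Y⟩ h.H +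
      c * bU C Q e η 1 ⟨Dl D c' B.Y.1, hDmem B.Y⟩ h.H ≠ 0 := by
    intro h0
    have hYH : bU C Q e η 0 B.Y h.H + c * bU C Q e η 1 B.Y h.H = 0 := by
      rw [hsymm, hsymm 1, hHY, hHY]
      exact B.yc
    have h1 := congrArg D hYH
    rw [map_add, Derivation.leibniz, map_zero, hDb, hDb, hc, Derivation.map_algebraMap,
      smul_zero, add_zero, smul_eq_mul, ← hc] at h1
    have hH : Dl D c' h.H.1 = (c', 0) := by
      unfold Dl
      show ((fun j => D ((0 : Fin r → E) j)) + (1 : E) • c', D 1) = (c', 0)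
      rw [one_smul, D.map_one_eq_zero]
      congr 1
      funext j
      simp
    have h2 : ∀ i, bU C Q e η i B.Y ⟨Dl D c' h.H.1, hDmem h.H⟩ = bb (C i) e η (y, 0) (c', 0) := by
      intro i
      rw [bU_apply]
      show bb (C i) e η (y, 0) (Dl D c' h.H.1) = _
      rw [hH]
    rw [h2, h2] at h1
    apply hc'b
    linear_combination h1 - h0
  have hμ1 : μ 1 ≠ 0 := by
    intro h0
    apply hmov
    rw [← hμ', h0, zero_smul, add_zero, map_smul, map_smul, LinearMap.smul_apply,
      LinearMap.smul_apply, hsymm, hsymm 1, hHY, hHY, smul_eq_mul, smul_eq_mul]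
    linear_combination μ 0 * B.yc
  -- so the second vector lies in the linear space
  have hq2 : q.1.2 = 0 := by
    have h1 := congrArg (fun s : UU Q e η => s.1.2) hμ'
    have h2 : (μ 0 • B.Y + μ 1 • q : UU Q e η).1.2 = μ 0 * 0 + μ 1 * q.1.2 := rfl
    have h3 : (Dl D c' B.Y.1).2 = 0 := map_zero D
    simp only [h2, h3, mul_zero, zero_add] at h1
    exact (mul_eq_zero.mp h1).resolve_left hμ1
  -- a line in the curve
  let V4 : Submodule E (Fin r → E) :=
    LinearMap.ker (LinearMap.pi fun j => (ddL (Q j) η).comp (embL (R := E) e))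
  have hV4 : ∀ c₁ : Fin r → E, c₁ ∈ V4 ↔ ∀ j, dd (Q j) η (emb e c₁) = 0 := by
    intro c₁
    show c₁ ∈ LinearMap.ker _ ↔ _
    rw [LinearMap.mem_ker]
    exact ⟨fun h j => congrFun h j, fun h => funext h⟩
  have hfr : Module.finrank E V4 ≤ 4 := by
    have h1 := finrank_ker_le (fun j => (ddL (Q j) η).comp (embL (R := E) e))
      (fun γ hγ => h.indQ γ hγ)
    rw [Module.finrank_fintype_fun_eq_card, Fintype.card_fin] at h1
    have := h.hr
    show Module.finrank E (LinearMap.ker _) ≤ 4
    omega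
  let b4 : Fin 2 → LinearMap.BilinForm E V4 := fun i =>
    LinearMap.BilinForm.restrict ((hhB (C i) η).compl₁₂ (embL (R := E) e) (embL (R := E) e)) V4
  have hb4 : ∀ i (s u : V4), b4 i s u = hh (C i) η (emb e s.1) (emb e u.1) := fun _ _ _ => rfl
  have hq4 : q.1.1 ∈ V4 := by
    rw [hV4]
    intro j
    have := mem_UU.mp q.2 j
    unfold LL at this
    rw [h.memQ, mul_zero, add_zero] at this
    exact this
  have hy4 : y ∈ V4 := (hV4 y).mpr B.yQ
  have hqe : q.1 = (q.1.1, 0) := by
    rw [← hq2]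
  have hval : ∀ i (p p' : Fin 2), b4 i (![(⟨y, hy4⟩ : V4), ⟨q.1.1, hq4⟩] p)
      (![(⟨y, hy4⟩ : V4), ⟨q.1.1, hq4⟩] p') =
      bU C Q e η i (![B.Y, q] p) (![B.Y, q] p') := by
    intro i p p'
    have hBY : B.Y.1 = (y, 0) := rfl
    fin_cases p <;> fin_cases p'
    · show hh (C i) η (emb e y) (emb e y) = bb (C i) e η B.Y.1 B.Y.1
      rw [hBY, bb_zero_zero]
    · show hh (C i) η (emb e y) (emb e q.1.1) = bb (C i) e η B.Y.1 q.1
      rw [hBY, hqe, bb_zero_zero]
    · show hh (C i) η (emb e q.1.1) (emb e y) = bb (C i) e η q.1 B.Y.1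
      rw [hBY, hqe, bb_zero_zero]
    · show hh (C i) η (emb e q.1.1) (emb e q.1.1) = bb (C i) e η q.1 q.1
      rw [hqe, bb_zero_zero]
  have hind4 : LinearIndependent E ![(⟨y, hy4⟩ : V4), ⟨q.1.1, hq4⟩] := by
    rw [Fintype.linearIndependent_iff]
    intro g hg
    rw [Fin.sum_univ_two] at hg
    have h1 : g 0 • y + g 1 • q.1.1 = 0 := congrArg Subtype.val hg
    refine Fintype.linearIndependent_iff.mp hind g ?_
    rw [Fin.sum_univ_two]
    apply Subtype.ext
    show g 0 • (y, (0 : E)) + g 1 • q.1 = 0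
    rw [hqe]
    apply Prod.ext
    · exact h1
    · simp
  have hI4 : Iso2 b4 ![(⟨y, hy4⟩ : V4), ⟨q.1.1, hq4⟩] := by
    refine ⟨?_, hind4, ?_, ?_⟩
    · intro i u v
      rw [hb4, hb4, hh_comm]
    · intro i p p'
      rw [hval, hiso]
    · intro π hπ α hα
      set s : V4 := ∑ p, π p • (![(⟨y, hy4⟩ : V4), ⟨q.1.1, hq4⟩] p) with hs
      have hs0 : s ≠ 0 := fun h0 => hπ (funext (Fintype.linearIndependent_iff.mp hind4 π h0))
      refine h.smE s.1 (fun h0 => hs0 (Subtype.ext h0)) ((hV4 s.1).mp s.2) ?_ α ?_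
      · intro i
        have h1 : b4 i s s = 0 := by
          have hexp : ∀ u, b4 i s u =
              ∑ p, π p * b4 i (![(⟨y, hy4⟩ : V4), ⟨q.1.1, hq4⟩] p) u := by
            intro u
            rw [hs]
            simp only [map_sum, LinearMap.sum_apply, map_smul, LinearMap.smul_apply, smul_eq_mul]
          rw [hexp]
          refine Finset.sum_eq_zero fun p _ => ?_
          have hsy : ∀ u v : V4, b4 i u v = b4 i v u := by
            intro u v
            rw [hb4, hb4, hh_comm]
          rw [hsy, hexp, Finset.sum_eq_zero, mul_zero]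
          intro p' _
          rw [hval, hiso, mul_zero]
        rw [hb4, tri_comm (h.hC i), hh_comm, tri_comm (h.hC i)] at h1
        have h2 : hh (C i) (emb e s.1) (emb e s.1) η = 2 * dd (C i) (emb e s.1) η :=
          tri_two (h.hC i) _ _
        have h3 : 2 * dd (C i) (emb e s.1) η = 0 := by
          rw [← h2, ← h1, hh_comm, tri_comm (h.hC i)]
        exact (mul_eq_zero.mp h3).resolve_left two_ne_zero
      · intro c₁ hc₁
        exact hα ⟨c₁, (hV4 c₁).mpr hc₁⟩
  exact hI4.false_of_four hfr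

end Line

end Pool.Agent.Work.PDC
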