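import Mathlib
import Pool.Agent.Work.MP_b62148_ag.CI.Four
import Pool.Agent.Work.MP_b62148_ag.CI.ExistL

/-!
The auxiliary vector of the configuration on the residual surface.
-/

namespace Pool.Agent.Work.PDC

open MvPolynomial

section Map

variable {K : Type*} [Field K] {σ : Type*} [Fintype σ] {R S : Type*} [CommRing R] [Algebra K R]
  [CommRing S] [Algebra K S] {r : ℕ} (φ : R →ₐ[K] S)

/-- image of a coordinate vector -/
def mU (u : (Fin r → R) × R) : (Fin r → S) × S := (fun j => φ (u.1 j), φ u.2)

theorem map_LL (Q : MvPolynomial σ K) (e : Fin r → σ → K) (ζ : σ → R) (u : (Fin r → R) × R) :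
    φ (LL Q e ζ u) = LL Q e (fun l => φ (ζ l)) (mU φ u) := by
  unfold LL mU
  rw [map_add, map_mul, map_dd, map_emb, map_aeval']

theorem map_bb (C : MvPolynomial σ K) (e : Fin r → σ → K) (ζ : σ → R) (u v : (Fin r → R) × R) :
    φ (bb C e ζ u v) = bb C e (fun l => φ (ζ l)) (mU φ u) (mU φ v) := by
  unfold bb mU
  simp only [map_add, map_mul, map_dd, map_hh, map_emb, map_aeval', map_ofNat]

theorem map_RR (C : MvPolynomial σ K) (e : Fin r → σ → K) (ζ : σ → R) (u : (Fin r → R) × R) :
    φ (RR C e ζ u) = RR C e (fun l => φ (ζ l)) (mU φ u) := by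
  unfold RR mU
  simp only [map_add, map_mul, map_pow, map_dd, map_emb, map_aeval']

omit [Fintype σ] in
theorem map_vec (e : Fin r → σ → K) (ζ : σ → R) (u : (Fin r → R) × R) :
    (fun l => φ (vec e ζ u l)) = vec e (fun l => φ (ζ l)) (mU φ u) := by
  have h := map_emb φ e u.1
  funext l
  have h1 := congrFun h l
  simp only [vec, mU, Pi.add_apply, Pi.smul_apply, smul_eq_mul, map_add, map_mul] at h1 ⊢
  rw [h1]

end Map

section Main

variable {K : Type*} [Field K] [CharZero K] {σ : Type*} [Fintype σ] {E : Type*} [Field E]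
  [IsAlgClosed E] [Algebra K E] {a r : ℕ}
variable {C : Fin 2 → MvPolynomial σ K} {Q : Fin a → MvPolynomial σ K} {e : Fin r → σ → K}
  {η : σ → E} {c0 : K} {y : Fin r → E}

omit [CharZero K] in
theorem Hyp3.exists_q0 (h : Hyp3 C Q e η) (B : Base C Q e η c0 y) :
    ∃ q : UU Q e η, (∀ i, bU C Q e η i B.Y q = 0) ∧
      bU C Q e η 0 q q + algebraMap K E c0 * bU C Q e η 1 q q = 0 ∧
      LinearIndependent E ![B.Y, q] := by
  classical
  obtain ⟨l0, hl0⟩ := Function.ne_iff.mp B.ne
  let R' := MvPolynomial (Fin r ⊕ Unit) E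
  let uq : (Fin r → R') × R' := (fun j => X (Sum.inl j), X (Sum.inr ()))
  let cη : σ → R' := fun l => MvPolynomial.C (η l)
  let cY : (Fin r → R') × R' := (fun j => MvPolynomial.C (y j), 0)
  let toU : (Fin r ⊕ Unit → E) → (Fin r → E) × E := fun x => (fun j => x (Sum.inl j), x (Sum.inr ()))
  let evx : (Fin r ⊕ Unit → E) → R' →ₐ[K] E := fun x =>
    (aeval x : R' →ₐ[E] E).restrictScalars K
  have evx_apply : ∀ x p, evx x p = eval x p := by
    intro x p
    show aeval x p = eval x p
    rw [aeval_eq_eval]
  have h1 : ∀ x, (fun l => evx x (cη l)) = η := by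
    intro x; funext l
    rw [evx_apply]; simp [cη]
  have h2 : ∀ x, mU (evx x) uq = toU x := by
    intro x
    unfold mU
    simp only [evx_apply, uq, eval_X, toU]
  have h3 : ∀ x, mU (evx x) cY = (y, 0) := by
    intro x
    unfold mU
    simp only [evx_apply, cY, eval_C, map_zero]
  obtain ⟨x, hx0, hx⟩ := exists_zero_type (E := E) (τ := Fin r ⊕ Unit)
    (ι := Fin a ⊕ Fin 2 ⊕ Unit ⊕ Unit)
    (by
      simp only [Fintype.card_sum, Fintype.card_fin, Fintype.card_unit]
      have := h.hr
      omega)
    (Sum.elim (fun j => LL (Q j) e cη uq) (Sum.elim (fun i => bb (C i) e cη cY uq)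
      (Sum.elim (fun _ => RR (C 0) e cη uq + MvPolynomial.C (algebraMap K E c0) * RR (C 1) e cη uq)
        (fun _ => X (Sum.inl l0)))))
    (by
      have hz : toU 0 = 0 := rfl
      have hL : ∀ (Q : MvPolynomial σ K), LL Q e η (0 : (Fin r → E) × E) = 0 := fun Q =>
        (LLL Q e η).map_zero
      have hR : ∀ (C : MvPolynomial σ K), RR C e η (0 : (Fin r → E) × E) = dd C 0 η := by
        intro C
        unfold RR
        show dd C (emb e 0) η + 0 * _ + 0 ^ 2 * _ = _
        rw [emb_zero]; ring
      rintro (j | i | j | j)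
      · simp only [Sum.elim_inl]
        rw [← evx_apply, map_LL, h1, h2, hz, hL]
      · simp only [Sum.elim_inl, Sum.elim_inr]
        rw [← evx_apply, map_bb, h1, h2, h3, hz, ← bbB_apply, map_zero]
      · simp only [Sum.elim_inl, Sum.elim_inr]
        rw [← evx_apply, map_add, map_mul, map_RR, map_RR, h1, h2, hz, hR, hR,
          dd_at_zero (n := 1) (h.hC 0), dd_at_zero (n := 1) (h.hC 1)]
        ring
      · simp)
  have hq : toU x ∈ UU Q e η := by
    rw [mem_UU]
    intro j
    have := hx (Sum.inl j)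
    simp only [Sum.elim_inl] at this
    rwa [← evx_apply, map_LL, h1, h2] at this
  have hb : ∀ i, bb (C i) e η (y, 0) (toU x) = 0 := by
    intro i
    have := hx (Sum.inr (Sum.inl i))
    simp only [Sum.elim_inl, Sum.elim_inr] at this
    rwa [← evx_apply, map_bb, h1, h2, h3] at this
  have hR : RR (C 0) e η (toU x) + algebraMap K E c0 * RR (C 1) e η (toU x) = 0 := by
    have := hx (Sum.inr (Sum.inr (Sum.inl ())))
    simp only [Sum.elim_inl, Sum.elim_inr] at this
    rw [← evx_apply, map_add, map_mul, map_RR, map_RR, h1, h2, evx_apply, eval_C] at this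
    exact this
  have hl : x (Sum.inl l0) = 0 := by
    have := hx (Sum.inr (Sum.inr (Sum.inr ())))
    simp only [Sum.elim_inr, eval_X] at this
    exact this
  refine ⟨⟨toU x, hq⟩, hb, ?_, ?_⟩
  · rw [bU_apply, bU_apply, bb_self e (h.hC 0), bb_self e (h.hC 1)]
    linear_combination 2 * hR
  · rw [Fintype.linearIndependent_iff]
    intro g hg
    rw [Fin.sum_univ_two] at hg
    have h4 : g 0 • (y, (0 : E)) + g 1 • toU x = 0 := congrArg Subtype.val hg
    have h5 := congrFun (congrArg Prod.fst h4) l0
    have h6 : g 0 * y l0 + g 1 * x (Sum.inl l0) = 0 := h5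
    rw [hl, mul_zero, add_zero] at h6
    have h7 : g 0 = 0 := (mul_eq_zero.mp h6).resolve_right hl0
    rw [h7, zero_smul, zero_add] at h4
    have h8 : g 1 = 0 := by
      by_contra hne
      apply hx0
      have h9 : toU x = 0 := (smul_eq_zero.mp h4).resolve_left hne
      funext t
      rcases t with j | j
      · exact congrFun (congrArg Prod.fst h9) j
      · exact congrArg Prod.snd h9
    intro i
    fin_cases i
    · exact h7
    · exact h8

theorem Hyp3.exists_q (h : Hyp3 C Q e η) (B : Base C Q e η c0 y) :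
    ∃ q : UU Q e η, (∀ i, bU C Q e η i B.Y q = 0) ∧
      bU C Q e η 0 q q + algebraMap K E c0 * bU C Q e η 1 q q = 0 ∧
      bU C Q e η 1 q q ≠ 0 ∧
      bU C Q e η 0 q h.H + algebraMap K E c0 * bU C Q e η 1 q h.H ≠ 0 := by
  classical
  have hE : CharZero E := charZero_of_injective_algebraMap (algebraMap K E).injective
  obtain ⟨q, hq1, hq2, hind⟩ := h.exists_q0 B
  refine ⟨q, hq1, hq2, ?_, ?_⟩
  · intro h1
    rw [h1, mul_zero, add_zero] at hq2
    refine h.no_line B q hq1 ?_ hind
    intro i
    fin_cases i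
    · exact hq2
    · exact h1
  · intro h1
    set c := algebraMap K E c0 with hc
    have hsymm : ∀ i (u v : UU Q e η), bU C Q e η i u v = bU C Q e η i v u := by
      intro i u v
      rw [bU_apply, bU_apply, bb_comm]
    have hYY : ∀ i, bU C Q e η i B.Y B.Y = 0 := by
      intro i
      rw [bU_apply, bb_self e (h.hC i)]
      unfold RR
      show 2 * (dd (C i) (emb e y) η + 0 * _ + 0 ^ 2 * _) = 0
      rw [B.yC i]
      ring
    have hHY : ∀ i, bU C Q e η i h.H B.Y = dd (C i) η (emb e y) := fun i => h.bH i B.Y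
    have hHH : ∀ i, bU C Q e η i h.H h.H = 0 := by
      intro i
      rw [h.bH]
      show dd (C i) η (emb e 0) = 0
      rw [emb_zero, dd_zero_right]
    have hYH : ∀ i, bU C Q e η i B.Y h.H = dd (C i) η (emb e y) := fun i => by
      rw [hsymm]; exact hHY i
    have hqY : ∀ i, bU C Q e η i q B.Y = 0 := fun i => by rw [hsymm]; exact hq1 i
    let bc : LinearMap.BilinForm E (UU Q e η) := bU C Q e η 0 + c • bU C Q e η 1
    have hbc : ∀ u v, bc u v = bU C Q e η 0 u v + c * bU C Q e η 1 u v := fun u v => rfl
    let n : Fin 3 → UU Q e η := ![B.Y, q, h.H]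
    have hn : LinearIndependent E n := by
      rw [Fintype.linearIndependent_iff]
      intro g hg
      rw [Fin.sum_univ_three] at hg
      have hg' : g 0 • B.Y + g 1 • q + g 2 • h.H = 0 := hg
      have h2 := congrArg (bU C Q e η 1 B.Y) hg'
      rw [map_add, map_add, map_smul, map_smul, map_smul, map_zero, hYY, hq1, hYH, smul_zero,
        smul_zero, zero_add, zero_add, smul_eq_mul] at h2
      have h3 : g 2 = 0 := (mul_eq_zero.mp h2).resolve_right B.y1
      rw [h3, zero_smul, add_zero] at hg'
      have h4 := Fintype.linearIndependent_iff.mp hind ![g 0, g 1] (by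
        rw [Fin.sum_univ_two]
        exact hg')
      intro i
      fin_cases i
      · exact h4 0
      · exact h4 1
      · exact h3
    have hz : ∀ i j, bc (n i) (n j) = 0 := by
      have e1 : bc B.Y B.Y = 0 := by rw [hbc, hYY, hYY]; ring
      have e2 : bc B.Y q = 0 := by rw [hbc, hq1, hq1]; ring
      have e3 : bc B.Y h.H = 0 := by rw [hbc, hYH, hYH]; exact B.yc
      have e4 : bc q B.Y = 0 := by rw [hbc, hqY, hqY]; ring
      have e5 : bc q q = 0 := by rw [hbc]; exact hq2
      have e6 : bc q h.H = 0 := by rw [hbc]; exact h1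
      have e7 : bc h.H B.Y = 0 := by rw [hbc, hHY, hHY]; exact B.yc
      have e8 : bc h.H q = 0 := by rw [hbc, hsymm, hsymm 1]; exact h1
      have e9 : bc h.H h.H = 0 := by rw [hbc, hHH, hHH]; ring
      intro i j
      fin_cases i <;> fin_cases j
      · exact e1
      · exact e2
      · exact e3
      · exact e4
      · exact e5
      · exact e6
      · exact e7
      · exact e8
      · exact e9
    have hcount := card_le_of_vanish n hn (fun i => bc (n i)) (by
      intro g hg
      have h2 : ∑ i, g i • n i = 0 := by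
        by_contra hne
        obtain ⟨u, hu⟩ := B.nd _ hne
        apply hu
        have h3 := hg u
        have h4 : bc (∑ i, g i • n i) u = ∑ i, g i * bc (n i) u := by
          simp only [map_sum, LinearMap.sum_apply, map_smul, LinearMap.smul_apply, smul_eq_mul]
        rw [← h4] at h3
        exact h3
      exact funext (Fintype.linearIndependent_iff.mp hn g h2)) (fun i j => hz i j)
    have hfr := h.finrank_UU
    rw [Fintype.card_fin] at hcount
    omega

end Main

end Pool.Agent.Work.PDC
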