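import Mathlib
import Pool.Agent.Work.MP_b62148_ag.CI.Five

/-!
The parametrisation of a complete intersection of quadrics and two cubics containing a linear space.
-/

namespace Pool.Agent.Work.PDC

open MvPolynomial

section Pj

variable {R M I : Type*} [CommRing R] [AddCommGroup M] [Module R M] [Fintype I] [DecidableEq I]

/-- matrix of functionals on vectors -/
def gm (f : I → M →ₗ[R] R) (m : I → M) : Matrix I I R := Matrix.of fun k i => f k (m i)

/-- projection to the common kernel -/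
noncomputable def pj (f : I → M →ₗ[R] R) (m : I → M) (x : M) : M :=
  (gm f m).det • x - ∑ i, (∑ k, (gm f m).adjugate i k * f k x) • m i

theorem f_pj (f : I → M →ₗ[R] R) (m : I → M) (x : M) (n : I) : f n (pj f m x) = 0 := by
  unfold pj
  rw [map_sub, map_smul, map_sum]
  simp only [map_smul, smul_eq_mul]
  have h1 : ∑ i, (∑ k, (gm f m).adjugate i k * f k x) * f n (m i) =
      ∑ k, (gm f m * (gm f m).adjugate) n k * f k x := by
    simp only [Matrix.mul_apply, Finset.sum_mul]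
    rw [Finset.sum_comm]
    refine Finset.sum_congr rfl fun k _ => Finset.sum_congr rfl fun i _ => ?_
    show _ = f n (m i) * _ * _
    ring
  rw [h1, Matrix.mul_adjugate]
  simp only [Matrix.smul_apply, Matrix.one_apply, smul_eq_mul, mul_ite, mul_one, mul_zero,
    ite_mul, zero_mul]
  rw [Finset.sum_ite_eq]
  simp

theorem pj_dual (f : I → M →ₗ[R] R) (m : I → M) (x : M)
    (hm : ∀ k i, f k (m i) = if k = i then 1 else 0) (hx : ∀ k, f k x = 0) : pj f m x = x := by
  have h1 : gm f m = 1 := by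
    ext k i
    rw [Matrix.one_apply]
    exact hm k i
  unfold pj
  rw [h1, Matrix.det_one, one_smul]
  simp [hx]

theorem map_pj {S M' : Type*} [CommRing S] [AddCommGroup M'] [Module S M'] (φ : R →+* S)
    (θ : M → M') (hadd : ∀ x y, θ (x + y) = θ x + θ y) (hsmul : ∀ (c : R) x, θ (c • x) = φ c • θ x)
    (f : I → M →ₗ[R] R) (f' : I → M' →ₗ[S] S) (hf : ∀ k x, φ (f k x) = f' k (θ x)) (m : I → M)
    (x : M) : θ (pj f m x) = pj f' (fun i => θ (m i)) (θ x) := by
  have h1 : φ.mapMatrix (gm f m) = gm f' (fun i => θ (m i)) := by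
    ext k i
    exact hf k (m i)
  have h2 : φ (gm f m).det = (gm f' (fun i => θ (m i))).det := by
    rw [← h1, RingHom.map_det]
  have h3 : ∀ i k, φ ((gm f m).adjugate i k) = (gm f' (fun i => θ (m i))).adjugate i k := by
    intro i k
    rw [← h1, ← RingHom.map_adjugate]
    rfl
  let θ' : M →+ M' := AddMonoidHom.mk' θ hadd
  have h4 : ∀ x, θ x = θ' x := fun x => rfl
  unfold pj
  rw [h4, map_sub, map_sum, ← h4, hsmul, h2]
  congr 1
  refine Finset.sum_congr rfl fun i _ => ?_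
  rw [← h4, hsmul, map_sum]
  congr 1
  refine Finset.sum_congr rfl fun k _ => ?_
  rw [map_mul, h3, hf]

end Pj

section Par

variable {K : Type*} [Field K] {σ : Type*} [Fintype σ] {a r : ℕ}
variable {R : Type*} [CommRing R] [Algebra K R]

/-- functionals for the first auxiliary vector -/
noncomputable def FY (C : Fin 2 → MvPolynomial σ K) (Q : Fin a → MvPolynomial σ K)
    (e : Fin r → σ → K) (ζ : σ → R) (Y : (Fin r → R) × R) :
    Fin 2 ⊕ Fin a → ((Fin r → R) × R) →ₗ[R] R :=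
  Sum.elim (fun i => bbB (C i) e ζ Y) (fun j => LLL (Q j) e ζ)

/-- the member of the pencil through `q`, polar form -/
noncomputable def bq (C : Fin 2 → MvPolynomial σ K) (e : Fin r → σ → K) (ζ : σ → R)
    (q u v : (Fin r → R) × R) : R :=
  RR (C 1) e ζ q * bb (C 0) e ζ u v - RR (C 0) e ζ q * bb (C 1) e ζ u v

/-- the member of the pencil through `q` -/
noncomputable def Rq (C : Fin 2 → MvPolynomial σ K) (e : Fin r → σ → K) (ζ : σ → R)
    (q u : (Fin r → R) × R) : R :=
  RR (C 1) e ζ q * RR (C 0) e ζ u - RR (C 0) e ζ q * RR (C 1) e ζ u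

/-- functionals for the second auxiliary vector -/
noncomputable def FV (C : Fin 2 → MvPolynomial σ K) (Q : Fin a → MvPolynomial σ K)
    (e : Fin r → σ → K) (ζ : σ → R) (q Y : (Fin r → R) × R) :
    Unit ⊕ Fin a → ((Fin r → R) × R) →ₗ[R] R :=
  Sum.elim (fun _ => RR (C 1) e ζ q • bbB (C 0) e ζ Y - RR (C 0) e ζ q • bbB (C 1) e ζ Y)
    (fun j => LLL (Q j) e ζ)

/-- the point of the cone -/
noncomputable def p3w (C : Fin 2 → MvPolynomial σ K) (e : Fin r → σ → K) (ζ : σ → R)
    (q u : (Fin r → R) × R) : (Fin r → R) × R :=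
  bq C e ζ q q u • u - Rq C e ζ q u • q

/-- the residual point -/
noncomputable def p3x (C : Fin 2 → MvPolynomial σ K) (e : Fin r → σ → K) (ζ : σ → R)
    (Y q w : (Fin r → R) × R) : (Fin r → R) × R :=
  RR (C 1) e ζ q • ((- RR (C 1) e ζ w) • Y + (bb (C 1) e ζ Y w) • w)

/-- the data of the parametrisation -/
structure Dat (σ : Type*) (r a : ℕ) (R : Type*) where
  /-- base point -/
  y : Fin r → R
  /-- auxiliary vectors -/
  z : Fin 2 ⊕ Fin a → σ → R
  /-- free vector -/
  om : σ → R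
  /-- auxiliary vectors -/
  m : Fin 2 ⊕ Fin a → (Fin r → R) × R
  /-- free vector -/
  q0 : (Fin r → R) × R
  /-- auxiliary vectors -/
  m' : Unit ⊕ Fin a → (Fin r → R) × R
  /-- free vector -/
  u0 : (Fin r → R) × R
  /-- scalar -/
  s : R

/-- image of the data -/
def Dat.map {S : Type*} [CommRing S] [Algebra K S] (φ : R →ₐ[K] S) (d : Dat σ r a R) :
    Dat σ r a S where
  y := fun j => φ (d.y j)
  z := fun i l => φ (d.z i l)
  om := fun l => φ (d.om l)
  m := fun i => mU φ (d.m i)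
  q0 := mU φ d.q0
  m' := fun i => mU φ (d.m' i)
  u0 := mU φ d.u0
  s := φ d.s

variable (C : Fin 2 → MvPolynomial σ K) (Q : Fin a → MvPolynomial σ K) (e : Fin r → σ → K)

/-- the projected vector -/
noncomputable def Dat.ze (d : Dat σ r a R) : σ → R :=
  pz (Sum.elim C Q) id (emb e d.y) d.z d.om

/-- first auxiliary vector -/
noncomputable def Dat.q (d : Dat σ r a R) : (Fin r → R) × R :=
  pj (FY C Q e (d.ze C Q e) (d.y, 0)) d.m d.q0

/-- second auxiliary vector -/
noncomputable def Dat.u (d : Dat σ r a R) : (Fin r → R) × R :=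
  pj (FV C Q e (d.ze C Q e) (d.q C Q e) (d.y, 0)) d.m' d.u0

/-- the parametrisation -/
noncomputable def par3 (d : Dat σ r a R) : σ → R :=
  d.s • vec e (d.ze C Q e) (p3x C e (d.ze C Q e) (d.y, 0) (d.q C Q e)
    (p3w C e (d.ze C Q e) (d.q C Q e) (d.u C Q e)))

variable {S : Type*} [CommRing S] [Algebra K S] (φ : R →ₐ[K] S)

omit [Fintype σ] in
theorem mU_add (u v : (Fin r → R) × R) : mU φ (u + v) = mU φ u + mU φ v := by
  unfold mU
  apply Prod.ext
  · funext j; exact map_add φ _ _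
  · exact map_add φ _ _

theorem mU_smul (c : R) (u : (Fin r → R) × R) : mU φ (c • u) = φ c • mU φ u := by
  unfold mU
  apply Prod.ext
  · funext j; exact map_mul φ _ _
  · exact map_mul φ _ _

theorem mU_pair (y : Fin r → R) : mU φ (y, 0) = (fun j => φ (y j), 0) := by
  unfold mU
  rw [map_zero]

theorem map_ze (d : Dat σ r a R) :
    (fun l => φ (d.ze C Q e l)) = (d.map φ).ze C Q e := by
  unfold Dat.ze
  rw [map_pz, map_emb]
  rfl

theorem map_q (d : Dat σ r a R) : mU φ (d.q C Q e) = (d.map φ).q C Q e := by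
  unfold Dat.q
  rw [map_pj (φ : R →+* S) (mU φ) (mU_add φ) (fun c x => mU_smul φ c x)
    (FY C Q e (d.ze C Q e) (d.y, 0)) (FY C Q e ((d.map φ).ze C Q e) ((d.map φ).y, 0))]
  · rfl
  · rintro (i | j) x
    · show φ (bb (C i) e (d.ze C Q e) (d.y, 0) x) = bb (C i) e _ _ _
      rw [map_bb, map_ze, mU_pair]
      rfl
    · show φ (LL (Q j) e (d.ze C Q e) x) = LL (Q j) e _ _
      rw [map_LL, map_ze]

theorem map_u (d : Dat σ r a R) : mU φ (d.u C Q e) = (d.map φ).u C Q e := by
  unfold Dat.u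
  rw [map_pj (φ : R →+* S) (mU φ) (mU_add φ) (fun c x => mU_smul φ c x)
    (FV C Q e (d.ze C Q e) (d.q C Q e) (d.y, 0))
    (FV C Q e ((d.map φ).ze C Q e) ((d.map φ).q C Q e) ((d.map φ).y, 0))]
  · rfl
  · rintro (i | j) x
    · show φ (RR (C 1) e _ _ * bb (C 0) e _ _ x - RR (C 0) e _ _ * bb (C 1) e _ _ x) =
        RR (C 1) e _ _ * bb (C 0) e _ _ _ - RR (C 0) e _ _ * bb (C 1) e _ _ _
      rw [map_sub, map_mul, map_mul, map_RR, map_RR, map_bb, map_bb, map_ze, mU_pair, map_q]
      rfl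
    · show φ (LL (Q j) e (d.ze C Q e) x) = LL (Q j) e _ _
      rw [map_LL, map_ze]

theorem map_par3 (d : Dat σ r a R) : (fun l => φ (par3 C Q e d l)) = par3 C Q e (d.map φ) := by
  unfold par3
  have h1 : (fun l => φ ((d.s • vec e (d.ze C Q e) (p3x C e (d.ze C Q e) (d.y, 0) (d.q C Q e)
      (p3w C e (d.ze C Q e) (d.q C Q e) (d.u C Q e)))) l)) =
      φ d.s • fun l => φ (vec e (d.ze C Q e) (p3x C e (d.ze C Q e) (d.y, 0) (d.q C Q e)
      (p3w C e (d.ze C Q e) (d.q C Q e) (d.u C Q e))) l) := by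
    funext l
    exact map_mul φ _ _
  rw [h1, map_vec, map_ze]
  have hneg : ∀ (c : R) (u : (Fin r → R) × R), mU φ (-c • u) = -(φ c) • mU φ u := by
    intro c u
    rw [mU_smul, map_neg]
  have hsub : ∀ u v : (Fin r → R) × R, mU φ (u - v) = mU φ u - mU φ v := by
    intro u v
    unfold mU
    apply Prod.ext
    · funext j; exact map_sub φ _ _
    · exact map_sub φ _ _
  have hw : mU φ (p3w C e (d.ze C Q e) (d.q C Q e) (d.u C Q e)) =
      p3w C e ((d.map φ).ze C Q e) ((d.map φ).q C Q e) ((d.map φ).u C Q e) := by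
    unfold p3w bq Rq
    rw [hsub, mU_smul, mU_smul, map_sub, map_sub, map_mul, map_mul, map_mul, map_mul]
    simp only [map_RR, map_bb, map_ze, map_q, map_u]
  have hx : mU φ (p3x C e (d.ze C Q e) (d.y, 0) (d.q C Q e)
      (p3w C e (d.ze C Q e) (d.q C Q e) (d.u C Q e))) =
      p3x C e ((d.map φ).ze C Q e) ((d.map φ).y, 0) ((d.map φ).q C Q e)
        (p3w C e ((d.map φ).ze C Q e) ((d.map φ).q C Q e) ((d.map φ).u C Q e)) := by
    unfold p3x
    rw [mU_smul, mU_add, hneg, mU_smul]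
    simp only [map_RR, map_bb, map_ze, map_q, hw, mU_pair]
    rfl
  rw [hx]
  rfl

end Par

section Mem

variable {K : Type*} [Field K] [CharZero K] {σ : Type*} [Fintype σ] {a r : ℕ}
variable {R : Type*} [CommRing R] [Algebra K R]
variable {C : Fin 2 → MvPolynomial σ K} {Q : Fin a → MvPolynomial σ K} {e : Fin r → σ → K}

theorem par3_mem (hC : ∀ i, (C i).IsHomogeneous 3) (hQ : ∀ j, (Q j).IsHomogeneous 2)
    (isoC : ∀ i, IsoK (C i) e) (isoQ : ∀ j, IsoK (Q j) e) (d : Dat σ r a R)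
    (m : Fin 2 ⊕ Fin a) : aeval (par3 C Q e d) (Sum.elim C Q m) = 0 := by
  unfold par3
  set ζ := d.ze C Q e with hζ
  set q := d.q C Q e with hq
  set u := d.u C Q e with hu
  set Y : (Fin r → R) × R := (d.y, 0) with hY
  set w := p3w C e ζ q u with hw
  -- the projected vector
  have hz : ∀ m, dd (Sum.elim C Q m) (emb e d.y) ζ = 0 := fun m =>
    dd_pz (Sum.elim C Q) id (emb e d.y) d.z d.om m
  have hRY : ∀ i, RR (C i) e ζ Y = 0 := by
    intro i
    unfold RR
    show dd (C i) (emb e d.y) ζ + 0 * _ + 0 ^ 2 * _ = 0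
    rw [show dd (C i) (emb e d.y) ζ = 0 from hz (Sum.inl i)]
    ring
  have hLY : ∀ j, LL (Q j) e ζ Y = 0 := by
    intro j
    unfold LL
    show dd (Q j) ζ (emb e d.y) + 0 * _ = 0
    rw [dd2_comm (hQ j), show dd (Q j) (emb e d.y) ζ = 0 from hz (Sum.inr j)]
    ring
  have hbq : ∀ i, bb (C i) e ζ Y q = 0 := fun i =>
    f_pj (FY C Q e ζ Y) d.m d.q0 (Sum.inl i)
  have hLq : ∀ j, LL (Q j) e ζ q = 0 := fun j =>
    f_pj (FY C Q e ζ Y) d.m d.q0 (Sum.inr j)
  have hbu : RR (C 1) e ζ q * bb (C 0) e ζ Y u - RR (C 0) e ζ q * bb (C 1) e ζ Y u = 0 :=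
    f_pj (FV C Q e ζ q Y) d.m' d.u0 (Sum.inl ())
  have hLu : ∀ j, LL (Q j) e ζ u = 0 := fun j =>
    f_pj (FV C Q e ζ q Y) d.m' d.u0 (Sum.inr j)
  have hwe : w = (bq C e ζ q q u) • u + (- Rq C e ζ q u) • q := by
    rw [hw]
    unfold p3w
    rw [neg_smul, sub_eq_add_neg]
  have hLw : ∀ j, LL (Q j) e ζ w = 0 := by
    intro j
    rw [hwe, ← LLL_apply, map_add, map_smul, map_smul, LLL_apply, LLL_apply, hLu, hLq, smul_zero,
      smul_zero, add_zero]
  have hRw : RR (C 1) e ζ q * RR (C 0) e ζ w - RR (C 0) e ζ q * RR (C 1) e ζ w = 0 := by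
    rw [hwe, RR_comb e (hC 0), RR_comb e (hC 1), bb_comm (C 0) e ζ u q, bb_comm (C 1) e ζ u q]
    unfold bq Rq
    ring
  have hbw : RR (C 1) e ζ q * bb (C 0) e ζ Y w - RR (C 0) e ζ q * bb (C 1) e ζ Y w = 0 := by
    rw [hwe]
    simp only [bb_add_right, bb_smul_right, hbq]
    linear_combination (bq C e ζ q q u) * hbu
  have hR1 : RR (C 1) e ζ (p3x C e ζ Y q w) = 0 := by
    unfold p3x
    rw [show RR (C 1) e ζ q • ((- RR (C 1) e ζ w) • Y + (bb (C 1) e ζ Y w) • w) =
      (RR (C 1) e ζ q * (- RR (C 1) e ζ w)) • Y + (RR (C 1) e ζ q * (bb (C 1) e ζ Y w)) • w by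
        rw [smul_add, smul_smul, smul_smul], RR_comb e (hC 1), hRY]
    ring
  have hR0 : RR (C 0) e ζ (p3x C e ζ Y q w) = 0 := by
    unfold p3x
    rw [show RR (C 1) e ζ q • ((- RR (C 1) e ζ w) • Y + (bb (C 1) e ζ Y w) • w) =
      (RR (C 1) e ζ q * (- RR (C 1) e ζ w)) • Y + (RR (C 1) e ζ q * (bb (C 1) e ζ Y w)) • w by
        rw [smul_add, smul_smul, smul_smul], RR_comb e (hC 0), hRY]
    linear_combination (-RR (C 1) e ζ w * bb (C 1) e ζ Y w * RR (C 1) e ζ q) * hbw +
      (bb (C 1) e ζ Y w) ^ 2 * RR (C 1) e ζ q * hRw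
  have hLx : ∀ j, LL (Q j) e ζ (p3x C e ζ Y q w) = 0 := by
    intro j
    unfold p3x
    rw [← LLL_apply, map_smul, map_add, map_smul, map_smul, LLL_apply, LLL_apply, hLY, hLw,
      smul_zero, smul_zero, add_zero, smul_zero]
  rcases m with i | j
  · simp only [Sum.elim_inl]
    rw [aeval_smul_gen (hC i), aeval_vec_C e (hC i) (isoC i)]
    have h1 : RR (C i) e ζ (p3x C e ζ Y q w) = 0 := by
      fin_cases i
      · exact hR0
      · exact hR1
    rw [h1]
    ring
  · simp only [Sum.elim_inr]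
    rw [aeval_smul_gen (hQ j), aeval_vec_Q e (hQ j) (isoQ j), hLx]
    ring

end Mem

section At

variable {K : Type*} [Field K] [CharZero K] {σ : Type*} [Fintype σ] {E : Type*} [Field E]
  [IsAlgClosed E] [Algebra K E] {a r : ℕ}
variable {C : Fin 2 → MvPolynomial σ K} {Q : Fin a → MvPolynomial σ K} {e : Fin r → σ → K}
  {η : σ → E}

/-- independence of the functionals for the first auxiliary vector -/
theorem Hyp3.indFY (h : Hyp3 C Q e η) {c0 : K} {y : Fin r → E} (B : Base C Q e η c0 y)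
    (α : Fin 2 ⊕ Fin a → E) (hα : ∀ v, ∑ m, α m * FY C Q e η (y, 0) m v = 0) : α = 0 := by
  have hα' : ∀ v, ∑ i, α (Sum.inl i) * bb (C i) e η (y, 0) v +
      ∑ j, α (Sum.inr j) * LL (Q j) e η v = 0 := by
    intro v
    have h1 := hα v
    rw [Fintype.sum_sum_type] at h1
    exact h1
  have h1 : (fun i => α (Sum.inl i)) = 0 := by
    refine h.smS (y, 0) (fun h0 => B.ne (congrArg Prod.fst h0)) ?_ ?_ _ ?_
    · intro j
      unfold LL
      show dd (Q j) η (emb e y) + 0 * _ = 0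
      rw [B.yQ]; ring
    · intro i
      unfold RR
      show dd (C i) (emb e y) η + 0 * _ + 0 ^ 2 * _ = 0
      rw [B.yC]; ring
    · intro u hu
      have h2 := hα' u
      have h3 : ∑ j, α (Sum.inr j) * LL (Q j) e η u = 0 :=
        Finset.sum_eq_zero fun j _ => by rw [hu, mul_zero]
      rw [h3, add_zero] at h2
      exact h2
  have h2 : (fun j => α (Sum.inr j)) = 0 := by
    apply h.indLL
    intro u
    have h3 := hα' u
    have h4 : ∑ i, α (Sum.inl i) * bb (C i) e η (y, 0) u = 0 :=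
      Finset.sum_eq_zero fun i _ => by
        have := congrFun h1 i
        simp only [Pi.zero_apply] at this
        rw [this, zero_mul]
    rw [h4, zero_add] at h3
    exact h3
  funext m
  rcases m with i | j
  · exact congrFun h1 i
  · exact congrFun h2 j

/-- the parametrisation passes through the generic point -/
theorem Hyp3.exists_par (h : Hyp3 C Q e η) : ∃ d : Dat σ r a E, par3 C Q e d = η := by
  classical
  have hE : CharZero E := charZero_of_injective_algebraMap (algebraMap K E).injective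
  obtain ⟨c0, y, B⟩ := h.exists_base
  obtain ⟨q, hq1, hq2, hq3, hq4⟩ := h.exists_q B
  set c := algebraMap K E c0 with hc
  obtain ⟨z, hz⟩ := exists_dual (fun m => ddL (Sum.elim C Q m) (emb e y))
    (h.gpt.smooth (emb e y) (fun h0 => B.ne (emb_inj h.he y h0)) (by
      rintro (i | j)
      · exact (h.isoC i).all y
      · exact (h.isoQ j).all y))
  obtain ⟨m, hm⟩ := exists_dual (FY C Q e η (y, 0)) (fun α hα => h.indFY B α hα)
  have hR1 : 2 * RR (C 1) e η q.1 = bU C Q e η 1 q q := (bb_self e (h.hC 1) η q.1).symm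
  have hR0 : 2 * RR (C 0) e η q.1 = bU C Q e η 0 q q := (bb_self e (h.hC 0) η q.1).symm
  have hRne : RR (C 1) e η q.1 ≠ 0 := by
    intro h0
    apply hq3
    rw [← hR1, h0, mul_zero]
  have hRc : RR (C 0) e η q.1 = - (c * RR (C 1) e η q.1) := by
    have h1 : 2 * (RR (C 0) e η q.1 + c * RR (C 1) e η q.1) = 0 := by
      linear_combination hq2 + hR0 + c * hR1
    have h2 := (mul_eq_zero.mp h1).resolve_left two_ne_zero
    linear_combination h2
  have hbY : ∀ i, bb (C i) e η (y, 0) (0, 1) = dd (C i) η (emb e y) := by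
    intro i
    have := h.bH i B.Y
    rw [bU_apply, bb_comm] at this
    exact this
  obtain ⟨m', hm'⟩ := exists_dual (FV C Q e η q.1 (y, 0)) (by
    intro β hβ
    have h1 := h.indFY B (Sum.elim (fun i : Fin 2 => β (Sum.inl ()) *
      (![RR (C 1) e η q.1, - RR (C 0) e η q.1] : Fin 2 → E) i) (fun j => β (Sum.inr j))) (by
      intro v
      rw [Fintype.sum_sum_type, Fin.sum_univ_two]
      have h2 := hβ v
      rw [Fintype.sum_sum_type] at h2
      simp only [Finset.univ_unique, Finset.sum_singleton] at h2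
      have h3 : FV C Q e η q.1 (y, 0) (Sum.inl default) v =
        RR (C 1) e η q.1 * bb (C 0) e η (y, 0) v - RR (C 0) e η q.1 * bb (C 1) e η (y, 0) v := rfl
      have h4 : ∀ j, FV C Q e η q.1 (y, 0) (Sum.inr j) v = LL (Q j) e η v := fun j => rfl
      have h5 : ∀ i, FY C Q e η (y, 0) (Sum.inl i) v = bb (C i) e η (y, 0) v := fun i => rfl
      have h6 : ∀ j, FY C Q e η (y, 0) (Sum.inr j) v = LL (Q j) e η v := fun j => rfl
      simp only [h3, h4] at h2
      simp only [Sum.elim_inl, Sum.elim_inr, h5, h6, Matrix.cons_val_zero, Matrix.cons_val_one]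
      have h7 : β (Sum.inl default) = β (Sum.inl ()) := rfl
      rw [h7] at h2
      linear_combination h2)
    funext t
    rcases t with t | j
    · have h2 := congrFun h1 (Sum.inl 0)
      have h3 : β (Sum.inl ()) * RR (C 1) e η q.1 = 0 := h2
      exact (mul_eq_zero.mp h3).resolve_right hRne
    · exact congrFun h1 (Sum.inr j))
  have hRH : ∀ i, RR (C i) e η ((0 : Fin r → E), (1 : E)) = 0 := by
    intro i
    unfold RR
    show dd (C i) (emb e 0) η + 1 * dd (C i) η (emb e 0) + 1 ^ 2 * aeval η (C i) = 0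
    rw [emb_zero, dd_at_zero (n := 1) (h.hC i), dd_zero_right, h.memC]
    ring
  let d0 : Dat σ r a E := ⟨y, z, η, m, q.1, m', (0, 1), 1⟩
  have hze : d0.ze C Q e = η := by
    show pz (Sum.elim C Q) id (emb e y) z η = η
    have hG1 : pG (Sum.elim C Q) id (emb e y) z = 1 := by
      ext k i
      rw [Matrix.one_apply]
      exact hz k i
    unfold pz
    rw [hG1, Matrix.det_one, one_smul]
    have h5 : ∀ k, dd (Sum.elim C Q (id k)) (emb e y) η = 0 := by
      rintro (i | j)
      · exact B.yC i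
      · show dd (Q j) (emb e y) η = 0
        rw [dd2_comm (h.hQ j)]
        exact B.yQ j
    have h6 : ∑ i, (∑ k, (1 : Matrix (Fin 2 ⊕ Fin a) (Fin 2 ⊕ Fin a) E).adjugate i k *
        dd (Sum.elim C Q (id k)) (emb e y) η) • z i = 0 := by
      refine Finset.sum_eq_zero fun i _ => ?_
      rw [Finset.sum_eq_zero (fun k _ => by rw [h5, mul_zero]), zero_smul]
    rw [h6, sub_zero]
  have hqe : d0.q C Q e = q.1 := by
    show pj (FY C Q e (d0.ze C Q e) (y, 0)) m q.1 = q.1
    rw [hze]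
    refine pj_dual _ m q.1 hm ?_
    rintro (i | j)
    · exact hq1 i
    · exact mem_UU.mp q.2 j
  have hue : d0.u C Q e = (0, 1) := by
    show pj (FV C Q e (d0.ze C Q e) (d0.q C Q e) (y, 0)) m' (0, 1) = (0, 1)
    rw [hze, hqe]
    refine pj_dual _ m' _ hm' ?_
    rintro (i | j)
    · show RR (C 1) e η q.1 * bb (C 0) e η (y, 0) (0, 1) -
        RR (C 0) e η q.1 * bb (C 1) e η (y, 0) (0, 1) = 0
      rw [hbY, hbY, hRc]
      linear_combination (RR (C 1) e η q.1) * B.yc
    · exact mem_UU.mp h.H_mem j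
  set A := bq C e η q.1 q.1 (0, 1) with hA
  have hAne : A ≠ 0 := by
    have h1 : A = RR (C 1) e η q.1 *
        (bU C Q e η 0 q h.H + c * bU C Q e η 1 q h.H) := by
      rw [hA]
      unfold bq
      rw [hRc]
      show RR (C 1) e η q.1 * bb (C 0) e η q.1 (0, 1) -
        -(c * RR (C 1) e η q.1) * bb (C 1) e η q.1 (0, 1) =
        RR (C 1) e η q.1 * (bb (C 0) e η q.1 (0, 1) + c * bb (C 1) e η q.1 (0, 1))
      ring
    rw [h1]
    exact mul_ne_zero hRne hq4
  have hwe : p3w C e η q.1 (0, 1) = A • ((0 : Fin r → E), (1 : E)) := by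
    unfold p3w
    have h1 : Rq C e η q.1 (0, 1) = 0 := by
      unfold Rq
      rw [hRH, hRH]; ring
    rw [h1, zero_smul, sub_zero]
  have hRw : RR (C 1) e η (A • ((0 : Fin r → E), (1 : E))) = 0 := by
    have h1 := RR_comb e (h.hC 1) η ((0 : Fin r → E), (1 : E)) ((0 : Fin r → E), (1 : E)) A 0
    rw [zero_smul, add_zero, hRH] at h1
    rw [h1]; ring
  have hbw : bb (C 1) e η (y, 0) (A • ((0 : Fin r → E), (1 : E))) =
      A * dd (C 1) η (emb e y) := by
    rw [bb_smul_right, hbY]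
  have hxe : p3x C e η (y, 0) q.1 (A • ((0 : Fin r → E), (1 : E))) =
      (RR (C 1) e η q.1 * (A * dd (C 1) η (emb e y) * A)) • ((0 : Fin r → E), (1 : E)) := by
    unfold p3x
    rw [hRw, hbw, neg_zero, zero_smul, zero_add, smul_smul, smul_smul]
    congr 1
    ring
  set κ := RR (C 1) e η q.1 * (A * dd (C 1) η (emb e y) * A) with hκ
  have hκne : κ ≠ 0 := mul_ne_zero hRne (mul_ne_zero (mul_ne_zero hAne B.y1) hAne)
  have hvec : vec e η (κ • ((0 : Fin r → E), (1 : E))) = κ • η := by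
    unfold vec
    show emb e (κ • (0 : Fin r → E)) + (κ * 1) • η = κ • η
    rw [smul_zero, emb_zero, zero_add, mul_one]
  refine ⟨⟨y, z, η, m, q.1, m', (0, 1), κ⁻¹⟩, ?_⟩
  show κ⁻¹ • vec e (d0.ze C Q e) (p3x C e (d0.ze C Q e) (y, 0) (d0.q C Q e)
    (p3w C e (d0.ze C Q e) (d0.q C Q e) (d0.u C Q e))) = η
  rw [hze, hqe, hue, hwe, hxe, hvec, smul_smul, inv_mul_cancel₀ hκne, one_smul]

end At

end Pool.Agent.Work.PDC
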