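import Mathlib
import Pool.Agent.Work.MP_b62148_ag.CI.Final
import Pool.Agent.Work.MP_b62148_ag.CI.Param3

/-!
Unirationality and density for all complete intersections with sum of `d_i - 2` at most two
containing a linear space.
-/

namespace Pool.Agent.Work.PDC

open MvPolynomial

universe u w

section Three

variable {K : Type u} [Field K] [CharZero K] {σ : Type w} [Fintype σ] {a r : ℕ}

/-- the parameters -/
abbrev Pv3 (σ : Type w) (a r : ℕ) : Type w :=
  Fin r ⊕ ((Fin 2 ⊕ Fin a) × σ) ⊕ σ ⊕ ((Fin 2 ⊕ Fin a) × (Fin r ⊕ Unit)) ⊕ (Fin r ⊕ Unit) ⊕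
    ((Unit ⊕ Fin a) × (Fin r ⊕ Unit)) ⊕ (Fin r ⊕ Unit) ⊕ Unit

/-- the data with given values -/
def datOf {R : Type*} [CommRing R] (t : Pv3 σ a r → R) : Dat σ r a R where
  y := fun j => t (Sum.inl j)
  z := fun i l => t (Sum.inr (Sum.inl (i, l)))
  om := fun l => t (Sum.inr (Sum.inr (Sum.inl l)))
  m := fun i => (fun j => t (Sum.inr (Sum.inr (Sum.inr (Sum.inl (i, Sum.inl j))))),
    t (Sum.inr (Sum.inr (Sum.inr (Sum.inl (i, Sum.inr ()))))))
  q0 := (fun j => t (Sum.inr (Sum.inr (Sum.inr (Sum.inr (Sum.inl (Sum.inl j)))))),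
    t (Sum.inr (Sum.inr (Sum.inr (Sum.inr (Sum.inl (Sum.inr ())))))))
  m' := fun i => (fun j => t (Sum.inr (Sum.inr (Sum.inr (Sum.inr (Sum.inr (Sum.inl
      (i, Sum.inl j))))))),
    t (Sum.inr (Sum.inr (Sum.inr (Sum.inr (Sum.inr (Sum.inl (i, Sum.inr ()))))))))
  u0 := (fun j => t (Sum.inr (Sum.inr (Sum.inr (Sum.inr (Sum.inr (Sum.inr (Sum.inl
      (Sum.inl j)))))))),
    t (Sum.inr (Sum.inr (Sum.inr (Sum.inr (Sum.inr (Sum.inr (Sum.inl (Sum.inr ())))))))))
  s := t (Sum.inr (Sum.inr (Sum.inr (Sum.inr (Sum.inr (Sum.inr (Sum.inr ())))))))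

/-- the values of given data -/
def ofDat {R : Type*} [CommRing R] (d : Dat σ r a R) : Pv3 σ a r → R :=
  Sum.elim d.y (Sum.elim (fun p => d.z p.1 p.2) (Sum.elim d.om
    (Sum.elim (fun p => Sum.elim (d.m p.1).1 (fun _ => (d.m p.1).2) p.2)
      (Sum.elim (Sum.elim d.q0.1 (fun _ => d.q0.2))
        (Sum.elim (fun p => Sum.elim (d.m' p.1).1 (fun _ => (d.m' p.1).2) p.2)
          (Sum.elim (Sum.elim d.u0.1 (fun _ => d.u0.2)) (fun _ => d.s)))))))

omit [Fintype σ] in
theorem datOf_ofDat {R : Type*} [CommRing R] (d : Dat σ r a R) : datOf (ofDat d) = d := by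
  rfl

variable (C : Fin 2 → MvPolynomial σ K) (Q : Fin a → MvPolynomial σ K) (e : Fin r → σ → K)

/-- the parametrising polynomials -/
noncomputable def PP3 : σ → MvPolynomial (Pv3 σ a r) K :=
  par3 C Q e (datOf (X : Pv3 σ a r → MvPolynomial (Pv3 σ a r) K))

omit [CharZero K] [Fintype σ] in
theorem map_datOf {R : Type*} [CommRing R] [Algebra K R] (t : Pv3 σ a r → R) :
    (datOf (X : Pv3 σ a r → MvPolynomial (Pv3 σ a r) K)).map
      (aeval t : MvPolynomial (Pv3 σ a r) K →ₐ[K] R) = datOf t := by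
  simp only [Dat.map, datOf, mU, aeval_X]

omit [CharZero K] in
theorem aeval_PP3 {R : Type*} [CommRing R] [Algebra K R] (t : Pv3 σ a r → R)
    (H : MvPolynomial σ K) :
    aeval t (aeval (PP3 C Q e) H) = aeval (par3 C Q e (datOf t)) H := by
  rw [map_aeval' (aeval t : MvPolynomial (Pv3 σ a r) K →ₐ[K] R) H (PP3 C Q e)]
  congr 2
  unfold PP3
  rw [map_par3, map_datOf]

variable {C Q e}

theorem final_K3 (hC : ∀ i, (C i).IsHomogeneous 3) (hQ : ∀ j, (Q j).IsHomogeneous 2)
    (hs : SmoothCI (Sum.elim C Q)) (hr : a + 4 = r) (hcard : r + (a + 2) < Fintype.card σ)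
    (he : LinearIndependent K e) (isoC : ∀ i, IsoK (C i) e) (isoQ : ∀ j, IsoK (Q j) e) :
    UnirCI (Sum.elim C Q) ∧ DenseCI (Sum.elim C Q) := by
  classical
  refine unir_dense (Sum.elim C Q) (PP3 C Q e) ?_ ?_
  · intro i
    exact par3_mem hC hQ isoC isoQ _ i
  · intro H hH x hx
    by_cases hx0 : x = 0
    · subst hx0
      have h1 := aeval_PP3 C Q e (fun _ => (0 : AlgebraicClosure K)) H
      rw [hH, map_zero] at h1
      have h2 : par3 C Q e (datOf (fun _ : Pv3 σ a r => (0 : AlgebraicClosure K))) = 0 := by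
        unfold par3
        exact zero_smul _ _
      rw [h2] at h1
      exact h1.symm
    · obtain ⟨E, i1, i2, i3, η, hg, hsp⟩ := exists_gpt (Sum.elim C Q) hs x hx0 hx
      have hyp : Hyp3 C Q e η := ⟨hC, hQ, hr, hcard, he, isoC, isoQ, hg⟩
      obtain ⟨d, hpar⟩ := hyp.exists_par
      apply hsp
      have h1 := aeval_PP3 C Q e (ofDat d) H
      rw [hH, map_zero, datOf_ofDat, hpar] at h1
      exact h1.symm

end Three

section Reindex

variable {K : Type*} [Field K] {σ : Type*} {ι ι' : Type*}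

theorem SmoothCI.reindex [Fintype ι] [Fintype ι'] {G : ι → MvPolynomial σ K} (hs : SmoothCI G)
    (f : ι' ≃ ι) : SmoothCI (fun i => G (f i)) := by
  intro x hx0 hx b hb
  have h1 := hs x hx0 (fun i => by
    have h2 : aeval x (G (f (f.symm i))) = 0 := hx (f.symm i)
    rwa [Equiv.apply_symm_apply] at h2) (fun i => b (f.symm i)) (by
    intro l
    rw [← hb l, ← Equiv.sum_comp f]
    refine Finset.sum_congr rfl fun i _ => ?_
    rw [Equiv.symm_apply_apply])
  funext i
  have := congrFun h1 (f i)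
  simpa using this

theorem UnirCI.of_reindex {G : ι → MvPolynomial σ K} (f : ι' ≃ ι)
    (h : UnirCI (fun i => G (f i))) : UnirCI G := by
  obtain ⟨m, P, hP, hdom⟩ := h
  refine ⟨m, P, fun i => ?_, fun H hH x hx => hdom H hH x (fun i => hx (f i))⟩
  have h2 : aeval P (G (f (f.symm i))) = 0 := hP (f.symm i)
  rwa [Equiv.apply_symm_apply] at h2

theorem DenseCI.of_reindex {G : ι → MvPolynomial σ K} (f : ι' ≃ ι)
    (h : DenseCI (fun i => G (f i))) : DenseCI G := by
  intro H hH x hx
  refine h H (fun x hx => hH x (fun i => ?_)) x (fun i => hx (f i))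
  have h2 : eval x (G (f (f.symm i))) = 0 := hx (f.symm i)
  rwa [Equiv.apply_symm_apply] at h2

theorem exists_equiv [Fintype ι] [DecidableEq ι] {m : ℕ} (f : Fin m → ι)
    (hf : Function.Injective f) : ∃ (a : ℕ) (g : Fin m ⊕ Fin a ≃ ι), ∀ j, g (Sum.inl j) = f j := by
  classical
  let s : Set ι := Set.range f
  let a := Fintype.card (sᶜ : Set ι)
  let g1 : Fin m ≃ s := Equiv.ofInjective f hf
  let g2 : Fin a ≃ (sᶜ : Set ι) := (Fintype.equivFin (sᶜ : Set ι)).symm
  refine ⟨a, (Equiv.sumCongr g1 g2).trans (Equiv.Set.sumCompl s), fun j => ?_⟩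
  simp [g1]
  rfl

end Reindex

section Gen

variable {K : Type u} [Field K] [CharZero K] {σ : Type w} [Fintype σ] {ι : Type*} [Fintype ι]

/-- the general theorem over the field of definition of the linear space -/
theorem final_gen (d : ι → ℕ) (hd : ∀ i, 2 ≤ d i) (hex : ∑ i, (d i - 2) ≤ 2)
    (G : ι → MvPolynomial σ K) (hG : ∀ i, (G i).IsHomogeneous (d i)) (hs : SmoothCI G)
    (hcard : ∑ i, d i < Fintype.card σ) {r : ℕ} (hr : r = ∑ i, (d i - 1)) (e : Fin r → σ → K)
    (he : LinearIndependent K e) (hiso : ∀ i, IsoK (G i) e) : UnirCI G ∧ DenseCI G := by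
  classical
  by_cases hempty : IsEmpty ι
  · refine unir_dense G (fun l => X l) (fun i => hempty.elim i) ?_
    intro H hH x _
    have h1 : (aeval (fun l : σ => (X l : MvPolynomial σ K)) H) = H := by
      have := aeval_X_left_apply H
      exact this
    rw [h1] at hH
    rw [hH, map_zero]
  rw [not_isEmpty_iff] at hempty
  -- is there an index outside which all the degrees are two
  by_cases hone : ∃ i0, ∀ i, i ≠ i0 → d i = 2
  · obtain ⟨i0, hi0⟩ := hone
    obtain ⟨a, g, hg⟩ := exists_equiv (m := 1) (fun _ => i0) (fun _ _ _ => Subsingleton.elim _ _)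
    let f0 : Fin (a + 1) ≃ Fin 1 ⊕ Fin a :=
      (finSumFinEquiv.trans (finCongr (Nat.add_comm 1 a))).symm
    have hf0 : f0 0 = Sum.inl 0 := by
      rw [Equiv.symm_apply_eq]
      ext
      simp
    have hfs : ∀ j : Fin a, f0 j.succ = Sum.inr j := by
      intro j
      rw [Equiv.symm_apply_eq]
      ext
      simp
    let f : Fin (a + 1) ≃ ι := f0.trans g
    have hfi : f 0 = i0 := by
      show g (f0 0) = i0
      rw [hf0, hg]
    have hfj : ∀ j : Fin a, d (f j.succ) = 2 := by
      intro j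
      apply hi0
      intro h
      have h1 : f j.succ = f 0 := by rw [h, hfi]
      exact (Fin.succ_ne_zero j) (f.injective h1)
    have hsum : ∀ φ : ℕ → ℕ, ∑ i, φ (d i) = φ (d i0) + a * φ 2 := by
      intro φ
      rw [← Equiv.sum_comp f, Fin.sum_univ_succ, hfi]
      simp only [hfj, Finset.sum_const, Finset.card_univ, Fintype.card_fin, smul_eq_mul]
    have h2 := hsum (fun x => x - 2)
    have h3 := hsum (fun x => x - 1)
    have h4 := hsum (fun x => x)
    have hd0 := hd i0
    obtain ⟨p, q, hpq, hdp⟩ : ∃ p q, Sw p q ∧ d i0 = p + q + 2 := by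
      have hle : d i0 ≤ 4 := by omega
      have hcase : d i0 = 2 ∨ d i0 = 3 ∨ d i0 = 4 := by omega
      rcases hcase with h | h | h
      · exact ⟨0, 0, Or.inl ⟨rfl, rfl⟩, h⟩
      · exact ⟨1, 0, Or.inr (Or.inl ⟨rfl, rfl⟩), h⟩
      · exact ⟨1, 1, Or.inr (Or.inr ⟨rfl, rfl⟩), h⟩
    have hfin := final_K (K := K) (G := fun i => G (f i)) (e := e) (p := p) (q := q) hpq
      (by
        have := hG (f 0)
        rw [hfi, hdp] at this
        rw [hfi]
        exact this)
      (fun j => by
        have := hG (f j.succ)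
        rw [hfj] at this
        exact this) (hs.reindex f) (by omega) (by omega) he (fun i => hiso (f i))
    exact ⟨hfin.1.of_reindex f, hfin.2.of_reindex f⟩
  · -- two indices of degree three
    push Not at hone
    obtain ⟨i0⟩ := hempty
    -- an index with degree different from two
    have hex1 : ∃ i1, d i1 ≠ 2 := by
      obtain ⟨i, _, hi⟩ := hone i0
      exact ⟨i, hi⟩
    obtain ⟨i1, hi1⟩ := hex1
    obtain ⟨i2, hi21, hi2⟩ := hone i1
    have hone' := hone
    have hd1 := hd i1
    have hd2 := hd i2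
    obtain ⟨a, g, hg⟩ := exists_equiv (m := 2) ![i1, i2] (by
      intro p q hpq
      fin_cases p <;> fin_cases q
      · rfl
      · exact absurd hpq.symm hi21
      · exact absurd hpq hi21
      · rfl)
    have hg0 : g (Sum.inl 0) = i1 := hg 0
    have hg1 : g (Sum.inl 1) = i2 := hg 1
    have hsum0 : ∀ φ : ℕ → ℕ, ∑ i, φ (d i) =
        φ (d i1) + φ (d i2) + ∑ j : Fin a, φ (d (g (Sum.inr j))) := by
      intro φ
      rw [← Equiv.sum_comp g, Fintype.sum_sum_type, Fin.sum_univ_two, hg0, hg1]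
    have h2 := hsum0 (fun x => x - 2)
    have hrest : ∀ j : Fin a, d (g (Sum.inr j)) = 2 := by
      intro j
      have h5 : d (g (Sum.inr j)) - 2 ≤ ∑ j : Fin a, (d (g (Sum.inr j)) - 2) :=
        Finset.single_le_sum (f := fun j => d (g (Sum.inr j)) - 2) (fun _ _ => Nat.zero_le _)
          (Finset.mem_univ j)
      have h6 := hd (g (Sum.inr j))
      omega
    have hsum : ∀ φ : ℕ → ℕ, ∑ i, φ (d i) = φ (d i1) + φ (d i2) + a * φ 2 := by
      intro φ
      rw [hsum0]
      simp only [hrest, Finset.sum_const, Finset.card_univ, Fintype.card_fin, smul_eq_mul]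
    have h3 := hsum (fun x => x - 1)
    have h4 := hsum (fun x => x)
    have hd13 : d i1 = 3 := by omega
    have hd23 : d i2 = 3 := by omega
    let C : Fin 2 → MvPolynomial σ K := fun i => G (g (Sum.inl i))
    let Q : Fin a → MvPolynomial σ K := fun j => G (g (Sum.inr j))
    have hCQ : (Sum.elim C Q) = fun i => G (g i) := by
      funext i
      rcases i with i | j <;> rfl
    have hfin := final_K3 (C := C) (Q := Q) (e := e) (by
        intro i
        have h5 := hG (g (Sum.inl i))
        fin_cases i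
        · have h6 : d (g (Sum.inl 0)) = 3 := by rw [hg0]; exact hd13
          rw [← h6]
          exact h5
        · have h6 : d (g (Sum.inl 1)) = 3 := by rw [hg1]; exact hd23
          rw [← h6]
          exact h5) (by
        intro j
        have h5 := hG (g (Sum.inr j))
        rw [hrest] at h5
        exact h5) (by
        rw [hCQ]
        exact hs.reindex g) (by omega) (by omega) he (fun i => hiso _) (fun j => hiso _)
    rw [hCQ] at hfin
    exact ⟨hfin.1.of_reindex g, hfin.2.of_reindex g⟩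

/-- the potential version -/
theorem potential_gen (d : ι → ℕ) (hd : ∀ i, 2 ≤ d i) (hex : ∑ i, (d i - 2) ≤ 2)
    (G : ι → MvPolynomial σ K) (hG : ∀ i, (G i).IsHomogeneous (d i)) (hs : SmoothCI G)
    (hcard : ∑ i, d i < Fintype.card σ) {r : ℕ} (hr : r = ∑ i, (d i - 1))
    (e : Fin r → σ → AlgebraicClosure K) (he : LinearIndependent (AlgebraicClosure K) e)
    (hiso : ∀ i, ∀ c : Fin r → AlgebraicClosure K, aeval (fun l => ∑ j, c j * e j l) (G i) = 0) :
    ∃ L : IntermediateField K (AlgebraicClosure K), FiniteDimensional K L ∧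
      UnirCI (fun i => map (algebraMap K L) (G i)) ∧
      DenseCI (fun i => map (algebraMap K L) (G i)) := by
  obtain ⟨L, hL, e', he', hiso'⟩ := descend_space G e he hiso
  exact ⟨L, hL, final_gen d hd hex _ (fun i => (hG i).map _) (hs.map' L) hcard hr e' he' hiso'⟩

end Gen

end Pool.Agent.Work.PDC
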