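import Mathlib
import Pool.Agent.Work.MP_b62148_ag.CI.Gen
import Pool.Agent.Work.MP_b62148_ag.Quintic.MainT
import Pool.Agent.Work.MP_b62148_ag.Quintic.PolQ

/-!
The quintic hypersurface is added to the complete intersections: the final uniform theorem.
-/

namespace Pool.Agent.Work.PDC

open MvPolynomial

universe u w

section Quintic

variable {K : Type u} [Field K] [CharZero K] {σ : Type w} [Fintype σ]

theorem smoothForm_of {F : MvPolynomial σ K} (hF : F.IsHomogeneous 5)
    (hs : ∀ x : σ → AlgebraicClosure K, x ≠ 0 → aeval x F = 0 →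
      ∃ l, aeval x (pderiv l F) ≠ 0) : PD.SmoothForm F := by
  intro x hx
  by_contra hx0
  have hch : CharZero (AlgebraicClosure K) :=
    charZero_of_injective_algebraMap (algebraMap K (AlgebraicClosure K)).injective
  have h1 : aeval x (∑ l, X l * pderiv l F) = aeval x (5 • F) := by
    rw [hF.sum_X_mul_pderiv]
  rw [map_sum] at h1
  have h2 : ∑ l, aeval x (X l * pderiv l F) = 0 := by
    refine Finset.sum_eq_zero fun l _ => ?_
    rw [map_mul, hx l, mul_zero]
  rw [h2, map_nsmul] at h1
  have h3 : aeval x F = 0 := by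
    have h4 : (5 : AlgebraicClosure K) * aeval x F = 0 := by
      rw [h1]
      simp
    rcases mul_eq_zero.mp h4 with h | h
    · norm_num at h
    · exact h
  obtain ⟨l, hl⟩ := hs x hx0 h3
  exact hl (hx l)

/-- a quintic hypersurface -/
theorem final_quintic {F : MvPolynomial σ K} (hF : F.IsHomogeneous 5)
    (hs : ∀ x : σ → AlgebraicClosure K, x ≠ 0 → aeval x F = 0 →
      ∃ l, aeval x (pderiv l F) ≠ 0) (e : Fin 4 → σ → K) (he : LinearIndependent K e)
    (hiso : IsoK F e) :
    (∃ (m : ℕ) (P : σ → MvPolynomial (Fin m) K), aeval P F = 0 ∧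
      ∀ G : MvPolynomial σ K, aeval P G = 0 → F ∣ G) ∧
    ∀ G : MvPolynomial σ K, (∀ x : σ → K, eval x F = 0 → eval x G = 0) → F ∣ G := by
  obtain ⟨T, hT⟩ := PD5.exists_isTen F hF
  have hcard : 4 ≤ Fintype.card σ := by
    have := he.fintype_card_le_finrank
    simpa using this
  have hiso' : PD5.Iso T e := by
    apply PD5.iso_of_vanish
    intro s
    rw [← hT.aeval_eq]
    exact hiso s
  exact PD5.space_final F hF (smoothForm_of hF hs) (by omega) T hT e he hiso'

end Quintic

section All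

variable {K : Type u} [Field K] [CharZero K] {σ : Type w} [Fintype σ] {ι : Type*} [Fintype ι]

/-- the final theorem over the field of definition of the linear space -/
theorem final_all (d : ι → ℕ) (hd : ∀ i, 2 ≤ d i)
    (hex : ∑ i, (d i - 2) ≤ 2 ∨ ∑ i, (d i - 1) ≤ 4)
    (G : ι → MvPolynomial σ K) (hG : ∀ i, (G i).IsHomogeneous (d i)) (hs : SmoothCI G)
    (hcard : ∑ i, d i < Fintype.card σ) {r : ℕ} (hr : r = ∑ i, (d i - 1)) (e : Fin r → σ → K)
    (he : LinearIndependent K e) (hiso : ∀ i, IsoK (G i) e) : UnirCI G ∧ DenseCI G := by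
  classical
  by_cases hsm : ∑ i, (d i - 2) ≤ 2
  · exact final_gen d hd hsm G hG hs hcard hr e he hiso
  have h4 : ∑ i, (d i - 1) ≤ 4 := hex.resolve_left hsm
  have hsum : ∑ i, (d i - 1) = ∑ i, (d i - 2) + Fintype.card ι := by
    rw [Fintype.card_eq_sum_ones, ← Finset.sum_add_distrib]
    refine Finset.sum_congr rfl fun i _ => ?_
    have := hd i
    omega
  have hle : Fintype.card ι ≤ 1 := by omega
  have hsub : Subsingleton ι := Fintype.card_le_one_iff_subsingleton.mp hle
  have hne : Nonempty ι := by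
    by_contra h
    rw [not_nonempty_iff] at h
    apply hsm
    simp
  obtain ⟨i0⟩ := hne
  have hall : ∀ i, i = i0 := fun i => Subsingleton.elim i i0
  have hsum0 : ∀ φ : ι → ℕ, ∑ i, φ i = φ i0 := fun φ =>
    Fintype.sum_subsingleton φ i0
  have hsumA : ∀ φ : ι → AlgebraicClosure K, ∑ i, φ i = φ i0 := fun φ =>
    Fintype.sum_subsingleton φ i0
  rw [hsum0] at hsm h4 hr
  have hd5 : d i0 = 5 := by omega
  have hr4 : r = 4 := by omega
  subst hr4
  have hF : (G i0).IsHomogeneous 5 := by
    rw [← hd5]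
    exact hG i0
  have hs' : ∀ x : σ → AlgebraicClosure K, x ≠ 0 → aeval x (G i0) = 0 →
      ∃ l, aeval x (pderiv l (G i0)) ≠ 0 := by
    intro x hx0 hx
    by_contra hcon
    push Not at hcon
    have h1 := hs x hx0 (fun i => by rw [hall i]; exact hx) (fun _ => 1) (fun l => by
      rw [hsumA, hcon l, mul_zero])
    have h2 := congrFun h1 i0
    simp at h2
  obtain ⟨⟨m, P, hP, hdom⟩, hdense⟩ := final_quintic hF hs' e he (hiso i0)
  refine ⟨⟨m, P, fun i => by rw [hall i]; exact hP, ?_⟩, ?_⟩
  · intro H hH x hx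
    obtain ⟨Q, hQ⟩ := hdom H hH
    rw [hQ, map_mul, hx i0, zero_mul]
  · intro H hH x hx
    obtain ⟨Q, hQ⟩ := hdense H (fun y hy => hH y (fun i => by rw [hall i]; exact hy))
    rw [hQ, map_mul, hx i0, zero_mul]

end All

end Pool.Agent.Work.PDC
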