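import Mathlib
import Pool.Agent.Work.MP_b62148_ag.CI.Quin
import Pool.Agent.Work.MP_b62148_ag.CI.ExistL
import Pool.Agent.Work.MP_b62148_ag.Quintic.ExistAnyQ

/-!
Existence of linear spaces in the complete intersections, with the sharp bound for hypersurfaces.
-/

namespace Pool.Agent.Work.PDC

open MvPolynomial

universe u w

section E

variable {k : Type u} [Field k] [CharZero k] {σ : Type w} [Fintype σ] {ι : Type*} [Fintype ι]

theorem exists_space_q {F : MvPolynomial σ k} (hF : F.IsHomogeneous 5)
    (hcard : 18 ≤ Fintype.card σ) :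
    ∃ e : Fin 4 → σ → AlgebraicClosure k, LinearIndependent (AlgebraicClosure k) e ∧
      ∀ c : Fin 4 → AlgebraicClosure k, aeval (fun l => ∑ j, c j * e j l) F = 0 := by
  obtain ⟨T, hT⟩ := PD5.exists_isTen F hF
  have hch : CharZero (AlgebraicClosure k) :=
    charZero_of_injective_algebraMap (algebraMap k (AlgebraicClosure k)).injective
  obtain ⟨lam, hli, hiso⟩ := PD5.exists_P3_any (E := AlgebraicClosure k) T hcard
  refine ⟨lam, hli, fun c => ?_⟩
  rw [hT.aeval_eq]
  exact hiso.comb c c c c c

/-- existence of linear spaces, with the sharp bound for quintic hypersurfaces -/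
theorem exists_all (d : ι → ℕ) (hd : ∀ i, 2 ≤ d i)
    (hex : ∑ i, (d i - 2) ≤ 2 ∨ ∑ i, (d i - 1) ≤ 4) (G : ι → MvPolynomial σ k)
    (hG : ∀ i, (G i).IsHomogeneous (d i)) {r : ℕ} (hr : r = ∑ i, (d i - 1))
    (hN : r + ∑ i, (r + d i - 2).choose (d i - 1) ≤ Fintype.card σ ∨
      (Fintype.card ι = 1 ∧ 18 ≤ Fintype.card σ)) :
    ∃ e : Fin r → σ → AlgebraicClosure k, LinearIndependent (AlgebraicClosure k) e ∧
      ∀ (i : ι) (c : Fin r → AlgebraicClosure k), aeval (fun l => ∑ j, c j * e j l) (G i) = 0 := by
  classical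
  have key : r + ∑ i, (r + d i - 2).choose (d i - 1) ≤ Fintype.card σ →
    ∃ e : Fin r → σ → AlgebraicClosure k, LinearIndependent (AlgebraicClosure k) e ∧
      ∀ (i : ι) (c : Fin r → AlgebraicClosure k),
        aeval (fun l => ∑ j, c j * e j l) (G i) = 0 := by
    intro h
    obtain ⟨e, he, hiso⟩ := exists_space
      (fun i => map (algebraMap k (AlgebraicClosure k)) (G i)) d (fun i => (hG i).map _)
      (fun i => by have := hd i; omega) r (by omega)
    refine ⟨e, he, fun i s => ?_⟩
    have h1 := hiso i s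
    rw [aeval_map_algebraMap] at h1
    exact h1
  rcases hN with h | ⟨hc, h18⟩
  · exact key h
  · obtain ⟨i0, hi0⟩ := Fintype.card_eq_one_iff.mp hc
    have hsub : Subsingleton ι := ⟨fun i j => (hi0 i).trans (hi0 j).symm⟩
    have hsum0 : ∀ φ : ι → ℕ, ∑ i, φ i = φ i0 := fun φ => Fintype.sum_subsingleton φ i0
    rw [hsum0, hsum0] at hex
    rw [hsum0] at hr
    have hd0 := hd i0
    by_cases h5 : d i0 = 5
    · rw [h5] at hr
      have hr4 : r = 4 := hr
      subst hr4
      have hF : (G i0).IsHomogeneous 5 := by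
        rw [← h5]
        exact hG i0
      obtain ⟨e, he, hiso⟩ := exists_space_q hF h18
      exact ⟨e, he, fun i c => by rw [hi0 i]; exact hiso c⟩
    · apply key
      rw [hsum0]
      have hcase : d i0 = 2 ∨ d i0 = 3 ∨ d i0 = 4 := by omega
      rcases hcase with h | h | h
      · rw [h] at hr
        have hr1 : r = 1 := hr
        rw [hr1, h]
        have : (1 + 2 - 2).choose (2 - 1) = 1 := by decide
        omega
      · rw [h] at hr
        have hr1 : r = 2 := hr
        rw [hr1, h]
        have : (2 + 3 - 2).choose (3 - 1) = 3 := by decide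
        omega
      · rw [h] at hr
        have hr1 : r = 3 := hr
        rw [hr1, h]
        have : (3 + 4 - 2).choose (4 - 1) = 10 := by decide
        omega

end E

end Pool.Agent.Work.PDC
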